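import Pool.Agent.N986.SL.Main

/-!
# Lattice gauge theory in a slab: the infinite volume measure in the axial gauge
-/

set_option autoImplicit false
set_option linter.unusedSectionVars false
set_option linter.unusedVariables false

open MeasureTheory Finset Function Filter Topology
open scoped ENNReal NNReal

namespace Pool.Agent.N986.SL

open Pool.Agent.N986.PB

noncomputable section

variable {D L : ℕ} {G : Type*} [Group G]

/-- the horizontal field of the axial gauge, recovered from the field -/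
lemma ax_back (U : Link D L → G) (φ : (Fin D → ℤ) → Fin D × Fin L → G) : ax (back U φ) = φ := by
  have h : ∀ x n, hv (back U φ) x n = hv U x n := fun x n =>
    hv_congr (U := back U φ) (U' := U) (x := x) (fun s => rfl) n
  funext x ⟨i, s⟩
  show hv (back U φ) x (s + 1) * ((hv U x (s + 1))⁻¹ * φ x (i, s) * hv U (x + e i) (s + 1)) *
    (hv (back U φ) (x + e i) (s + 1))⁻¹ = φ x (i, s)
  rw [h, h]
  group

variable [MeasurableSpace G] [MeasurableMul₂ G] [MeasurableInv G]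

/-- Infinite volume Gibbs measures in the axial gauge. -/
structure AxGibbs (μ : Measure G) (χ : G → ℝ) (β : ℝ)
    (Q : Measure ((Fin D → ℤ) → Fin D × Fin L → G)) : Prop where
  prob : IsProbabilityMeasure Q
  dlr : ∀ (V : Finset (Fin D → ℤ)) (F : ((Fin D → ℤ) → Fin D × Fin L → G) → ℝ≥0∞),
    Measurable F → ∫⁻ φ, F φ ∂Q =
      ∫⁻ φ, ev (Measure.pi fun _ : Fin D × Fin L => μ) (axw χ β V) V F φ ∂Q

variable {μ : Measure G} [IsProbabilityMeasure μ] [μ.IsMulLeftInvariant] [μ.IsMulRightInvariant]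
  {χ : G → ℝ} {β m C : ℝ}

/-- gauge fixing of a Gibbs measure -/
lemma IsGibbs.axial {P : Measure (Link D L → G)} (hP : IsGibbs μ χ β Set.univ P)
    (hχ : ∀ a p : G, χ (a * p * a⁻¹) = χ p) (hχm : Measurable χ) {b : ℝ} (hb : ∀ p, |χ p| ≤ b) :
    AxGibbs μ χ β (P.map ax) := by
  have := hP.prob
  refine ⟨Measure.isProbabilityMeasure_map ax_meas.aemeasurable, fun V F hF => ?_⟩
  have hw := axw_good (D := D) (L := L) hχm hb (Measure.pi fun _ : Fin D × Fin L => μ) β V
  rw [lintegral_map hF ax_meas, lintegral_map (ev_meas hw hF) ax_meas,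
    hP.dlr (Hor L V) (fun _ _ => Set.mem_univ _) (fun U => F (ax U)) (hF.comp ax_meas)]
  refine lintegral_congr fun U => ?_
  rw [ev_hor hχ hχm β V (F := fun U => F (ax U)) (hF.comp ax_meas) U]
  simp only [ax_back]

/-- the infinite volume measure is close to the finite volume measures -/
lemma AxGibbs.le (hI : AxInfl D L μ χ β m C) (hχm : Measurable χ) {b : ℝ} (hb : ∀ p, |χ p| ≤ b)
    {Q : Measure ((Fin D → ℤ) → Fin D × Fin L → G)} (hQ : AxGibbs μ χ β Q)
    {V A : Finset (Fin D → ℤ)} {r : ℕ} (hA : ∀ a ∈ A, ∀ y ∉ V, r < dd a y)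
    {F : ((Fin D → ℤ) → Fin D × Fin L → G) → ℝ≥0∞} (hF : Measurable F) (hF1 : ∀ φ, F φ ≤ 1)
    (hFA : ∀ φ φ' : (Fin D → ℤ) → Fin D × Fin L → G, (∀ a ∈ A, φ a = φ' a) → F φ = F φ')
    (ψ : (Fin D → ℤ) → Fin D × Fin L → G) :
    ∫⁻ φ, F φ ∂Q ≤ ev (Measure.pi fun _ : Fin D × Fin L => μ) (axw χ β V) V F ψ +
      err A m C r := by
  have := hQ.prob
  rw [hQ.dlr V F hF]
  calc _ ≤ ∫⁻ φ, (ev (Measure.pi fun _ : Fin D × Fin L => μ) (axw χ β V) V F ψ +
        err A m C r) ∂Q := lintegral_mono fun φ => hI V A r hA F hF hF1 hFA φ ψ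
    _ = _ := by rw [lintegral_const, measure_univ, mul_one]

lemma AxGibbs.ge (hI : AxInfl D L μ χ β m C) (hχm : Measurable χ) {b : ℝ} (hb : ∀ p, |χ p| ≤ b)
    {Q : Measure ((Fin D → ℤ) → Fin D × Fin L → G)} (hQ : AxGibbs μ χ β Q)
    {V A : Finset (Fin D → ℤ)} {r : ℕ} (hA : ∀ a ∈ A, ∀ y ∉ V, r < dd a y)
    {F : ((Fin D → ℤ) → Fin D × Fin L → G) → ℝ≥0∞} (hF : Measurable F) (hF1 : ∀ φ, F φ ≤ 1)
    (hFA : ∀ φ φ' : (Fin D → ℤ) → Fin D × Fin L → G, (∀ a ∈ A, φ a = φ' a) → F φ = F φ')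
    (ψ : (Fin D → ℤ) → Fin D × Fin L → G) :
    ev (Measure.pi fun _ : Fin D × Fin L => μ) (axw χ β V) V F ψ ≤ ∫⁻ φ, F φ ∂Q +
      err A m C r := by
  have := hQ.prob
  have hw := axw_good (D := D) (L := L) hχm hb (Measure.pi fun _ : Fin D × Fin L => μ) β V
  rw [hQ.dlr V F hF]
  calc ev (Measure.pi fun _ : Fin D × Fin L => μ) (axw χ β V) V F ψ =
        ∫⁻ _, ev (Measure.pi fun _ : Fin D × Fin L => μ) (axw χ β V) V F ψ ∂Q := by
        rw [lintegral_const, measure_univ, mul_one]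
    _ ≤ ∫⁻ φ, (ev (Measure.pi fun _ : Fin D × Fin L => μ) (axw χ β V) V F φ + err A m C r) ∂Q :=
        lintegral_mono fun φ => hI V A r hA F hF hF1 hFA ψ φ
    _ = _ := by
        rw [lintegral_add_right _ measurable_const, lintegral_const, measure_univ, mul_one]

end

end Pool.Agent.N986.SL
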