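import Pool.Agent.N990.Slab.Geo
import Pool.Agent.N990.Slab.Mat
import Pool.Agent.N986.SL.Axial

/-!
# Lattice gauge theory in a slab: the energy in the axial gauge
-/

set_option autoImplicit false
set_option linter.unusedSectionVars false
set_option linter.unusedVariables false

open MeasureTheory Matrix Function
open scoped Matrix.Norms.Frobenius ENNReal

namespace Pool.Agent.N986.SL

open Pool.Agent.N986.PB

noncomputable section

variable {N D L : ℕ} {G : Subgroup (N990.UU N)}

/-- the plaquette energy -/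
def chi (p : G) : ℝ := (trace (1 - N990.mt p)).re

lemma trace_ip (A B : G) : (trace (N990.mt A * (N990.mt B)ᴴ)).re = N990.ip (N990.mt B) (N990.mt A) := by
  unfold N990.ip
  rw [trace_mul_comm]

lemma ip_mt_self (A : G) : N990.ip (N990.mt A) (N990.mt A) = N := by
  rw [N990.ip_self, N990.norm_mt_sq]

lemma chi_mul_inv (A B : G) : chi (A * B⁻¹) = 1 / 2 * ‖N990.mt A - N990.mt B‖ ^ 2 := by
  unfold chi
  rw [← N990.ip_self, N990.ip_sub_left, N990.ip_sub_right, N990.ip_sub_right, ip_mt_self,
    ip_mt_self, N990.ip_comm (N990.mt A) (N990.mt B), trace_sub, trace_one, N990.mt_mul,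
    N990.mt_inv, Complex.sub_re, trace_ip]
  simp
  ring

lemma chi_conj (a p : G) : chi (a * p * a⁻¹) = chi p := by
  unfold chi
  rw [trace_sub, trace_sub, N990.mt_mul, N990.mt_mul, N990.mt_inv, trace_mul_comm,
    ← Matrix.mul_assoc, N990.mt_star_mul, Matrix.one_mul]

lemma e_eq (i : Fin D) : e i = N990.ev i := rfl

lemma dens_hx (φ : N990.Site D → N990.Lab D L → G) (x : N990.Site D) :
    dens chi (emb φ) x = N990.hx φ x := by
  unfold dens N990.hx
  simp only [Finset.sum_add_distrib]
  congr 1
  · rw [Finset.mul_sum, Fintype.sum_prod_type, Finset.sum_comm]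
    refine Finset.sum_congr rfl fun i _ => Finset.sum_congr rfl fun s _ => ?_
    have h1 : plaqV (emb φ) x i s = low (emb φ) x i s * (φ x (i, s))⁻¹ := by
      show low (emb φ) x i s * 1 * (φ x (i, s))⁻¹ * (1 : G)⁻¹ = _
      group
    rw [h1, chi_mul_inv, norm_sub_rev]
    congr 3
    unfold N990.dv N990.low N990.Yf low
    by_cases h : (s : ℕ) = 0
    · simp [h]
    · simp only [h, if_false, dif_neg, not_false_eq_true]
      show N990.mt (φ x (i, s)) - N990.mt (φ x (i, ⟨(s : ℕ) - 1, _⟩)) = 
        N990.mt (φ x (i, s)) - 1 - (N990.mt (φ x (i, ⟨(s : ℕ) - 1, _⟩)) - 1)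
      abel
  · rw [Finset.mul_sum, N990.plabs, Finset.sum_filter, Fintype.sum_prod_type,
      Fintype.sum_prod_type, Finset.sum_comm]
    refine Finset.sum_congr rfl fun i _ => ?_
    rw [Finset.sum_comm]
    refine Finset.sum_congr rfl fun j _ => ?_
    refine Finset.sum_congr rfl fun s _ => ?_
    by_cases h : i < j
    · rw [if_pos h, if_pos h]
      have h1 : plaqH (emb φ) x i j s =
          (φ x (i, s) * φ (x + e i) (j, s)) * (φ x (j, s) * φ (x + e j) (i, s))⁻¹ := by
        show φ x (i, s) * φ (x + e i) (j, s) * (φ (x + e j) (i, s))⁻¹ * (φ x (j, s))⁻¹ = _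
        group
      rw [h1, chi_mul_inv]
      rfl
    · rw [if_neg h, if_neg h]

/-- the weight in the axial gauge -/
lemma axw_eq (β : ℝ) (V : Finset (N990.Site D)) (φ : N990.Site D → N990.Lab D L → G) :
    axw chi β V φ = ENNReal.ofReal (Real.exp (-(β * ∑ x ∈ N990.Ns V, N990.hx φ x))) := by
  have h : bs V = N990.Ns V := by
    ext x
    rw [N990.mem_Ns]
    unfold bs
    simp only [Finset.mem_union, Finset.mem_biUnion, Finset.mem_univ, true_and, Finset.mem_image,
      sub_eq_iff_eq_add]
    constructor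
    · rintro (h | ⟨i, a, ha, h⟩)
      · exact Or.inl h
      · refine Or.inr ⟨i, ?_⟩
        show x + e i ∈ V
        rw [← h]
        exact ha
    · rintro (h | ⟨i, h⟩)
      · exact Or.inl h
      · exact Or.inr ⟨i, _, h, rfl⟩
  unfold axw
  rw [h]
  simp only [dens_hx]

end

end Pool.Agent.N986.SL
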