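import Mathlib

/-!
# Left invariant probability measures
-/

set_option autoImplicit false
set_option linter.unusedSectionVars false
set_option linter.unusedVariables false

open MeasureTheory Measure
open scoped ENNReal

namespace Pool.Agent.N986.SL

variable {G : Type*} [Group G] [MeasurableSpace G] [MeasurableMul₂ G] [MeasurableInv G]

/-- a left invariant and a right invariant probability measure coincide -/
lemma left_eq_right (μ ρ : Measure G) [IsProbabilityMeasure μ] [IsProbabilityMeasure ρ]
    [μ.IsMulLeftInvariant] [ρ.IsMulRightInvariant] : ρ = μ := by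
  ext s hs
  have hm : Measurable fun p : G × G => s.indicator (1 : G → ℝ≥0∞) (p.1 * p.2) :=
    (measurable_one.indicator hs).comp (measurable_fst.mul measurable_snd)
  have h1 : ∀ y, ∫⁻ x, s.indicator (1 : G → ℝ≥0∞) (x * y) ∂ρ = ρ s := fun y => by
    rw [lintegral_mul_right_eq_self (μ := ρ) (fun x => s.indicator (1 : G → ℝ≥0∞) x) y,
      lintegral_indicator_one hs]
  have h2 : ∀ x, ∫⁻ y, s.indicator (1 : G → ℝ≥0∞) (x * y) ∂μ = μ s := fun x => by
    rw [lintegral_mul_left_eq_self (μ := μ) (fun x => s.indicator (1 : G → ℝ≥0∞) x) x,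
      lintegral_indicator_one hs]
  calc ρ s = ∫⁻ y, ∫⁻ x, s.indicator (1 : G → ℝ≥0∞) (x * y) ∂ρ ∂μ := by
        simp only [h1, lintegral_const, measure_univ, mul_one]
    _ = ∫⁻ x, ∫⁻ y, s.indicator (1 : G → ℝ≥0∞) (x * y) ∂μ ∂ρ :=
        lintegral_lintegral_swap (hm.comp measurable_swap).aemeasurable
    _ = μ s := by simp only [h2, lintegral_const, measure_univ, mul_one]

lemma inv_eq (μ : Measure G) [IsProbabilityMeasure μ] [μ.IsMulLeftInvariant] : μ.inv = μ := by
  have : IsProbabilityMeasure μ.inv := ⟨by rw [Measure.inv_apply]; simp⟩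
  exact left_eq_right μ μ.inv

lemma inv_invariant (μ : Measure G) [IsProbabilityMeasure μ] [μ.IsMulLeftInvariant] :
    μ.IsInvInvariant := ⟨inv_eq μ⟩

lemma right_invariant (μ : Measure G) [IsProbabilityMeasure μ] [μ.IsMulLeftInvariant] :
    μ.IsMulRightInvariant := by
  have h : μ.inv.IsMulRightInvariant := inferInstance
  rwa [inv_eq μ] at h

end Pool.Agent.N986.SL
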