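import Pool.Agent.N990.Slab.Infl
import Pool.Agent.N986.SL.Bridge
import Pool.Agent.N986.SL.Haar

/-!
# Lattice gauge theory in a slab: lower bound of the mass gap
-/

set_option autoImplicit false
set_option linter.unusedSectionVars false
set_option linter.unusedVariables false

open MeasureTheory Matrix Function
open scoped Matrix.Norms.Frobenius ENNReal

namespace Pool.Agent.N986.SL

open Pool.Agent.N986.PB

noncomputable section

variable {N D L : ℕ} {G : Subgroup (N990.UU N)} [MeasurableSpace G] [BorelSpace G]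

lemma dd_eq {D : ℕ} (x y : N990.Site D) : N990.dd x y = dd x y := rfl

/-- the influence of the boundary condition in the axial gauge decays exponentially -/
theorem axInfl (hG : IsClosed (G : Set (N990.UU N))) (μ : Measure G) [IsProbabilityMeasure μ]
    [μ.IsMulLeftInvariant] {m : ℝ} (hm : 0 ≤ m) (h : 2 * Real.cosh m - 2 < N990.lam0 L) :
    ∃ β₀ ≥ (1 : ℝ), ∀ β ≥ β₀, ∃ C : ℝ, 0 < C ∧ AxInfl D L μ chi β m C := by
  obtain ⟨β₀, hβ₀, h1⟩ := N990.slab_infl (D := D) hG μ hm h
  refine ⟨β₀, hβ₀, fun β hβ => ?_⟩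
  obtain ⟨C, hC, h2⟩ := h1 β hβ
  refine ⟨C, hC, fun V A r hA f hf hf1 hfA ψ ψ' => ?_⟩
  have h3 := h2 V A r hA f hf hf1 hfA ψ ψ'
  have e : (axw chi β V : (N990.Site D → N990.Lab D L → G) → ℝ≥0∞) = N990.wS β V := by
    funext φ
    rw [axw_eq]
    rfl
  rw [e]
  convert h3

lemma chi_cont : Continuous (chi : G → ℝ) := by
  unfold chi
  have h1 : Continuous fun p : G => N990.mt p := continuous_subtype_val.comp continuous_subtype_val
  have h2 : Continuous fun A : N990.Mt N => (trace (1 - A)).re :=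
    Complex.continuous_re.comp ((continuous_const.sub continuous_id).matrix_trace)
  exact h2.comp h1

lemma chi_inv (p : G) : chi p⁻¹ = chi p := by
  unfold chi
  rw [trace_sub, trace_sub, N990.mt_inv, trace_conjTranspose]
  simp

/-- **The theory in the slab**: existence and uniqueness of the infinite volume measure, decay of
the influence of the boundary condition, exponential clustering. -/
theorem lower (hG : IsClosed (G : Set (N990.UU N))) (μ : Measure G) [IsProbabilityMeasure μ]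
    [μ.IsMulLeftInvariant] {m : ℝ} (hm : 0 < m) (h : 2 * Real.cosh m - 2 < N990.lam0 L) :
    ∃ β₀ ≥ (1 : ℝ), ∀ β ≥ β₀, ∃ C : ℝ, 0 < C ∧ ∃ P : Measure (Link D L → G), Dlr μ chi β P ∧
    (∀ P' : Measure (Link D L → G), Dlr μ chi β P' → P' = P) ∧
    (∀ (V A : Finset (Fin D → ℤ)) (r : ℕ), (∀ a ∈ A, ∀ y ∉ V, r ≤ dd a y) →
      ∀ F : (Link D L → G) → ℝ, Measurable F → (∀ U, |F U| ≤ 1) →
      (∀ U U' : Link D L → G, (∀ l : Link D L, l.1 ∈ A → U l = U' l) → F U = F U') →
      ∀ U : Link D L → G, |expect μ chi β (cols L V) U F - ∫ U, F U ∂P| ≤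
        C * A.card * Real.exp (-(m * r))) ∧
    ∀ (A B : Finset (Fin D → ℤ)) (r : ℕ), (∀ a ∈ A, ∀ y ∈ B, r ≤ dd a y) →
      ∀ F F' : (Link D L → G) → ℝ, Measurable F → Measurable F' → (∀ U, |F U| ≤ 1) →
      (∀ U, |F' U| ≤ 1) →
      (∀ U U' : Link D L → G, (∀ l : Link D L, l.1 ∈ A → U l = U' l) → F U = F U') →
      (∀ U U' : Link D L → G, (∀ l : Link D L, l.1 ∈ B → U l = U' l) → F' U = F' U') →
      |∫ U, F' U * F U ∂P - (∫ U, F' U ∂P) * ∫ U, F U ∂P| ≤
        C * A.card * Real.exp (-(m * r)) := by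
  have : CompactSpace G := isCompact_iff_compactSpace.1 hG.isCompact
  have : SecondCountableTopology (N990.UU N) := TopologicalSpace.Subtype.secondCountableTopology _
  have : SecondCountableTopology G := TopologicalSpace.Subtype.secondCountableTopology _
  have : μ.IsMulRightInvariant := right_invariant μ
  obtain ⟨β₀, hβ₀, h1⟩ := axInfl (D := D) (L := L) hG μ hm.le h
  refine ⟨β₀, hβ₀, fun β hβ => ?_⟩
  obtain ⟨C, hC, hI⟩ := h1 β hβ
  obtain ⟨P, h2, h3, h4, h5⟩ := main hI hC.le hm chi_cont chi_conj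
  exact ⟨8 * C * Real.exp m + 2 * Real.exp (2 * m), by positivity, P, h2, h3, h4, h5⟩

end

end Pool.Agent.N986.SL
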