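import Pool.Agent.N986.SL.Axial

/-!
# Lattice gauge theory in a slab: reflections and translations
-/

set_option autoImplicit false
set_option linter.unusedSectionVars false
set_option linter.unusedVariables false

open MeasureTheory Finset Function Filter Topology
open scoped ENNReal NNReal

namespace Pool.Agent.N986.SL

open Pool.Agent.N986.PB

noncomputable section

variable {D L : ℕ} {G : Type*} [Group G]

/-- The reflection of the coordinate `i`. -/
def th (i : Fin D) (x : Fin D → ℤ) : Fin D → ℤ := Function.update x i (-x i)

/-- The reflected field: the links in the direction `i` are inverted. -/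
def refl (i : Fin D) (U : Link D L → G) : Link D L → G := fun l =>
  if l.2.1 = some i then (U (th i l.1 - e i, l.2))⁻¹ else U (th i l.1, l.2)

/-- The translated field. -/
def shift (v : Fin D → ℤ) (U : Link D L → G) : Link D L → G := fun l => U (l.1 + v, l.2)

/-- `F` depends only on the links of the columns in `A`. -/
def Loc (A : Finset (Fin D → ℤ)) (F : (Link D L → G) → ℝ) : Prop :=
  ∀ U U' : Link D L → G, (∀ l : Link D L, l.1 ∈ A → U l = U' l) → F U = F U'

/-- `F` is a bounded measurable local observable of the half space `0 ≤ x i`. -/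
structure Half [MeasurableSpace G] (i : Fin D) (F : (Link D L → G) → ℝ) : Prop where
  meas : Measurable F
  bdd : ∃ c, ∀ U, |F U| ≤ c
  loc : ∃ A : Finset (Fin D → ℤ), (∀ x ∈ A, 0 ≤ x i) ∧ Loc A F

/-- The truncated correlation of the reflection of `F` and the translate of `F` by `n` steps. -/
def corr [MeasurableSpace G] (i : Fin D) (P : Measure (Link D L → G))
    (F : (Link D L → G) → ℝ) (n : ℕ) : ℝ :=
  ∫ U, F (refl i U) * F (shift (n • e i) U) ∂P - (∫ U, F U ∂P) ^ 2

lemma th_th (i : Fin D) (x : Fin D → ℤ) : th i (th i x) = x := by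
  unfold th
  funext j
  by_cases h : j = i
  · subst h; simp
  · simp [h]

lemma th_apply_self (i : Fin D) (x : Fin D → ℤ) : th i x i = -x i := by simp [th]

lemma th_apply_ne (i : Fin D) (x : Fin D → ℤ) {j : Fin D} (h : j ≠ i) : th i x j = x j := by
  simp [th, h]

lemma e_apply (i j : Fin D) : (e i : Fin D → ℤ) j = if j = i then 1 else 0 := by
  unfold e
  rw [Pi.single_apply]

lemma th_add_e_ne (i : Fin D) (x : Fin D → ℤ) {j : Fin D} (h : j ≠ i) :
    th i (x + e j) = th i x + e j := by
  funext k
  by_cases hk : k = i
  · subst hk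
    rw [th_apply_self, Pi.add_apply, Pi.add_apply, th_apply_self, e_apply, if_neg (Ne.symm h)]
    ring
  · rw [th_apply_ne i _ hk, Pi.add_apply, Pi.add_apply, th_apply_ne i _ hk]

lemma th_add_e_self (i : Fin D) (x : Fin D → ℤ) : th i (x + e i) = th i x - e i := by
  funext k
  by_cases hk : k = i
  · subst hk
    rw [th_apply_self, Pi.add_apply, Pi.sub_apply, th_apply_self, e_apply, if_pos rfl]
    ring
  · rw [th_apply_ne i _ hk, Pi.add_apply, Pi.sub_apply, th_apply_ne i _ hk, e_apply, if_neg hk]
    ring

lemma refl_none (i : Fin D) (U : Link D L → G) (x : Fin D → ℤ) (s : Fin L) :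
    refl i U (x, none, s) = U (th i x, none, s) := by simp [refl]

lemma refl_self (i : Fin D) (U : Link D L → G) (x : Fin D → ℤ) (s : Fin L) :
    refl i U (x, some i, s) = (U (th i x - e i, some i, s))⁻¹ := by simp [refl]

lemma refl_ne (i : Fin D) (U : Link D L → G) (x : Fin D → ℤ) {j : Fin D} (h : j ≠ i)
    (s : Fin L) : refl i U (x, some j, s) = U (th i x, some j, s) := by simp [refl, h]

lemma refl_refl (i : Fin D) (U : Link D L → G) : refl i (refl i U) = U := by
  funext ⟨x, o, s⟩
  cases o with
  | none => rw [refl_none, refl_none, th_th]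
  | some j =>
    by_cases h : j = i
    · subst h
      rw [refl_self, refl_self, inv_inv]
      congr 2
      rw [show th j (th j x - e j) = x + e j from ?_, add_sub_cancel_right]
      rw [← th_add_e_self, th_th]
    · rw [refl_ne i _ _ h, refl_ne i _ _ h, th_th]

lemma low_refl_ne (i : Fin D) (U : Link D L → G) (x : Fin D → ℤ) {j : Fin D} (h : j ≠ i)
    (s : Fin L) : low (refl i U) x j s = low U (th i x) j s := by
  unfold low
  by_cases hs : (s : ℕ) = 0
  · rw [if_pos hs, if_pos hs]
  · rw [if_neg hs, if_neg hs, refl_ne i _ _ h]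

lemma low_refl_self (i : Fin D) (U : Link D L → G) (x : Fin D → ℤ) (s : Fin L) :
    low (refl i U) x i s = (low U (th i x - e i) i s)⁻¹ := by
  unfold low
  by_cases hs : (s : ℕ) = 0
  · rw [if_pos hs, if_pos hs, inv_one]
  · rw [if_neg hs, if_neg hs, refl_self]

/-- Labels of the plaquettes based in a column: `(s, i, none)` is the vertical plaquette in the
direction `i`, `(s, i, some j)` is the horizontal plaquette in the directions `i < j`. -/
abbrev PL (D L : ℕ) := Fin L × Fin D × Option (Fin D)

/-- The energy of a plaquette. -/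
def pe (χ : G → ℝ) (U : Link D L → G) (x : Fin D → ℤ) : PL D L → ℝ
  | (s, i, none) => χ (plaqV U x i s)
  | (s, i, some j) => if i < j then χ (plaqH U x i j s) else 0

lemma dens_eq_pe (χ : G → ℝ) (U : Link D L → G) (x : Fin D → ℤ) :
    dens χ U x = ∑ p : PL D L, pe χ U x p := by
  unfold dens
  rw [Fintype.sum_prod_type]
  refine Finset.sum_congr rfl fun s _ => ?_
  rw [Fintype.sum_prod_type]
  refine Finset.sum_congr rfl fun i _ => ?_
  rw [Fintype.sum_option]
  rfl

/-- The plaquette contains links in the direction `i`. -/
def fl (i : Fin D) (p : PL D L) : Prop := p.2.1 = i ∨ p.2.2 = some i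

instance (i : Fin D) (p : PL D L) : Decidable (fl i p) := by unfold fl; infer_instance

/-- The base point of the reflected plaquette. -/
def rb (i : Fin D) (x : Fin D → ℤ) (p : PL D L) : Fin D → ℤ :=
  if fl i p then th i x - e i else th i x

lemma rb_rb (i : Fin D) (x : Fin D → ℤ) (p : PL D L) : rb i (rb i x p) p = x := by
  unfold rb
  by_cases h : fl i p
  · rw [if_pos h, if_pos h, ← th_add_e_self, sub_add_cancel, th_th]
  · rw [if_neg h, if_neg h, th_th]

section sym

variable {χ : G → ℝ} (hχ : ∀ a p : G, χ (a * p * a⁻¹) = χ p) (hχ' : ∀ p : G, χ p⁻¹ = χ p)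
include hχ hχ'

/-- The reflection maps plaquettes to plaquettes. -/
lemma pe_refl (i : Fin D) (U : Link D L → G) (x : Fin D → ℤ) (p : PL D L) :
    pe χ (refl i U) x p = pe χ U (rb i x p) p := by
  rcases p with ⟨s, j, o⟩
  cases o with
  | none =>
    by_cases h : j = i
    · subst h
      have hf : fl j ((s, j, none) : PL D L) := Or.inl rfl
      rw [rb, if_pos hf]
      show χ (plaqV (refl j U) x j s) = χ (plaqV U (th j x - e j) j s)
      obtain ⟨y, hy⟩ : ∃ y, y = th j x - e j := ⟨_, rfl⟩
      have hy' : th j x = y + e j := by rw [hy, sub_add_cancel]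
      have h1 : plaqV (refl j U) x j s =
          (low U y j s)⁻¹ * (plaqV U y j s)⁻¹ * ((low U y j s)⁻¹)⁻¹ := by
        unfold plaqV
        rw [low_refl_self, refl_none, refl_none, refl_self, th_add_e_self, ← hy, hy']
        group
      rw [h1, hχ, hχ', ← hy]
    · have hf : ¬ fl i ((s, j, none) : PL D L) := by
        rintro (h1 | h1)
        · exact h h1
        · simp at h1
      rw [rb, if_neg hf]
      show χ (plaqV (refl i U) x j s) = χ (plaqV U (th i x) j s)
      unfold plaqV
      rw [low_refl_ne i U x h, refl_none, refl_none, refl_ne i U x h, th_add_e_ne i x h]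
  | some k =>
    show (if j < k then χ (plaqH (refl i U) x j k s) else 0) =
      if j < k then χ (plaqH U (rb i x (s, j, some k)) j k s) else 0
    by_cases hjk : j < k
    · rw [if_pos hjk, if_pos hjk]
      by_cases h : j = i
      · subst h
        have hk : k ≠ j := hjk.ne'
        have hf : fl j ((s, j, some k) : PL D L) := Or.inl rfl
        rw [rb, if_pos hf]
        obtain ⟨y, hy⟩ : ∃ y, y = th j x - e j := ⟨_, rfl⟩
        have hy' : th j x = y + e j := by rw [hy, sub_add_cancel]
        have h1 : plaqH (refl j U) x j k s =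
            (U (y, some j, s))⁻¹ * (plaqH U y j k s)⁻¹ * ((U (y, some j, s))⁻¹)⁻¹ := by
          unfold plaqH
          rw [refl_self, refl_ne j _ _ hk, refl_self, refl_ne j _ _ hk, th_add_e_self,
            th_add_e_ne j x hk, ← hy, hy']
          rw [show y + e j + e k - e j = y + e k by abel]
          group
        rw [h1, hχ, hχ', ← hy]
      · by_cases h' : k = i
        · subst h'
          have hf : fl k ((s, j, some k) : PL D L) := Or.inr rfl
          rw [rb, if_pos hf]
          obtain ⟨y, hy⟩ : ∃ y, y = th k x - e k := ⟨_, rfl⟩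
          have hy' : th k x = y + e k := by rw [hy, sub_add_cancel]
          have h1 : plaqH (refl k U) x j k s =
              (U (y, some k, s))⁻¹ * (plaqH U y j k s)⁻¹ * ((U (y, some k, s))⁻¹)⁻¹ := by
            unfold plaqH
            rw [refl_ne k _ _ h, refl_self, refl_ne k _ _ h, refl_self, th_add_e_self,
              th_add_e_ne k x h, ← hy, hy']
            rw [show y + e k + e j - e k = y + e j by abel]
            group
          rw [h1, hχ, hχ', ← hy]
        · have hf : ¬ fl i ((s, j, some k) : PL D L) := by
            rintro (h1 | h1)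
            · exact h h1
            · exact h' (by simpa using h1)
          rw [rb, if_neg hf]
          unfold plaqH
          rw [refl_ne i _ _ h, refl_ne i _ _ h', refl_ne i _ _ h, refl_ne i _ _ h',
            th_add_e_ne i x h, th_add_e_ne i x h']
    · rw [if_neg hjk, if_neg hjk]

end sym

lemma pe_shift (χ : G → ℝ) (v : Fin D → ℤ) (U : Link D L → G) (x : Fin D → ℤ) (p : PL D L) :
    pe χ (shift v U) x p = pe χ U (x + v) p := by
  have h0 : ∀ y o s, shift v U (y, o, s) = U (y + v, o, s) := fun y o s => rfl
  have h1 : ∀ y j s, low (shift v U) y j s = low U (y + v) j s := fun y j s => rfl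
  rcases p with ⟨s, j, o⟩
  cases o with
  | none =>
    show χ (plaqV (shift v U) x j s) = χ (plaqV U (x + v) j s)
    unfold plaqV
    rw [h0, h0, h0, h1, add_right_comm x (e j) v]
  | some k =>
    show (if j < k then χ (plaqH (shift v U) x j k s) else 0) =
      if j < k then χ (plaqH U (x + v) j k s) else 0
    unfold plaqH
    rw [h0, h0, h0, h0, add_right_comm x (e j) v, add_right_comm x (e k) v]

section meas

variable [MeasurableSpace G] [MeasurableInv G]

lemma refl_meas (i : Fin D) : Measurable (refl i : (Link D L → G) → Link D L → G) := by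
  refine measurable_pi_lambda _ fun l => ?_
  unfold refl
  by_cases h : l.2.1 = some i
  · simp only [h, if_true]; exact (measurable_pi_apply _).inv
  · simp only [h, if_false]; exact measurable_pi_apply _

omit [MeasurableInv G] in
lemma shift_meas (v : Fin D → ℤ) : Measurable (shift v : (Link D L → G) → Link D L → G) :=
  measurable_pi_lambda _ fun l => measurable_pi_apply _

end meas

end

end Pool.Agent.N986.SL
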