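import Pool.Agent.N986.SL.RP2

/-!
# Lattice gauge theory in a slab: the form of the complex observables of the half space
-/

set_option autoImplicit false
set_option linter.unusedSectionVars false
set_option linter.unusedVariables false

open MeasureTheory Finset Function Filter Topology
open scoped ENNReal NNReal ComplexConjugate

namespace Pool.Agent.N986.SL

open Pool.Agent.N986.PB

noncomputable section

variable {D L : ℕ} {G : Type*} [Group G]

/-- Complex observables of the half space `0 ≤ x i`: bounded measurable functions of finitely many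
link variables. -/
structure IsObs [MeasurableSpace G] (i : Fin D) (F : (Link D L → G) → ℂ) : Prop where
  meas : Measurable F
  bdd : ∃ c : ℝ, ∀ U, ‖F U‖ ≤ c
  loc : ∃ A : Finset (Fin D → ℤ), (∀ x ∈ A, 0 ≤ x i) ∧
    ∀ U U' : Link D L → G, (∀ l : Link D L, l.1 ∈ A → U l = U' l) → F U = F U'

section obs

variable [MeasurableSpace G] {i : Fin D}

lemma IsObs.re {F : (Link D L → G) → ℂ} (h : IsObs i F) : Half i fun U => (F U).re := by
  obtain ⟨c, hc⟩ := h.bdd
  obtain ⟨A, hA, hL⟩ := h.loc
  exact ⟨Complex.measurable_re.comp h.meas, ⟨c, fun U => (Complex.abs_re_le_norm _).trans (hc U)⟩,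
    A, hA, fun U U' hU => by
      show (F U).re = (F U').re
      rw [hL U U' hU]⟩

lemma IsObs.im {F : (Link D L → G) → ℂ} (h : IsObs i F) : Half i fun U => (F U).im := by
  obtain ⟨c, hc⟩ := h.bdd
  obtain ⟨A, hA, hL⟩ := h.loc
  exact ⟨Complex.measurable_im.comp h.meas, ⟨c, fun U => (Complex.abs_im_le_norm _).trans (hc U)⟩,
    A, hA, fun U U' hU => by
      show (F U).im = (F U').im
      rw [hL U U' hU]⟩

lemma IsObs.const (i : Fin D) (c : ℂ) : IsObs i (fun _ : Link D L → G => c) :=
  ⟨measurable_const, ⟨‖c‖, fun _ => le_rfl⟩, ∅, by simp, fun _ _ _ => rfl⟩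

lemma IsObs.add {F F' : (Link D L → G) → ℂ} (h : IsObs i F) (h' : IsObs i F') :
    IsObs i (fun U => F U + F' U) := by
  obtain ⟨c, hc⟩ := h.bdd
  obtain ⟨c', hc'⟩ := h'.bdd
  obtain ⟨A, hA, hL⟩ := h.loc
  obtain ⟨A', hA', hL'⟩ := h'.loc
  refine ⟨h.meas.add h'.meas, ⟨c + c', fun U => (norm_add_le _ _).trans (add_le_add (hc U) (hc' U))⟩,
    A ∪ A', fun x hx => ?_, fun U U' hU => ?_⟩
  · rcases Finset.mem_union.1 hx with hx | hx
    · exact hA x hx
    · exact hA' x hx
  · show F U + F' U = F U' + F' U'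
    rw [hL U U' fun l hl => hU l (Finset.mem_union_left _ hl),
      hL' U U' fun l hl => hU l (Finset.mem_union_right _ hl)]

lemma IsObs.smul {F : (Link D L → G) → ℂ} (h : IsObs i F) (a : ℂ) :
    IsObs i (fun U => a * F U) := by
  obtain ⟨c, hc⟩ := h.bdd
  obtain ⟨A, hA, hL⟩ := h.loc
  refine ⟨h.meas.const_mul a, ⟨‖a‖ * c, fun U => ?_⟩, A, hA, fun U U' hU => ?_⟩
  · rw [norm_mul]
    exact mul_le_mul_of_nonneg_left (hc U) (norm_nonneg _)
  · show a * F U = a * F U'
    rw [hL U U' hU]

lemma IsObs.shift {F : (Link D L → G) → ℂ} (h : IsObs i F) {v : Fin D → ℤ}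
    (hv : 0 ≤ v i) : IsObs i (fun U => F (SL.shift v U)) := by
  obtain ⟨c, hc⟩ := h.bdd
  obtain ⟨A, hA, hL⟩ := h.loc
  refine ⟨h.meas.comp (shift_meas v), ⟨c, fun U => hc _⟩, A.image fun x => x + v, fun x hx => ?_,
    fun U U' hU => hL _ _ fun l hl => hU _ (Finset.mem_image.2 ⟨l.1, hl, rfl⟩)⟩
  obtain ⟨y, hy, rfl⟩ := Finset.mem_image.1 hx
  have := hA y hy
  rw [Pi.add_apply]
  omega

lemma Half.obs {F : (Link D L → G) → ℝ} (h : Half i F) : IsObs i fun U => (F U : ℂ) := by
  obtain ⟨c, hc⟩ := h.bdd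
  obtain ⟨A, hA, hL⟩ := h.loc
  exact ⟨Complex.measurable_ofReal.comp h.meas, ⟨c, fun U => by
    rw [Complex.norm_real]; exact hc U⟩, A, hA, fun U U' hU => by
      show ((F U : ℝ) : ℂ) = F U'
      rw [hL U U' hU]⟩

/-- The vector space of the observables of the half space. -/
def ObsSpace (G : Type*) [Group G] [MeasurableSpace G] (D L : ℕ) (i : Fin D) :
    Submodule ℂ ((Link D L → G) → ℂ) where
  carrier := {F | IsObs i F}
  zero_mem' := IsObs.const i 0
  add_mem' := fun h h' => h.add h'
  smul_mem' := fun c _ h => h.smul c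

/-- The translation of the observables by one lattice unit. -/
def tau (G : Type*) [Group G] [MeasurableSpace G] (D L : ℕ) (i : Fin D) :
    ObsSpace G D L i →ₗ[ℂ] ObsSpace G D L i where
  toFun := fun F => ⟨fun U => F.1 (SL.shift (e i) U), F.2.shift (by rw [e_apply, if_pos rfl]; omega)⟩
  map_add' := fun _ _ => rfl
  map_smul' := fun _ _ => rfl

/-- The form. -/
def form (i : Fin D) (P : Measure (Link D L → G)) (F F' : ObsSpace G D L i) : ℂ :=
  ∫ U, conj (F.1 (refl i U)) * F'.1 U ∂P

lemma shift_shift (v w : Fin D → ℤ) (U : Link D L → G) :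
    SL.shift v (SL.shift w U) = SL.shift (v + w) U := by
  funext l
  show U (l.1 + v + w, l.2) = U (l.1 + (v + w), l.2)
  rw [add_assoc]

lemma shift_zero (U : Link D L → G) : SL.shift 0 U = U := by
  funext l
  show U (l.1 + 0, l.2) = U l
  rw [add_zero]

lemma tau_iter (F : ObsSpace G D L i) (n : ℕ) (U : Link D L → G) :
    ((tau G D L i)^[n] F).1 U = F.1 (SL.shift (n • e i) U) := by
  induction n generalizing U with
  | zero => rw [zero_smul, shift_zero]; rfl
  | succ n ih =>
    rw [Function.iterate_succ_apply']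
    show ((tau G D L i)^[n] F).1 (SL.shift (e i) U) = _
    rw [ih, shift_shift, succ_nsmul]

end obs

section ctx

variable [TopologicalSpace G] [IsTopologicalGroup G]
  [CompactSpace G] [T2Space G] [SecondCountableTopology G] [MeasurableSpace G] [BorelSpace G]
  {μ : Measure G} [IsProbabilityMeasure μ] [μ.IsMulLeftInvariant] [μ.IsMulRightInvariant]
  [μ.IsInvInvariant] {χ : G → ℝ} {β m C : ℝ}
  (hI : AxInfl D L μ χ β m C) (hC : 0 ≤ C) (hm : 0 < m) (hχ : Continuous χ)
  (hχi : ∀ a p : G, χ (a * p * a⁻¹) = χ p) (hχ' : ∀ p : G, χ p⁻¹ = χ p)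
  {P : Measure (Link D L → G)} (hP : IsGibbs μ χ β Set.univ P)
include hI hC hm hχ hχi hχ' hP

/-- clustering of real observables of the half space -/
lemma pair_cluster (i : Fin D) {F F' : (Link D L → G) → ℝ} (hF : Half i F) (hF' : Half i F') :
    ∃ K : ℝ, 0 ≤ K ∧ ∀ n : ℕ, |∫ U, F (refl i U) * F' (shift (n • e i) U) ∂P -
      (∫ U, F U ∂P) * ∫ U, F' U ∂P| ≤ K * Real.exp (-(m * n)) := by
  have := hP.prob
  obtain ⟨c, hc⟩ := hF.bdd
  obtain ⟨c', hc'⟩ := hF'.bdd
  obtain ⟨A, hA, hL⟩ := hF.loc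
  obtain ⟨A', hA', hL'⟩ := hF'.loc
  obtain ⟨q, hq⟩ : ∃ q, q = |c| + 1 := ⟨_, rfl⟩
  obtain ⟨q', hq'⟩ : ∃ q', q' = |c'| + 1 := ⟨_, rfl⟩
  have hq0 : 0 < q := by rw [hq]; positivity
  have hq0' : 0 < q' := by rw [hq']; positivity
  have b1 : ∀ U, |F U / q| ≤ 1 := fun U => by
    rw [abs_div, abs_of_pos hq0, div_le_one hq0, hq]
    have := hc U
    have := le_abs_self c
    linarith
  have b2 : ∀ U, |F' U / q'| ≤ 1 := fun U => by
    rw [abs_div, abs_of_pos hq0', div_le_one hq0', hq']
    have := hc' U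
    have := le_abs_self c'
    linarith
  refine ⟨q * q' * ((8 * C * Real.exp m + 2 * Real.exp (2 * m)) * (A'.card)), by positivity,
    fun n => ?_⟩
  have h1 := cluster_real hI hC hm hχ hχi hP (A := A'.image fun x => x + n • e i) (B := Ar i A)
    (r := n) (fun a ha y hy => ?_) (F := fun U => F' (shift (n • e i) U) / q')
    (F' := fun U => F (refl i U) / q) ((hF'.meas.comp (shift_meas _)).div_const _)
    ((hF.meas.comp (refl_meas i)).div_const _) (fun U => b2 _) (fun U => b1 _)
    (fun U U' hU => ?_) (fun U U' hU => ?_)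
  · have e1 : ∫ U, F (refl i U) / q * (F' (shift (n • e i) U) / q') ∂P =
        (∫ U, F (refl i U) * F' (shift (n • e i) U) ∂P) / (q * q') := by
      rw [← integral_div]
      refine integral_congr_ae (Eventually.of_forall fun U => ?_)
      show F (refl i U) / q * (F' (shift (n • e i) U) / q') = _
      rw [div_mul_div_comm]
    have e2 : ∫ U, F (refl i U) / q ∂P = (∫ U, F U ∂P) / q := by
      rw [integral_div, int_refl hI hC hm hχ hχi hχ' hP i F]
    have e3 : ∫ U, F' (shift (n • e i) U) / q' ∂P = (∫ U, F' U ∂P) / q' := by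
      rw [integral_div, int_shift hI hC hm hχ hχi hχ' hP (n • e i) F']
    rw [e1, e2, e3, div_mul_div_comm, ← sub_div, abs_div, abs_of_pos (mul_pos hq0 hq0'),
      div_le_iff₀ (mul_pos hq0 hq0')] at h1
    refine h1.trans ?_
    have hcard : ((A'.image fun x => x + n • e i).card : ℝ) ≤ A'.card := by
      exact_mod_cast Finset.card_image_le
    calc _ ≤ (8 * C * Real.exp m + 2 * Real.exp (2 * m)) * (A'.card) * Real.exp (-(m * n)) *
          (q * q') := by gcongr
      _ = _ := by ring
  · obtain ⟨x, hx, rfl⟩ := Finset.mem_image.1 ha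
    have h2 := hA' x hx
    have h3 : y i ≤ 0 := by
      unfold Ar at hy
      rcases Finset.mem_union.1 hy with hy | hy
      · obtain ⟨z, hz, rfl⟩ := Finset.mem_image.1 hy
        have := hA z hz
        rw [th_apply_self]
        omega
      · obtain ⟨z, hz, rfl⟩ := Finset.mem_image.1 hy
        have := hA z hz
        rw [Pi.sub_apply, th_apply_self, e_apply, if_pos rfl]
        omega
    have h5 : (x + n • e i) i = x i + n := by
      rw [Pi.add_apply, Pi.smul_apply, e_apply, if_pos rfl, nsmul_eq_mul, mul_one]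
    have h4 := (dd_le.1 (le_refl (dd (x + n • e i) y))) i
    rw [h5] at h4
    omega
  · have := loc_shift hL' (n • e i) U U' hU
    exact congrArg (· / q') this
  · have := loc_refl hL i U U' hU
    exact congrArg (· / q) this

variable (i : Fin D)

omit hI hC hm hχ hχi hχ' in
lemma obs_int {F F' : (Link D L → G) → ℂ} (hF : IsObs i F) (hF' : IsObs i F') :
    Integrable (fun U => conj (F (refl i U)) * F' U) P := by
  have := hP.prob
  obtain ⟨c, hc⟩ := hF.bdd
  obtain ⟨c', hc'⟩ := hF'.bdd
  have hm1 : Measurable fun U : Link D L → G => conj (F (refl i U)) :=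
    Complex.continuous_conj.measurable.comp (hF.meas.comp (refl_meas i))
  refine Integrable.of_bound (C := |c| * |c'|) (hm1.mul hF'.meas).aestronglyMeasurable ?_
  refine Eventually.of_forall fun U => ?_
  rw [norm_mul, RCLike.norm_conj]
  exact mul_le_mul ((hc _).trans (le_abs_self _)) ((hc' _).trans (le_abs_self _)) (norm_nonneg _)
    (abs_nonneg _)

omit hI hC hm hχ hχi hχ' in
lemma form_add (F F' F'' : ObsSpace G D L i) :
    form i P F (F' + F'') = form i P F F' + form i P F F'' := by
  unfold form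
  rw [← integral_add (obs_int hP i F.2 F'.2) (obs_int hP i F.2 F''.2)]
  refine integral_congr_ae (Eventually.of_forall fun U => ?_)
  show conj (F.1 (refl i U)) * (F'.1 U + F''.1 U) = _
  ring

omit hI hC hm hχ hχi hχ' hP in
lemma form_smul (a : ℂ) (F F' : ObsSpace G D L i) :
    form i P F (a • F') = a * form i P F F' := by
  unfold form
  rw [← integral_const_mul]
  refine integral_congr_ae (Eventually.of_forall fun U => ?_)
  show conj (F.1 (refl i U)) * (a * F'.1 U) = _
  ring

lemma int_refl' (F : (Link D L → G) → ℂ) : ∫ U, F (refl i U) ∂P = ∫ U, F U ∂P := by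
  have h := mp_refl hI hC hm hχ hχi hχ' hP i
  have he : MeasurableEmbedding (refl i : (Link D L → G) → Link D L → G) :=
    (MeasurableEquiv.mk ⟨refl i, refl i, refl_refl i, refl_refl i⟩ (refl_meas i)
      (refl_meas i)).measurableEmbedding
  exact h.integral_comp he F

lemma int_shift' (v : Fin D → ℤ) (F : (Link D L → G) → ℂ) :
    ∫ U, F (shift v U) ∂P = ∫ U, F U ∂P := by
  have h := mp_shift hI hC hm hχ hχi hχ' hP v
  have he : MeasurableEmbedding (shift v : (Link D L → G) → Link D L → G) :=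
    (MeasurableEquiv.mk ⟨shift v, shift (-v), fun U => by
        funext l; show U (l.1 + -v + v, l.2) = U l; rw [neg_add_cancel_right],
      fun U => by funext l; show U (l.1 + v + -v, l.2) = U l; rw [add_neg_cancel_right]⟩
      (shift_meas v) (shift_meas (-v))).measurableEmbedding
  exact h.integral_comp he F

/-- the form is hermitian -/
lemma form_conj (F F' : ObsSpace G D L i) : form i P F F' = conj (form i P F' F) := by
  unfold form
  rw [← integral_conj, ← int_refl' hI hC hm hχ hχi hχ' hP i]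
  refine integral_congr_ae (Eventually.of_forall fun U => ?_)
  show conj (F.1 (refl i (refl i U))) * F'.1 (refl i U) = conj (conj (F'.1 (refl i U)) * F.1 U)
  rw [refl_refl, map_mul, Complex.conj_conj, mul_comm]

/-- the form is positive -/
lemma form_nonneg (F : ObsSpace G D L i) : 0 ≤ (form i P F F).re := by
  have h1 := rp hI hC hm hχ hχi hχ' hP i F.2.re
  have h2 := rp hI hC hm hχ hχi hχ' hP i F.2.im
  have hint := obs_int hP i F.2 F.2
  have e1 : (form i P F F).re = ∫ U, ((F.1 (refl i U)).re * (F.1 U).re +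
      (F.1 (refl i U)).im * (F.1 U).im) ∂P := by
    unfold form
    have h3 : (∫ U, conj (F.1 (refl i U)) * F.1 U ∂P).re =
        ∫ U, (conj (F.1 (refl i U)) * F.1 U).re ∂P := by
      have := integral_re (𝕜 := ℂ) hint
      simpa using this.symm
    rw [h3]
    refine integral_congr_ae (Eventually.of_forall fun U => ?_)
    show (conj (F.1 (refl i U)) * F.1 U).re = _
    rw [Complex.mul_re, Complex.conj_re, Complex.conj_im]
    ring
  have := hP.prob
  have i1 : ∀ {f : (Link D L → G) → ℝ}, Half i f → Integrable (fun U => f (refl i U) * f U) P := by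
    intro f hf
    obtain ⟨c, hc⟩ := hf.bdd
    refine Integrable.of_bound (C := |c| * |c|)
      ((hf.meas.comp (refl_meas i)).mul hf.meas).aestronglyMeasurable ?_
    refine Eventually.of_forall fun U => ?_
    rw [Real.norm_eq_abs, abs_mul]
    exact mul_le_mul ((hc _).trans (le_abs_self _)) ((hc _).trans (le_abs_self _)) (abs_nonneg _)
      (abs_nonneg _)
  rw [e1, integral_add (i1 F.2.re) (i1 F.2.im)]
  exact add_nonneg h1 h2

/-- translations are symmetric -/
lemma form_tau (F F' : ObsSpace G D L i) :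
    form i P (tau G D L i F) F' = form i P F (tau G D L i F') := by
  unfold form
  rw [← int_shift' hI hC hm hχ hχi hχ' hP (e i)]
  refine integral_congr_ae (Eventually.of_forall fun U => ?_)
  show conj (F.1 (shift (e i) (refl i (shift (e i) U)))) * F'.1 (shift (e i) U) =
    conj (F.1 (refl i U)) * F'.1 (shift (e i) U)
  have h1 := shift_refl i 1 (shift (e i) U)
  rw [one_smul] at h1
  rw [h1, shift_neg hI hC hm hχ hχi hχ' hP]

omit hI hC hm hχ hχi hχ' in
lemma form_bdd (F : ObsSpace G D L i) : ∃ K : ℝ, ∀ n : ℕ,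
    ‖form i P F ((tau G D L i)^[n] F)‖ ≤ K := by
  have := hP.prob
  obtain ⟨c, hc⟩ := F.2.bdd
  refine ⟨|c| * |c|, fun n => ?_⟩
  unfold form
  have h1 := norm_integral_le_of_norm_le_const (μ := P) (C := |c| * |c|)
    (f := fun U => conj (F.1 (refl i U)) * ((tau G D L i)^[n] F).1 U)
    (Eventually.of_forall fun U => ?_)
  · simpa using h1
  · rw [norm_mul, RCLike.norm_conj, tau_iter]
    exact mul_le_mul ((hc _).trans (le_abs_self _)) ((hc _).trans (le_abs_self _)) (norm_nonneg _)
      (abs_nonneg _)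

/-- the constant observable -/
def one' : ObsSpace G D L i := ⟨fun _ => 1, IsObs.const i 1⟩

omit hI hC hm hχ hχi hχ' in
lemma form_one (F : ObsSpace G D L i) : form i P (one' i) F = ∫ U, F.1 U ∂P := by
  unfold form one'
  simp

omit hI hC hm hχ hχi hχ' in
lemma form_one_one : form i P (one' i : ObsSpace G D L i) (one' i) = 1 := by
  have := hP.prob
  rw [form_one hP]
  simp [one']

/-- **Clustering.** -/
lemma form_cluster (F : ObsSpace G D L i) : ∃ K : ℝ, ∀ n : ℕ,
    ‖form i P F ((tau G D L i)^[n] F) - (‖form i P (one' i) F‖ ^ 2 : ℝ)‖ ≤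
      K * Real.exp (-(m * n)) := by
  have := hP.prob
  obtain ⟨K1, hK1, h1⟩ := pair_cluster hI hC hm hχ hχi hχ' hP i F.2.re F.2.re
  obtain ⟨K2, hK2, h2⟩ := pair_cluster hI hC hm hχ hχi hχ' hP i F.2.im F.2.im
  obtain ⟨K3, hK3, h3⟩ := pair_cluster hI hC hm hχ hχi hχ' hP i F.2.re F.2.im
  obtain ⟨K4, hK4, h4⟩ := pair_cluster hI hC hm hχ hχi hχ' hP i F.2.im F.2.re
  refine ⟨K1 + K2 + (K3 + K4), fun n => ?_⟩
  have hib : ∀ {f g : (Link D L → G) → ℝ}, Half i f → Half i g →
      Integrable (fun U => f (refl i U) * g (shift (n • e i) U)) P := by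
    intro f g hf hg
    obtain ⟨c, hc⟩ := hf.bdd
    obtain ⟨c', hc'⟩ := hg.bdd
    refine Integrable.of_bound (C := |c| * |c'|)
      ((hf.meas.comp (refl_meas i)).mul (hg.meas.comp (shift_meas _))).aestronglyMeasurable ?_
    refine Eventually.of_forall fun U => ?_
    rw [Real.norm_eq_abs, abs_mul]
    exact mul_le_mul ((hc _).trans (le_abs_self _)) ((hc' _).trans (le_abs_self _)) (abs_nonneg _)
      (abs_nonneg _)
  have hint : Integrable (fun U => conj (F.1 (refl i U)) * ((tau G D L i)^[n] F).1 U) P :=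
    obs_int hP i F.2 ((tau G D L i)^[n] F).2
  have hF : Integrable F.1 P := by
    obtain ⟨c, hc⟩ := F.2.bdd
    exact Integrable.of_bound (C := c) F.2.meas.aestronglyMeasurable (Eventually.of_forall hc)
  -- real and imaginary parts
  have er : (form i P F ((tau G D L i)^[n] F)).re =
      ∫ U, (F.1 (refl i U)).re * (F.1 (shift (n • e i) U)).re ∂P +
        ∫ U, (F.1 (refl i U)).im * (F.1 (shift (n • e i) U)).im ∂P := by
    rw [← integral_add (hib F.2.re F.2.re) (hib F.2.im F.2.im)]
    unfold form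
    have h5 : (∫ U, conj (F.1 (refl i U)) * ((tau G D L i)^[n] F).1 U ∂P).re =
        ∫ U, (conj (F.1 (refl i U)) * ((tau G D L i)^[n] F).1 U).re ∂P := by
      have := integral_re (𝕜 := ℂ) hint
      simpa using this.symm
    rw [h5]
    refine integral_congr_ae (Eventually.of_forall fun U => ?_)
    show (conj (F.1 (refl i U)) * ((tau G D L i)^[n] F).1 U).re = _
    rw [tau_iter, Complex.mul_re, Complex.conj_re, Complex.conj_im]
    ring
  have ei : (form i P F ((tau G D L i)^[n] F)).im =
      ∫ U, (F.1 (refl i U)).re * (F.1 (shift (n • e i) U)).im ∂P -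
        ∫ U, (F.1 (refl i U)).im * (F.1 (shift (n • e i) U)).re ∂P := by
    rw [← integral_sub (hib F.2.re F.2.im) (hib F.2.im F.2.re)]
    unfold form
    have h5 : (∫ U, conj (F.1 (refl i U)) * ((tau G D L i)^[n] F).1 U ∂P).im =
        ∫ U, (conj (F.1 (refl i U)) * ((tau G D L i)^[n] F).1 U).im ∂P := by
      have := integral_im (𝕜 := ℂ) hint
      simpa using this.symm
    rw [h5]
    refine integral_congr_ae (Eventually.of_forall fun U => ?_)
    show (conj (F.1 (refl i U)) * ((tau G D L i)^[n] F).1 U).im = _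
    rw [tau_iter, Complex.mul_im, Complex.conj_re, Complex.conj_im]
    ring
  have e1 : ‖form i P (one' i) F‖ ^ 2 = (∫ U, (F.1 U).re ∂P) * (∫ U, (F.1 U).re ∂P) +
      (∫ U, (F.1 U).im ∂P) * ∫ U, (F.1 U).im ∂P := by
    rw [form_one hP]
    have h5 : (∫ U, F.1 U ∂P).re = ∫ U, (F.1 U).re ∂P := by
      have := integral_re (𝕜 := ℂ) hF
      simpa using this.symm
    have h6 : (∫ U, F.1 U ∂P).im = ∫ U, (F.1 U).im ∂P := by
      have := integral_im (𝕜 := ℂ) hF
      simpa using this.symm
    rw [← h5, ← h6, ← Complex.normSq_eq_norm_sq, Complex.normSq_apply]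
  have h5 := h1 n
  have h6 := h2 n
  have h7 := h3 n
  have h8 := h4 n
  have h9 := Complex.norm_le_abs_re_add_abs_im
    (form i P F ((tau G D L i)^[n] F) - (‖form i P (one' i) F‖ ^ 2 : ℝ))
  refine h9.trans ?_
  rw [Complex.sub_re, Complex.sub_im, Complex.ofReal_re, Complex.ofReal_im, sub_zero, er, ei, e1]
  have h10 : |∫ U, (F.1 (refl i U)).re * (F.1 (shift (n • e i) U)).re ∂P +
      ∫ U, (F.1 (refl i U)).im * (F.1 (shift (n • e i) U)).im ∂P -
      ((∫ U, (F.1 U).re ∂P) * (∫ U, (F.1 U).re ∂P) +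
      (∫ U, (F.1 U).im ∂P) * ∫ U, (F.1 U).im ∂P)| ≤
      (K1 + K2) * Real.exp (-(m * n)) := by
    rw [abs_le] at h5 h6 ⊢
    constructor <;> nlinarith
  have h11 : |∫ U, (F.1 (refl i U)).re * (F.1 (shift (n • e i) U)).im ∂P -
      ∫ U, (F.1 (refl i U)).im * (F.1 (shift (n • e i) U)).re ∂P| ≤
      (K3 + K4) * Real.exp (-(m * n)) := by
    rw [abs_le] at h7 h8 ⊢
    constructor <;> nlinarith
  calc _ ≤ (K1 + K2) * Real.exp (-(m * n)) + (K3 + K4) * Real.exp (-(m * n)) :=
        add_le_add h10 h11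
    _ = _ := by ring

end ctx

end

end Pool.Agent.N986.SL
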