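import Pool.Agent.N986.SL.Rec
import Pool.Agent.N986.SL.Lower
import Pool.Agent.N109.Slab.Upper

/-!
# Lattice gauge theory in a slab: the mass gap
-/

set_option autoImplicit false
set_option linter.unusedSectionVars false
set_option linter.unusedVariables false
set_option linter.style.haveILetI false

open MeasureTheory Matrix Function
open scoped Matrix.Norms.Frobenius ENNReal

namespace Pool.Agent.N986.SL

open Pool.Agent.N986.PB

noncomputable section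

variable {N D L : ℕ} {G : Subgroup (N990.UU N)} [MeasurableSpace G] [BorelSpace G]

/-- The mass gap of a transfer operator. -/
def massGap {H : Type} [NormedAddCommGroup H] [InnerProductSpace ℂ H] (T : H →L[ℂ] H) : ℝ :=
  -Real.log (sSup {t : ℝ | ∃ z ∈ spectrum ℂ T, z ≠ 1 ∧ ‖z‖ = t})

lemma massGap_bd {H : Type} [NormedAddCommGroup H] [InnerProductSpace ℂ H] {T : H →L[ℂ] H}
    {m M : ℝ} (h1 : ∀ z ∈ spectrum ℂ T, z = 1 ∨ ‖z‖ ≤ Real.exp (-m))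
    (h2 : ∃ z ∈ spectrum ℂ T, z ≠ 1 ∧ Real.exp (-M) ≤ ‖z‖) :
    m ≤ massGap T ∧ massGap T ≤ M := by
  obtain ⟨z, hz, hz1, hz2⟩ := h2
  have hb : ∀ t ∈ {t : ℝ | ∃ z ∈ spectrum ℂ T, z ≠ 1 ∧ ‖z‖ = t}, t ≤ Real.exp (-m) := by
    rintro t ⟨w, hw, hw1, rfl⟩
    exact (h1 w hw).resolve_left hw1
  have hne : {t : ℝ | ∃ z ∈ spectrum ℂ T, z ≠ 1 ∧ ‖z‖ = t}.Nonempty := ⟨‖z‖, z, hz, hz1, rfl⟩
  have h3 := csSup_le hne hb
  have h4 : Real.exp (-M) ≤ sSup {t : ℝ | ∃ z ∈ spectrum ℂ T, z ≠ 1 ∧ ‖z‖ = t} :=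
    hz2.trans (le_csSup ⟨_, hb⟩ ⟨z, hz, hz1, rfl⟩)
  have h5 : 0 < sSup {t : ℝ | ∃ z ∈ spectrum ℂ T, z ≠ 1 ∧ ‖z‖ = t} := (Real.exp_pos _).trans_le h4
  unfold massGap
  constructor
  · rw [le_neg, Real.log_le_iff_le_exp h5]
    exact h3
  · rw [neg_le, Real.le_log_iff_exp_le h5]
    exact h4

/-- **The mass gap of the lattice gauge theory in a slab at weak coupling.** -/
theorem slab (hG : IsClosed (G : Set (N990.UU N))) (μ : Measure G) [IsProbabilityMeasure μ]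
    [μ.IsMulLeftInvariant] (hL : 1 ≤ L) {m₀ : ℝ} (hm₀ : 0 < m₀)
    (h : 2 * Real.cosh m₀ - 2 = N990.lam0 L) {ε : ℝ} (hε : 0 < ε) (hε' : ε < m₀) :
    ∃ β₀ ≥ (1 : ℝ), ∀ β ≥ β₀, ∃ C : ℝ, 0 < C ∧ ∃ P : Measure (Link D L → G), Dlr μ chi β P ∧
    (∀ P' : Measure (Link D L → G), Dlr μ chi β P' → P' = P) ∧
    (∀ (V A : Finset (Fin D → ℤ)) (r : ℕ), (∀ a ∈ A, ∀ y ∉ V, r ≤ dd a y) →
      ∀ F : (Link D L → G) → ℝ, Measurable F → (∀ U, |F U| ≤ 1) →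
      (∀ U U' : Link D L → G, (∀ l : Link D L, l.1 ∈ A → U l = U' l) → F U = F U') →
      ∀ U : Link D L → G, |expect μ chi β (cols L V) U F - ∫ U, F U ∂P| ≤
        C * A.card * Real.exp (-((m₀ - ε) * r))) ∧
    (∀ (A B : Finset (Fin D → ℤ)) (r : ℕ), (∀ a ∈ A, ∀ y ∈ B, r ≤ dd a y) →
      ∀ F F' : (Link D L → G) → ℝ, Measurable F → Measurable F' → (∀ U, |F U| ≤ 1) →
      (∀ U, |F' U| ≤ 1) →
      (∀ U U' : Link D L → G, (∀ l : Link D L, l.1 ∈ A → U l = U' l) → F U = F U') →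
      (∀ U U' : Link D L → G, (∀ l : Link D L, l.1 ∈ B → U l = U' l) → F' U = F' U') →
      |∫ U, F' U * F U ∂P - (∫ U, F' U ∂P) * ∫ U, F U ∂P| ≤
        C * A.card * Real.exp (-((m₀ - ε) * r))) ∧
    ∀ (i : Fin D) (S : Submodule ℂ ((Link D L → G) → ℂ)), Alg i S →
      (∃ (H : Type) (_ : NormedAddCommGroup H) (_ : InnerProductSpace ℂ H) (_ : CompleteSpace H)
        (T : H →L[ℂ] H) (J : ((Link D L → G) → ℂ) → H),
        Rec i (S : Set ((Link D L → G) → ℂ)) P T J) ∧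
      ∀ (H : Type) [NormedAddCommGroup H] [InnerProductSpace ℂ H] [CompleteSpace H]
        (T : H →L[ℂ] H) (J : ((Link D L → G) → ℂ) → H),
        Rec i (S : Set ((Link D L → G) → ℂ)) P T J →
        IsSelfAdjoint T ∧ ‖T‖ ≤ 1 ∧ ‖J fun _ => 1‖ = 1 ∧
        (∀ x, T x = x ↔ ∃ c : ℂ, x = c • J fun _ => 1) ∧
        (∀ z ∈ spectrum ℂ T, z = 1 ∨ ‖z‖ ≤ Real.exp (-(m₀ - ε))) ∧
        (Infinite G → 2 ≤ D → GObs G D L i ≤ S → |massGap T - m₀| ≤ ε) := by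
  classical
  haveI : CompactSpace G := isCompact_iff_compactSpace.1 hG.isCompact
  haveI : SecondCountableTopology (N990.UU N) :=
    TopologicalSpace.Subtype.secondCountableTopology _
  haveI : SecondCountableTopology G := TopologicalSpace.Subtype.secondCountableTopology _
  haveI : μ.IsMulRightInvariant := right_invariant μ
  haveI : μ.IsInvInvariant := inv_invariant μ
  have hm : 0 < m₀ - ε := by linarith
  have hlt : 2 * Real.cosh (m₀ - ε) - 2 < N990.lam0 L := by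
    rw [← h]
    have : Real.cosh (m₀ - ε) < Real.cosh m₀ := by
      rw [Real.cosh_lt_cosh, abs_of_pos hm, abs_of_pos hm₀]
      linarith
    linarith
  -- the lower bound
  obtain ⟨b1, hb1, h1⟩ := axInfl (D := D) (L := L) hG μ hm.le hlt
  -- the upper bound
  have hup : ∀ i : Fin D, ∃ b : ℝ, Infinite G → 2 ≤ D → ∃ F : (Link D L → G) → ℝ, Half i F ∧
      (∀ g : (Fin D → ℤ) → ℕ → G, (∀ x, g x 0 = 1) → ∀ U, F (gt g U) = F U) ∧
      ∀ β ≥ b, ∀ P : Measure (Link D L → G), Dlr μ chi β P → 0 < corr i P F 0 ∧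
        Real.exp (-(2 * (m₀ + ε))) * corr i P F 0 ≤ corr i P F 2 := by
    intro i
    by_cases hi : Infinite G ∧ 2 ≤ D
    · obtain ⟨hi1, hi2⟩ := hi
      haveI : Nontrivial (Fin D) := Fin.nontrivial_iff_two_le.2 hi2
      obtain ⟨i1, hi3⟩ := exists_ne i
      obtain ⟨F, hF, -, hF', b, -, hb⟩ := N109.Slab.upper (D := D) hG μ hL (Ne.symm hi3) hm₀ h hε
      exact ⟨b, fun _ _ => ⟨F, hF, hF', hb⟩⟩
    · exact ⟨0, fun h1 h2 => absurd ⟨h1, h2⟩ hi⟩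
  choose b hb using hup
  obtain ⟨b2, hb2⟩ := (Set.finite_range b).bddAbove
  refine ⟨max b1 b2, le_max_of_le_left hb1, fun β hβ => ?_⟩
  obtain ⟨C, hC, hI⟩ := h1 β ((le_max_left _ _).trans hβ)
  obtain ⟨P, h2, h3, h4, h5⟩ := main hI hC.le hm chi_cont chi_conj
  refine ⟨8 * C * Real.exp (m₀ - ε) + 2 * Real.exp (2 * (m₀ - ε)), by positivity, P, h2, h3, h4,
    h5, fun i S hS => ?_⟩
  have hP := Dlr.gibbs chi_cont h2
  refine ⟨exists_rec hI hC.le hm chi_cont chi_conj chi_inv hP hS, ?_⟩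
  intro H _ _ _ T J hR
  obtain ⟨a1, a2, a3, a4, a5, a6, a7⟩ :=
    rec_gap hI hC.le hm chi_cont chi_conj chi_inv hP hS hR
  refine ⟨a1, a2, a4, fun x => ⟨a7 x, ?_⟩, a6, fun hi1 hi2 hle => ?_⟩
  · rintro ⟨c, rfl⟩
    rw [map_smul, a3]
  · obtain ⟨F, hF, hF', hF2⟩ := hb i hi1 hi2
    obtain ⟨c1, c2⟩ := hF2 β ((hb2 ⟨i, rfl⟩).trans ((le_max_right _ _).trans hβ)) P h2
    have hd : (fun U => ((F U + -(∫ U, F U ∂P) : ℝ) : ℂ)) ∈ S :=
      hle ⟨(hF.add (Half.const i _)).obs, fun g hg U => by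
        show ((F (gt g U) + _ : ℝ) : ℂ) = _
        rw [hF' g hg]⟩
    have h6 := massGap_bd a6
      (rec_upper hI hC.le hm chi_cont chi_conj chi_inv hP hS hR hF hd c1 c2)
    rw [abs_le]
    constructor <;> linarith [h6.1, h6.2]

end

end Pool.Agent.N986.SL
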