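import Pool.Agent.N986.SL.Vert

/-!
# Lattice gauge theory in a slab: the horizontal links and the axial gauge
-/

set_option autoImplicit false
set_option linter.unusedSectionVars false
set_option linter.unusedVariables false

open MeasureTheory Finset Function
open scoped ENNReal

namespace Pool.Agent.N986.SL

open Pool.Agent.N986.PB

noncomputable section

variable {D L : ℕ} {G : Type*} [Group G]

/-- the horizontal links of the columns `V` -/
def Hor (L : ℕ) (V : Finset (Fin D → ℤ)) : Finset (Link D L) :=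
  (V ×ˢ (Finset.univ : Finset (Fin D × Fin L))).image fun p => (p.1, some p.2.1, p.2.2)

lemma mem_Hor {V : Finset (Fin D → ℤ)} {l : Link D L} :
    l ∈ Hor L V ↔ l.1 ∈ V ∧ ∃ i, l.2.1 = some i := by
  unfold Hor
  rw [Finset.mem_image]
  constructor
  · rintro ⟨p, hp, rfl⟩
    exact ⟨(Finset.mem_product.1 hp).1, _, rfl⟩
  · rintro ⟨h1, i, h2⟩
    exact ⟨(l.1, i, l.2.2), Finset.mem_product.2 ⟨h1, Finset.mem_univ _⟩, by
      show (l.1, some i, l.2.2) = l
      rw [← h2]⟩

/-- the field with the vertical link variables of `U` whose field in the axial gauge is `φ` -/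
def back (U : Link D L → G) (φ : (Fin D → ℤ) → Fin D × Fin L → G) : Link D L → G := fun l =>
  match l with
  | (x, none, s) => U (x, none, s)
  | (x, some i, s) => (hv U x (s + 1))⁻¹ * φ x (i, s) * hv U (x + e i) (s + 1)

lemma hv_congr {U U' : Link D L → G} {x : Fin D → ℤ} (h : ∀ s, U (x, none, s) = U' (x, none, s)) :
    ∀ n, hv U x n = hv U' x n
  | 0 => rfl
  | n + 1 => by
    show hv U x n * _ = hv U' x n * _
    rw [hv_congr h n]
    by_cases hn : n < L
    · rw [dif_pos hn, dif_pos hn, h]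
    · rw [dif_neg hn, dif_neg hn]

lemma back_ax (U : Link D L → G) : back U (ax U) = U := by
  funext ⟨x, o, s⟩
  cases o with
  | none => rfl
  | some i =>
    show (hv U x (s + 1))⁻¹ * (hv U x (s + 1) * U (x, some i, s) * (hv U (x + e i) (s + 1))⁻¹) *
      hv U (x + e i) (s + 1) = _
    group

lemma back_congr {U U' : Link D L → G} (h : ∀ x s, U (x, none, s) = U' (x, none, s))
    (φ : (Fin D → ℤ) → Fin D × Fin L → G) : back U φ = back U' φ := by
  funext ⟨x, o, s⟩
  cases o with
  | none => exact h x s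
  | some i =>
    show (hv U x (s + 1))⁻¹ * φ x (i, s) * hv U (x + e i) (s + 1) = 
      (hv U' x (s + 1))⁻¹ * φ x (i, s) * hv U' (x + e i) (s + 1)
    rw [hv_congr (h x), hv_congr (h (x + e i))]

/-- the columns with a plaquette which contains a horizontal link of the columns `V` -/
def bs (V : Finset (Fin D → ℤ)) : Finset (Fin D → ℤ) :=
  V ∪ Finset.univ.biUnion fun i : Fin D => V.image fun x => x - e i

/-- the weight of the columns `V` in the axial gauge -/
def axw (χ : G → ℝ) (β : ℝ) (V : Finset (Fin D → ℤ)) (φ : (Fin D → ℤ) → Fin D × Fin L → G) :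
    ℝ≥0∞ := ENNReal.ofReal (Real.exp (-(β * ∑ x ∈ bs V, dens χ (emb φ) x)))

lemma dens_zero (χ : G → ℝ) (U : Link D L → G) (x : Fin D → ℤ) (h : L = 0 ∨ D = 0) :
    dens χ U x = 0 := by
  unfold dens
  rcases h with rfl | rfl <;> simp

lemma sum_base (χ : G → ℝ) (V : Finset (Fin D → ℤ)) (U : Link D L → G) :
    ∑ x ∈ base (Hor L V), dens χ U x = ∑ x ∈ bs V, dens χ U x := by
  by_cases h : L = 0 ∨ D = 0
  · rw [Finset.sum_eq_zero fun x _ => dens_zero χ U x h,
      Finset.sum_eq_zero fun x _ => dens_zero χ U x h]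
  · rw [not_or] at h
    have hL : 0 < L := Nat.pos_of_ne_zero h.1
    have hD : 0 < D := Nat.pos_of_ne_zero h.2
    congr 1
    have h1 : ∀ x, (∃ l ∈ Hor L V, l.1 = x) ↔ x ∈ V := by
      intro x
      constructor
      · rintro ⟨l, hl, rfl⟩
        exact (mem_Hor.1 hl).1
      · intro hx
        exact ⟨(x, some ⟨0, hD⟩, ⟨0, hL⟩), mem_Hor.2 ⟨hx, _, rfl⟩, rfl⟩
    ext x
    rw [mem_base, h1]
    unfold bs
    simp only [h1, Finset.mem_union, Finset.mem_biUnion, Finset.mem_univ, true_and,
      Finset.mem_image, sub_eq_iff_eq_add, exists_eq_right]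

lemma wt_ax {χ : G → ℝ} (hχ : ∀ a p : G, χ (a * p * a⁻¹) = χ p) (β : ℝ)
    (V : Finset (Fin D → ℤ)) (U : Link D L → G) :
    wt χ β (Hor L V) U = axw χ β V (ax U) := by
  unfold wt axw
  rw [sum_base]
  simp only [dens_ax hχ U]

section meas

variable [MeasurableSpace G] [MeasurableMul₂ G] [MeasurableInv G]

lemma back_meas (U : Link D L → G) :
    Measurable (back U : ((Fin D → ℤ) → Fin D × Fin L → G) → Link D L → G) := by
  refine measurable_pi_lambda _ fun l => ?_
  rcases l with ⟨x, o, s⟩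
  cases o with
  | none => exact measurable_const
  | some i =>
    have h : Measurable fun φ : (Fin D → ℤ) → Fin D × Fin L → G => φ x (i, s) :=
      (measurable_pi_apply (i, s)).comp (measurable_pi_apply x)
    exact (h.const_mul _).mul_const _

lemma back_meas₂ : Measurable fun p : (Link D L → G) × ((Fin D → ℤ) → Fin D × Fin L → G) =>
    back p.1 p.2 := by
  refine measurable_pi_lambda _ fun l => ?_
  rcases l with ⟨x, o, s⟩
  cases o with
  | none => exact (measurable_pi_apply _).comp measurable_fst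
  | some i =>
    have h : Measurable fun φ : (Fin D → ℤ) → Fin D × Fin L → G => φ x (i, s) :=
      (measurable_pi_apply (i, s)).comp (measurable_pi_apply x)
    have h1 : ∀ y n, Measurable fun p : (Link D L → G) × ((Fin D → ℤ) → Fin D × Fin L → G) =>
        hv p.1 y n := fun y n => (hv_meas y n).comp measurable_fst
    have h2 : Measurable fun p : (Link D L → G) × ((Fin D → ℤ) → Fin D × Fin L → G) =>
        p.2 x (i, s) := h.comp measurable_snd
    show Measurable fun p : (Link D L → G) × ((Fin D → ℤ) → Fin D × Fin L → G) =>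
      (hv p.1 x (s + 1))⁻¹ * p.2 x (i, s) * hv p.1 (x + e i) (s + 1)
    exact ((h1 _ _).inv.mul h2).mul (h1 _ _)

lemma axw_meas {χ : G → ℝ} (hχ : Measurable χ) (β : ℝ) (V : Finset (Fin D → ℤ)) :
    Measurable (axw χ β V : ((Fin D → ℤ) → Fin D × Fin L → G) → ℝ≥0∞) := by
  unfold axw
  exact ENNReal.measurable_ofReal.comp (Real.measurable_exp.comp
    ((Finset.measurable_fun_sum _ fun x _ => (dens_meas hχ x).comp emb_meas).const_mul β).neg)

lemma axw_good {χ : G → ℝ} (hχm : Measurable χ) {b : ℝ}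
    (hb : ∀ p, |χ p| ≤ b) (ν : Measure (Fin D × Fin L → G)) [IsProbabilityMeasure ν] (β : ℝ)
    (V : Finset (Fin D → ℤ)) :
    Good ν (axw χ β V : ((Fin D → ℤ) → Fin D × Fin L → G) → ℝ≥0∞) := by
  obtain ⟨c, hc⟩ : ∃ c : ℝ, c = |β| * ((bs V).card * (L * (D * (b + D * b)))) := ⟨_, rfl⟩
  have h1 : ∀ φ : (Fin D → ℤ) → Fin D × Fin L → G, |β * ∑ x ∈ bs V, dens χ (emb φ) x| ≤ c := by
    intro φ
    rw [abs_mul, hc]
    refine mul_le_mul_of_nonneg_left ?_ (abs_nonneg _)
    refine (Finset.abs_sum_le_sum_abs _ _).trans ?_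
    refine (Finset.sum_le_sum fun x _ => dens_bdd hb (emb φ) x).trans ?_
    simp
  refine good_of_bdd (axw_meas hχm β V) (lo := ENNReal.ofReal (Real.exp (-c)))
    (hi := ENNReal.ofReal (Real.exp c)) (by simp [Real.exp_pos]) ENNReal.ofReal_ne_top
    (fun U => ENNReal.ofReal_le_ofReal (Real.exp_le_exp.2 ?_))
    fun U => ENNReal.ofReal_le_ofReal (Real.exp_le_exp.2 ?_)
  · have := (abs_le.1 (h1 U)).2; linarith
  · have := (abs_le.1 (h1 U)).1; linarith

variable {μ : Measure G} [IsProbabilityMeasure μ] [μ.IsMulLeftInvariant] [μ.IsMulRightInvariant]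

/-- change of variables to the axial gauge -/
lemma In_ax (V : Finset (Fin D → ℤ)) {F : ((Fin D → ℤ) → Fin D × Fin L → G) → ℝ≥0∞}
    (hF : Measurable F) (ξ : Link D L → G) :
    In μ (Hor L V) (fun η => F (ax η)) ξ =
      In (Measure.pi fun _ : Fin D × Fin L => μ) V F (ax ξ) := by
  obtain ⟨em, hem⟩ : ∃ em : (Fin D → ℤ) × (Fin D × Fin L) → Link D L,
      em = fun p => (p.1, some p.2.1, p.2.2) := ⟨_, rfl⟩
  have hinj : Injective em := by
    rintro ⟨x, i, s⟩ ⟨y, j, t⟩ h
    rw [hem] at h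
    simpa using h
  have hS : (V ×ˢ (Finset.univ : Finset (Fin D × Fin L))).map ⟨em, hinj⟩ = Hor L V := by
    unfold Hor
    rw [Finset.map_eq_image]
    simp only [Embedding.coeFn_mk, hem]
  have hcm : Measurable fun (η : (Fin D → ℤ) × (Fin D × Fin L) → G) => F fun x j => η (x, j) :=
    hF.comp (measurable_pi_lambda _ fun x => measurable_pi_lambda _ fun j => measurable_pi_apply _)
  have hγ : Measurable fun (U : Link D L → G) (p : (Fin D → ℤ) × (Fin D × Fin L)) =>
      ax U p.1 p.2 := by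
    refine measurable_pi_lambda _ fun p => ?_
    exact (measurable_pi_apply p.2).comp ((measurable_pi_apply p.1).comp ax_meas)
  have h1 := In_map (ν := μ) em hinj (fun (U : Link D L → G) p => ax U p.1 p.2) hγ hcm
    (V ×ˢ Finset.univ) ?_ ξ
  · rw [hS] at h1
    rw [h1]
    exact In_col V hF fun p => ax ξ p.1 p.2
  · rintro ⟨x, i, s⟩ _ ζ
    refine ⟨_, mp_mul (hv ζ x (s + 1)) (hv ζ (x + e i) (s + 1))⁻¹, fun t => ?_⟩
    have hvu : ∀ y n, hv (update ζ (em (x, i, s)) t) y n = hv ζ y n := fun y n =>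
      hv_congr (fun s' => update_of_ne (by rw [hem]; simp) _ _) n
    funext ⟨y, j, s'⟩
    by_cases h : (y, j, s') = (x, i, s)
    · rw [h, update_self]
      simp only [ax, hvu]
      rw [show ((x, some i, s) : Link D L) = em (x, i, s) by rw [hem], update_self]
    · rw [update_of_ne h]
      simp only [ax, hvu]
      rw [show ((y, some j, s') : Link D L) = em (y, j, s') by rw [hem],
        update_of_ne fun h2 => h (hinj h2)]

/-- **The conditional expectation given the vertical links.** -/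
lemma ev_hor {χ : G → ℝ} (hχ : ∀ a p : G, χ (a * p * a⁻¹) = χ p) (hχm : Measurable χ) (β : ℝ)
    (V : Finset (Fin D → ℤ)) {F : (Link D L → G) → ℝ≥0∞} (hF : Measurable F) (ξ : Link D L → G) :
    ev μ (wt χ β (Hor L V)) (Hor L V) F ξ =
      ev (Measure.pi fun _ : Fin D × Fin L => μ) (axw χ β V) V (fun φ => F (back ξ φ)) (ax ξ) := by
  unfold ev
  have h1 : ∀ φ : Link D L → G, (∀ l ∉ Hor L V, φ l = ξ l) → back ξ (ax φ) = φ := by
    intro φ hφ
    rw [← back_congr (U := φ) (U' := ξ) (fun x s => hφ _ fun h => by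
      obtain ⟨-, i, hi⟩ := mem_Hor.1 h
      simp at hi), back_ax]
  congr 1
  · have h2 : Measurable fun φ : (Fin D → ℤ) → Fin D × Fin L → G =>
        axw χ β V φ * F (back ξ φ) := (axw_meas hχm β V).mul (hF.comp (back_meas ξ))
    rw [← In_ax V h2 ξ]
    refine In_congr' fun φ hφ => ?_
    show _ = axw χ β V (ax φ) * F (back ξ (ax φ))
    rw [h1 φ hφ, wt_ax hχ]
  · rw [← In_ax V (axw_meas hχm β V) ξ]
    refine In_congr' fun φ hφ => ?_
    rw [wt_ax hχ]

end meas

end

end Pool.Agent.N986.SL
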