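import Pool.Agent.N986.SL.Sym

/-!
# Lattice gauge theory in a slab: plaquette weights, invariance of the Gibbs measure
-/

set_option autoImplicit false
set_option linter.unusedSectionVars false
set_option linter.unusedVariables false

open MeasureTheory Finset Function Filter Topology
open scoped ENNReal NNReal

namespace Pool.Agent.N986.SL

open Pool.Agent.N986.PB

noncomputable section

variable {D L : ℕ} {G : Type*} [Group G]

/-- plaquettes: base point and label -/
abbrev Plq (D L : ℕ) := (Fin D → ℤ) × PL D L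

/-- The weight of the plaquettes in `Q`. -/
def wQ (χ : G → ℝ) (β : ℝ) (Q : Finset (Plq D L)) (U : Link D L → G) : ℝ≥0∞ :=
  ENNReal.ofReal (Real.exp (-(β * ∑ q ∈ Q, pe χ U q.1 q.2)))

lemma wt_eq_wQ (χ : G → ℝ) (β : ℝ) (M : Finset (Link D L)) :
    (wt χ β M : (Link D L → G) → ℝ≥0∞) = wQ χ β (base M ×ˢ Finset.univ) := by
  funext U
  unfold wt wQ
  rw [Finset.sum_product]
  simp only [dens_eq_pe]

lemma wQ_union (χ : G → ℝ) (β : ℝ) {Q Q' : Finset (Plq D L)} (h : Disjoint Q Q')
    (U : Link D L → G) : wQ χ β (Q ∪ Q') U = wQ χ β Q U * wQ χ β Q' U := by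
  unfold wQ
  rw [Finset.sum_union h, ← ENNReal.ofReal_mul (Real.exp_pos _).le, ← Real.exp_add]
  congr 2
  ring

/-- the energy of the plaquette `q` does not depend on the links in `M` -/
def Ins (χ : G → ℝ) (M : Finset (Link D L)) (q : Plq D L) : Prop :=
  ∀ U U' : Link D L → G, (∀ l ∉ M, U l = U' l) → pe χ U q.1 q.2 = pe χ U' q.1 q.2

/-- the dependence of the energy of a plaquette -/
lemma pe_congr (χ : G → ℝ) {U U' : Link D L → G} {x : Fin D → ℤ} {p : PL D L}
    (h : ∀ l : Link D L, (l.1 = x ∨ ∃ i, l.1 = x + e i) → U l = U' l) :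
    pe χ U x p = pe χ U' x p := by
  have h0 : ∀ o s, U (x, o, s) = U' (x, o, s) := fun o s => h _ (Or.inl rfl)
  have h1 : ∀ i o s, U (x + e i, o, s) = U' (x + e i, o, s) := fun i o s => h _ (Or.inr ⟨i, rfl⟩)
  rcases p with ⟨s, i, o⟩
  cases o with
  | none =>
    show χ (plaqV U x i s) = χ (plaqV U' x i s)
    unfold plaqV low
    simp only [h0, h1]
  | some j =>
    show (if i < j then χ (plaqH U x i j s) else 0) = if i < j then χ (plaqH U' x i j s) else 0
    unfold plaqH
    simp only [h0, h1]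

lemma ins_of_base (χ : G → ℝ) {M : Finset (Link D L)} {q : Plq D L} (h : q.1 ∉ base M) :
    Ins χ M q := fun U U' hU => pe_congr χ fun l hl => hU l fun hlM => h (mem_base.2 (by
  rcases hl with h1 | ⟨i, h1⟩
  · exact Or.inl ⟨l, hlM, h1⟩
  · exact Or.inr ⟨i, l, hlM, h1⟩))

section meas

variable [MeasurableSpace G] [MeasurableMul₂ G] [MeasurableInv G] {χ : G → ℝ}

lemma pe_meas (hχ : Measurable χ) (x : Fin D → ℤ) (p : PL D L) :
    Measurable fun U : Link D L → G => pe χ U x p := by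
  rcases p with ⟨s, i, o⟩
  cases o with
  | none => exact hχ.comp (plaqV_meas x i s)
  | some j =>
    show Measurable fun U : Link D L → G => if i < j then χ (plaqH U x i j s) else 0
    by_cases h : i < j
    · simp only [h, if_true]; exact hχ.comp (plaqH_meas x i j s)
    · simp only [h, if_false]; exact measurable_const

lemma wQ_meas (hχ : Measurable χ) (β : ℝ) (Q : Finset (Plq D L)) :
    Measurable (wQ χ β Q : (Link D L → G) → ℝ≥0∞) := by
  unfold wQ
  exact ENNReal.measurable_ofReal.comp (Real.measurable_exp.comp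
    ((Finset.measurable_fun_sum _ fun x _ => pe_meas hχ x.1 x.2).const_mul β).neg)

variable {μ : Measure G} [IsProbabilityMeasure μ]

/-- plaquettes which do not depend on the links in `M` cancel -/
lemma ev_wQ_sub (hχ : Measurable χ) (β : ℝ) {M : Finset (Link D L)} {Q Q' : Finset (Plq D L)}
    (h : Q ⊆ Q') (hI : ∀ q ∈ Q', q ∉ Q → Ins χ M q) {F : (Link D L → G) → ℝ≥0∞}
    (hF : Measurable F) (ξ : Link D L → G) :
    ev μ (wQ χ β Q') M F ξ = ev μ (wQ χ β Q) M F ξ := by
  obtain ⟨c, hc⟩ : ∃ c, c = wQ χ β (Q' \ Q) ξ := ⟨_, rfl⟩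
  have hc0 : c ≠ 0 := by rw [hc]; unfold wQ; simp [Real.exp_pos]
  have hct : c ≠ ∞ := by rw [hc]; exact ENNReal.ofReal_ne_top
  have h1 : ∀ φ : Link D L → G, (∀ l ∉ M, φ l = ξ l) → wQ χ β (Q' \ Q) φ = c := by
    intro φ hφ
    rw [hc]
    unfold wQ
    congr 4
    refine Finset.sum_congr rfl fun q hq => ?_
    obtain ⟨h2, h3⟩ := Finset.mem_sdiff.1 hq
    exact hI q h2 h3 φ ξ hφ
  have h2 : ∀ φ : Link D L → G, wQ χ β Q' φ = wQ χ β (Q' \ Q) φ * wQ χ β Q φ := by
    intro φ
    rw [← wQ_union χ β Finset.sdiff_disjoint, Finset.sdiff_union_of_subset h]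
  have hm := wQ_meas (D := D) (L := L) hχ β Q
  unfold ev
  have h3 : (fun φ => wQ χ β Q' φ * F φ) =
      fun φ => wQ χ β (Q' \ Q) φ * (wQ χ β Q φ * F φ) := by
    funext φ
    rw [h2]; ring
  rw [h3, In_mul_left (f := fun φ => wQ χ β Q φ * F φ) (hm.mul hF) h1,
    show (wQ χ β Q' : (Link D L → G) → ℝ≥0∞) = fun φ => wQ χ β (Q' \ Q) φ * wQ χ β Q φ from
      funext h2, In_mul_left hm h1, ENNReal.mul_div_mul_left _ _ hc0 hct]

lemma ev_wQ (hχ : Measurable χ) (β : ℝ) {M : Finset (Link D L)} {Q Q' : Finset (Plq D L)}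
    (h : ∀ q ∉ Q, Ins χ M q) (h' : ∀ q ∉ Q', Ins χ M q) {F : (Link D L → G) → ℝ≥0∞}
    (hF : Measurable F) (ξ : Link D L → G) :
    ev μ (wQ χ β Q') M F ξ = ev μ (wQ χ β Q) M F ξ := by
  rw [← ev_wQ_sub (μ := μ) hχ β (Q := Q) (Q' := Q ∪ Q') Finset.subset_union_left
    (fun q _ hq => h q hq) hF ξ, ← ev_wQ_sub (μ := μ) hχ β (Q := Q') (Q' := Q ∪ Q')
    Finset.subset_union_right (fun q _ hq => h' q hq) hF ξ]

/-- A symmetry of the model. -/
structure Symm (μ : Measure G) (χ : G → ℝ) (γ : (Link D L → G) → Link D L → G) where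
  meas : Measurable γ
  sg : Link D L → Link D L
  inj : Injective sg
  dep : ∀ U U' : Link D L → G, ∀ l, U (sg l) = U' (sg l) → γ U l = γ U' l
  upd : ∀ l (ξ : Link D L → G), ∃ m : G → G, MeasurePreserving m μ μ ∧
    ∀ t, γ (update ξ (sg l) t) = update (γ ξ) l (m t)
  rh : Plq D L ≃ Plq D L
  pe_eq : ∀ (U : Link D L → G) (q : Plq D L), pe χ (γ U) q.1 q.2 = pe χ U (rh q).1 (rh q).2

variable {γ : (Link D L → G) → Link D L → G}

lemma Symm.wQ_eq (S : Symm μ χ γ) (β : ℝ) (Q : Finset (Plq D L)) (U : Link D L → G) :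
    wQ χ β Q (γ U) = wQ χ β (Q.map S.rh.toEmbedding) U := by
  unfold wQ
  rw [Finset.sum_map]
  simp only [S.pe_eq, Equiv.coe_toEmbedding]

lemma Symm.ins (S : Symm μ χ γ) {M : Finset (Link D L)} {q : Plq D L}
    (h : Ins χ M (S.rh.symm q)) : Ins χ (M.map ⟨S.sg, S.inj⟩) q := by
  intro U U' hU
  have h1 : ∀ U : Link D L → G, pe χ U q.1 q.2 =
      pe χ (γ U) (S.rh.symm q).1 (S.rh.symm q).2 := by
    intro U
    rw [S.pe_eq, Equiv.apply_symm_apply]
  rw [h1, h1]
  refine h _ _ fun l hl => S.dep _ _ l (hU _ fun h2 => hl ?_)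
  obtain ⟨l', hl', h3⟩ := Finset.mem_map.1 h2
  exact S.inj h3 ▸ hl'

/-- conditional expectations and symmetries -/
lemma Symm.ev_eq (S : Symm μ χ γ) (hχ : Measurable χ) (β : ℝ) (M : Finset (Link D L))
    {F : (Link D L → G) → ℝ≥0∞} (hF : Measurable F) (U : Link D L → G) :
    ev μ (wt χ β M) M F (γ U) =
      ev μ (wt χ β (M.map ⟨S.sg, S.inj⟩)) (M.map ⟨S.sg, S.inj⟩) (fun V => F (γ V)) U := by
  have hm := wt_meas (D := D) (L := L) hχ β M
  have h1 : ev μ (wt χ β M) M F (γ U) =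
      ev μ (fun V => wt χ β M (γ V)) (M.map ⟨S.sg, S.inj⟩) (fun V => F (γ V)) U := by
    unfold ev
    rw [← In_map (ν := μ) S.sg S.inj γ S.meas (F := fun V => wt χ β M V * F V) (hm.mul hF) M
      (fun l _ ξ => S.upd l ξ) U, ← In_map (ν := μ) S.sg S.inj γ S.meas hm M
      (fun l _ ξ => S.upd l ξ) U]
  rw [h1]
  have h2 : (fun V : Link D L → G => wt χ β M (γ V)) =
      wQ χ β ((base M ×ˢ Finset.univ).map S.rh.toEmbedding) := by
    funext V
    rw [wt_eq_wQ, S.wQ_eq]
  rw [h2, wt_eq_wQ]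
  refine ev_wQ hχ β (fun q hq => ins_of_base χ fun h3 => hq ?_) (fun q hq => S.ins ?_)
    (hF.comp S.meas) U
  · exact Finset.mem_product.2 ⟨h3, Finset.mem_univ _⟩
  · refine ins_of_base χ fun h3 => hq ?_
    exact Finset.mem_map.2 ⟨S.rh.symm q, Finset.mem_product.2 ⟨h3, Finset.mem_univ _⟩,
      S.rh.apply_symm_apply q⟩

/-- symmetries map Gibbs measures to Gibbs measures -/
lemma Symm.gibbs (S : Symm μ χ γ) (hχ : Measurable χ) {b : ℝ} (hb : ∀ p, |χ p| ≤ b) {β : ℝ}
    {P : Measure (Link D L → G)} (hP : IsGibbs μ χ β Set.univ P) :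
    IsGibbs μ χ β Set.univ (P.map γ) := by
  have := hP.prob
  refine ⟨Measure.isProbabilityMeasure_map S.meas.aemeasurable, fun M _ F hF => ?_⟩
  rw [lintegral_map hF S.meas, lintegral_map (ev_meas (wt_good hχ hb μ β M) hF) S.meas,
    hP.dlr (M.map ⟨S.sg, S.inj⟩) (fun _ _ => Set.mem_univ _) (fun U => F (γ U)) (hF.comp S.meas)]
  exact lintegral_congr fun U => (S.ev_eq hχ β M hF U).symm

/-- translations -/
def symShift (μ : Measure G) (χ : G → ℝ) (v : Fin D → ℤ) :
    Symm (D := D) (L := L) μ χ (shift v) where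
  meas := shift_meas v
  sg := fun l => (l.1 + v, l.2)
  inj := fun l l' h => by
    have h1 := congrArg Prod.fst h
    have h2 := congrArg Prod.snd h
    exact Prod.ext (add_right_cancel h1) h2
  dep := fun U U' l h => h
  upd := fun l ξ => ⟨id, MeasurePreserving.id μ, fun t => by
    funext l'
    show update ξ (l.1 + v, l.2) t (l'.1 + v, l'.2) = _
    by_cases h : l' = l
    · subst h; simp
    · rw [update_of_ne h, update_of_ne]
      · rfl
      · intro h'
        have h1 := congrArg Prod.fst h'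
        have h2 := congrArg Prod.snd h'
        exact h (Prod.ext (add_right_cancel h1) h2)⟩
  rh := ⟨fun q => (q.1 + v, q.2), fun q => (q.1 - v, q.2), fun q => by simp, fun q => by simp⟩
  pe_eq := fun U q => pe_shift χ v U q.1 q.2

/-- the index map of the reflection -/
def sgR (i : Fin D) (l : Link D L) : Link D L :=
  if l.2.1 = some i then (th i l.1 - e i, l.2) else (th i l.1, l.2)

lemma sgR_snd (i : Fin D) (l : Link D L) : (sgR i l).2 = l.2 := by
  unfold sgR
  split_ifs <;> rfl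

lemma sgR_sgR (i : Fin D) (l : Link D L) : sgR i (sgR i l) = l := by
  rcases l with ⟨x, o, s⟩
  by_cases h : o = some i
  · subst h
    have h1 : sgR i (x, some i, s) = (th i x - e i, some i, s) := by simp [sgR]
    rw [h1]
    have h2 : sgR i (th i x - e i, some i, s) = (th i (th i x - e i) - e i, some i, s) := by
      simp [sgR]
    rw [h2, ← th_add_e_self i (th i x - e i), sub_add_cancel, th_th]
  · have h1 : ∀ y, sgR i (y, o, s) = (th i y, o, s) := fun y => by simp [sgR, h]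
    rw [h1, h1, th_th]

lemma refl_apply (i : Fin D) (U : Link D L → G) (l : Link D L) :
    refl i U l = if l.2.1 = some i then (U (sgR i l))⁻¹ else U (sgR i l) := by
  unfold refl sgR
  by_cases h : l.2.1 = some i
  · simp only [h, if_true]
  · simp only [h, if_false]

lemma sgR_inj (i : Fin D) : Injective (sgR i : Link D L → Link D L) := fun l l' h => by
  rw [← sgR_sgR i l, h, sgR_sgR]

lemma refl_update (i : Fin D) (l : Link D L) (ξ : Link D L → G) (t : G) :
    refl i (update ξ (sgR i l) t) =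
      update (refl i ξ) l (if l.2.1 = some i then t⁻¹ else t) := by
  funext l'
  by_cases h : l' = l
  · subst h
    rw [refl_apply, update_self, update_self]
  · rw [update_of_ne h, refl_apply, refl_apply, update_of_ne fun h' => h (sgR_inj i h')]

/-- the reflection -/
def symRefl (μ : Measure G) [μ.IsInvInvariant] (χ : G → ℝ)
    (hχ : ∀ a p : G, χ (a * p * a⁻¹) = χ p) (hχ' : ∀ p : G, χ p⁻¹ = χ p) (i : Fin D) :
    Symm (D := D) (L := L) μ χ (refl i) where
  meas := refl_meas i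
  sg := sgR i
  inj := sgR_inj i
  dep := fun U U' l h => by rw [refl_apply, refl_apply, h]
  upd := fun l ξ => by
    by_cases h : l.2.1 = some i
    · refine ⟨fun t => t⁻¹, Measure.measurePreserving_inv μ, fun t => ?_⟩
      rw [refl_update, if_pos h]
    · refine ⟨id, MeasurePreserving.id μ, fun t => ?_⟩
      rw [refl_update, if_neg h]
      rfl
  rh := ⟨fun q => (rb i q.1 q.2, q.2), fun q => (rb i q.1 q.2, q.2),
    fun q => by simp [rb_rb], fun q => by simp [rb_rb]⟩
  pe_eq := fun U q => pe_refl hχ hχ' i U q.1 q.2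

end meas

section inv

variable [TopologicalSpace G] [IsTopologicalGroup G]
  [CompactSpace G] [T2Space G] [SecondCountableTopology G] [MeasurableSpace G] [BorelSpace G]
  {μ : Measure G} [IsProbabilityMeasure μ] [μ.IsMulLeftInvariant] [μ.IsMulRightInvariant]
  {χ : G → ℝ} {β m C : ℝ}

/-- **Symmetries preserve the Gibbs measure.** -/
lemma Symm.map_eq (hI : AxInfl D L μ χ β m C) (hC : 0 ≤ C) (hm : 0 < m) (hχ : Continuous χ)
    (hχi : ∀ a p : G, χ (a * p * a⁻¹) = χ p) {γ : (Link D L → G) → Link D L → G}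
    (S : Symm μ χ γ) {P : Measure (Link D L → G)} (hP : IsGibbs μ χ β Set.univ P) :
    P.map γ = P := by
  obtain ⟨b, hb⟩ := bdd_cont hχ
  exact uniq hI hC hm hχ hχi (S.gibbs hχ.measurable hb hP) hP

lemma Symm.mp (hI : AxInfl D L μ χ β m C) (hC : 0 ≤ C) (hm : 0 < m) (hχ : Continuous χ)
    (hχi : ∀ a p : G, χ (a * p * a⁻¹) = χ p) {γ : (Link D L → G) → Link D L → G}
    (S : Symm μ χ γ) {P : Measure (Link D L → G)} (hP : IsGibbs μ χ β Set.univ P) :
    MeasurePreserving γ P P := ⟨S.meas, S.map_eq hI hC hm hχ hχi hP⟩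

end inv

end

end Pool.Agent.N986.SL
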