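import Pool.Agent.N986.PB.Ev
import Pool.Agent.N986.PB.Spec

/-!
# Iterated integrals and maps which act on each coordinate
-/

set_option autoImplicit false
set_option linter.unusedSectionVars false
set_option linter.unusedVariables false

open MeasureTheory Finset Function
open scoped ENNReal

namespace Pool.Agent.N986.SL

open Pool.Agent.N986.PB

noncomputable section

section map

variable {δ δ' E : Type*} [DecidableEq δ] [DecidableEq δ'] [MeasurableSpace E]
  {ν : Measure E} [SigmaFinite ν]

/-- insertion of one variable, innermost integral over the others -/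
lemma In_insert {S : Finset δ} {j : δ} (hj : j ∉ S) {f : (δ → E) → ℝ≥0∞} (hf : Measurable f)
    (ξ : δ → E) : In ν (insert j S) f ξ = ∫⁻ t, In ν S f (update ξ j t) ∂ν := by
  rw [In_erase (Finset.mem_insert_self j S) hf, Finset.erase_insert hj]

/-- change of variables, coordinate by coordinate -/
lemma In_map (e : δ' → δ) (he : Injective e) (γ : (δ → E) → (δ' → E)) (hγm : Measurable γ)
    {F : (δ' → E) → ℝ≥0∞} (hF : Measurable F) (S : Finset δ') :
    (∀ j ∈ S, ∀ ξ : δ → E, ∃ m : E → E, MeasurePreserving m ν ν ∧
      ∀ t, γ (update ξ (e j) t) = update (γ ξ) j (m t)) →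
    ∀ ξ, In ν (S.map ⟨e, he⟩) (fun η => F (γ η)) ξ = In ν S F (γ ξ) := by
  induction S using Finset.induction_on with
  | empty =>
    intro _ ξ
    simp [In]
  | insert j S hj ih =>
    intro h ξ
    have h1 := ih fun i hi => h i (Finset.mem_insert_of_mem hi)
    obtain ⟨m, hm, hmt⟩ := h j (Finset.mem_insert_self j S) ξ
    rw [Finset.map_insert, In_insert (f := fun η => F (γ η)) ?_ (hF.comp hγm), In_insert hj hF]
    · simp only [Embedding.coeFn_mk, h1, hmt]
      have h2 : Measurable fun t => In ν S F (update (γ ξ) j t) :=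
        (In_meas hF).comp (measurable_update _)
      exact hm.lintegral_comp h2
    · rintro h3
      obtain ⟨i, hi, hij⟩ := Finset.mem_map.1 h3
      exact hj (he hij ▸ hi)

/-- gauge transformations -/
lemma In_gauge (γ : (δ → E) → (δ → E)) (hγm : Measurable γ) {F : (δ → E) → ℝ≥0∞}
    (hF : Measurable F) (S : Finset δ)
    (h : ∀ j ∈ S, ∀ ξ : δ → E, ∃ m : E → E, MeasurePreserving m ν ν ∧
      ∀ t, γ (update ξ j t) = update (γ ξ) j (m t))
    (ξ : δ → E) (h' : ∀ j ∉ S, γ ξ j = ξ j) :
    In ν S (fun η => F (γ η)) ξ = In ν S F ξ := by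
  have h1 := In_map id injective_id γ hγm hF S h ξ
  rw [show S.map ⟨id, injective_id⟩ = S from Finset.map_refl] at h1
  rw [h1]
  exact In_congr F h'

end map

section col

variable {ι κ E : Type*} [DecidableEq ι] [DecidableEq κ] [Fintype κ] [MeasurableSpace E]
  {ν : Measure E} [SigmaFinite ν]

/-- the field `ξ` with the column `x` replaced by `t` -/
def setCol (ξ : ι × κ → E) (x : ι) (t : κ → E) : ι × κ → E := fun p =>
  if p.1 = x then t p.2 else ξ p

lemma setCol_meas (ξ : ι × κ → E) (x : ι) : Measurable (setCol ξ x) := by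
  refine measurable_pi_lambda _ fun p => ?_
  unfold setCol
  by_cases h : p.1 = x
  · simp only [h, if_true]; exact measurable_pi_apply _
  · simp only [h, if_false]; exact measurable_const

/-- integral over one column -/
lemma In_one_col (x : ι) {h : (ι × κ → E) → ℝ≥0∞} (hh : Measurable h) (ξ : ι × κ → E) :
    In ν ({x} ×ˢ (Finset.univ : Finset κ)) h ξ =
      ∫⁻ t : κ → E, h (setCol ξ x t) ∂(Measure.pi fun _ => ν) := by
  obtain ⟨e, he⟩ : ∃ e : κ → ι × κ, e = fun j => (x, j) := ⟨_, rfl⟩
  have hinj : Injective e := fun a b hab => by rw [he] at hab; simpa using hab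
  have hS : (Finset.univ : Finset κ).map ⟨e, hinj⟩ = {x} ×ˢ (Finset.univ : Finset κ) := by
    ext ⟨a, b⟩
    simp [he, eq_comm]
  have hF : Measurable fun t : κ → E => h (setCol ξ x t) := hh.comp (setCol_meas ξ x)
  have h1 := In_map (ν := ν) e hinj (fun η j => η (e j))
    (measurable_pi_lambda _ fun j => measurable_pi_apply _) hF Finset.univ ?_ ξ
  · rw [hS] at h1
    have h2 : In ν Finset.univ (fun t : κ → E => h (setCol ξ x t)) (fun j => ξ (e j)) =
        ∫⁻ t : κ → E, h (setCol ξ x t) ∂(Measure.pi fun _ => ν) := by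
      unfold In
      rw [lmarginal_univ]
    rw [← h2, ← h1]
    refine In_congr' fun φ hφ => ?_
    congr 1
    funext p
    unfold setCol
    by_cases hp : p.1 = x
    · rw [if_pos hp, he]
      simp [← hp]
    · rw [if_neg hp]
      exact hφ p fun h3 => hp (by simpa using (Finset.mem_product.1 h3).1)
  · intro j _ ζ
    refine ⟨id, MeasurePreserving.id ν, fun t => ?_⟩
    funext i
    by_cases hi : i = j
    · subst hi
      simp
    · rw [update_of_ne hi, update_of_ne fun h3 => hi (hinj h3)]

/-- the integral over the variables in some columns is the iterated integral over the columns -/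
lemma In_col (V : Finset ι) {F : (ι → κ → E) → ℝ≥0∞} (hF : Measurable F) :
    ∀ ξ : ι × κ → E, In ν (V ×ˢ (Finset.univ : Finset κ)) (fun η => F fun x j => η (x, j)) ξ =
      In (Measure.pi fun _ : κ => ν) V F (fun x j => ξ (x, j)) := by
  have hm : Measurable fun η : ι × κ → E => F fun x j => η (x, j) :=
    hF.comp (measurable_pi_lambda _ fun x => measurable_pi_lambda _ fun j => measurable_pi_apply _)
  induction V using Finset.induction_on with
  | empty =>
    intro ξ
    simp [In]
  | insert x V hx ih =>
    intro ξ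
    have h1 : (insert x V) ×ˢ (Finset.univ : Finset κ) =
        ({x} ×ˢ Finset.univ) ∪ (V ×ˢ Finset.univ) := by
      rw [Finset.insert_eq, Finset.union_product]
    have h2 : Disjoint (({x} : Finset ι) ×ˢ (Finset.univ : Finset κ)) (V ×ˢ Finset.univ) := by
      rw [Finset.disjoint_left]
      intro p h3 h4
      have h5 : p.1 = x := by simpa using (Finset.mem_product.1 h3).1
      exact hx (h5 ▸ (Finset.mem_product.1 h4).1)
    rw [h1, In_union h2 hm, In_one_col x (In_meas hm), In_insert hx hF]
    refine lintegral_congr fun t => ?_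
    rw [ih]
    congr 1
    funext y j
    unfold setCol
    by_cases hy : y = x
    · subst hy
      simp
    · simp [hy]

end col

end

end Pool.Agent.N986.SL
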