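import Pool.Agent.N986.SL.Real

/-!
# Lattice gauge theory in a slab: the main theorem, given the decay of the influence of the boundary
condition in the axial gauge
-/

set_option autoImplicit false
set_option linter.unusedSectionVars false
set_option linter.unusedVariables false

open MeasureTheory Finset Function Filter Topology
open scoped ENNReal NNReal

namespace Pool.Agent.N986.SL

open Pool.Agent.N986.PB

noncomputable section

variable {D L : ℕ} {G : Type*} [Group G] [TopologicalSpace G] [IsTopologicalGroup G]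
  [CompactSpace G] [T2Space G] [SecondCountableTopology G] [MeasurableSpace G] [BorelSpace G]
  {μ : Measure G} [IsProbabilityMeasure μ] [μ.IsMulLeftInvariant] [μ.IsMulRightInvariant]
  {χ : G → ℝ} {β m C : ℝ}

/-- all links of the columns `V` -/
def cols (L : ℕ) (V : Finset (Fin D → ℤ)) : Finset (Link D L) := V ×ˢ Finset.univ

lemma mem_cols {V : Finset (Fin D → ℤ)} {l : Link D L} : l ∈ cols L V ↔ l.1 ∈ V := by
  unfold cols
  rw [Finset.mem_product]
  simp

lemma err_eq (hC : 0 ≤ C) (A : Finset (Fin D → ℤ)) (m : ℝ) (r : ℕ) :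
    err A m C r = ENNReal.ofReal (A.card * (C * Real.exp (-(m * r)))) := by
  unfold err
  rw [ENNReal.ofReal_mul (p := (A.card : ℝ)) (Nat.cast_nonneg _), ENNReal.ofReal_natCast]

lemma err_tendsto (hm : 0 < m) (hC : 0 ≤ C) (A : Finset (Fin D → ℤ)) :
    Tendsto (fun r : ℕ => err A m C r) atTop (𝓝 0) := by
  have h1 : Tendsto (fun r : ℕ => (A.card : ℝ) * (C * Real.exp (-(m * r)))) atTop (𝓝 0) := by
    have h2 : Tendsto (fun r : ℕ => Real.exp (-(m * r))) atTop (𝓝 0) := by
      refine Real.tendsto_exp_neg_atTop_nhds_zero.comp ?_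
      exact (tendsto_natCast_atTop_atTop (R := ℝ)).const_mul_atTop hm
    have h3 := (h2.const_mul C).const_mul (A.card : ℝ)
    simpa using h3
  have h4 := ENNReal.tendsto_ofReal h1
  rw [ENNReal.ofReal_zero] at h4
  refine h4.congr fun r => (err_eq hC A m r).symm

section abs

variable (hI : AxInfl D L μ χ β m C) (hC : 0 ≤ C) (hm : 0 < m) (hχ : Continuous χ)
  (hχi : ∀ a p : G, χ (a * p * a⁻¹) = χ p)
include hI hC hm hχ hχi

/-- comparison of two Gibbs measures -/
lemma compare {W W' : Set (Fin D → ℤ)} {P P' : Measure (Link D L → G)}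
    (hP : IsGibbs μ χ β W P) (hP' : IsGibbs μ χ β W' P') {V A : Finset (Fin D → ℤ)} {r : ℕ}
    (hVW : ∀ x ∈ V, x ∈ W) (hVW' : ∀ x ∈ V, x ∈ W') (hr : 2 ≤ r)
    (hA : ∀ a ∈ A, ∀ y ∉ V, r < dd a y) {F : (Link D L → G) → ℝ≥0∞} (hF : Measurable F)
    (hF1 : ∀ ξ, F ξ ≤ 1) (hFA : NoDep F {l | l.1 ∉ A}) :
    ∫⁻ U, F U ∂P ≤ ∫⁻ U, F U ∂P' + (err A m C r + err A m C r) := by
  refine (hP.le_bar hI hχi hχ.measurable hA hF hF1 hFA hVW hr).trans ?_
  rw [← add_assoc]
  exact add_le_add (hP'.bar_le hI hχi hχ.measurable hA hF hF1 hFA hVW' hr) le_rfl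

/-- **Uniqueness.** -/
theorem uniq {P P' : Measure (Link D L → G)} (hP : IsGibbs μ χ β Set.univ P)
    (hP' : IsGibbs μ χ β Set.univ P') : P = P' := by
  have := hP.prob
  have := hP'.prob
  have key : ∀ {P P' : Measure (Link D L → G)}, IsGibbs μ χ β Set.univ P →
      IsGibbs μ χ β Set.univ P' → ∀ {A : Finset (Fin D → ℤ)} {F : (Link D L → G) → ℝ≥0∞},
      Measurable F → (∀ ξ, F ξ ≤ 1) → NoDep F {l | l.1 ∉ A} →
      ∫⁻ U, F U ∂P ≤ ∫⁻ U, F U ∂P' := by
    intro P P' hP hP' A F hF hF1 hFA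
    have h1 : ∀ᶠ r : ℕ in atTop, ∫⁻ U, F U ∂P ≤
        ∫⁻ U, F U ∂P' + (err A m C r + err A m C r) := by
      filter_upwards [eventually_ge_atTop 2] with r hr
      obtain ⟨n, -, hn⟩ := exists_box A r
      exact compare hI hC hm hχ hχi hP hP' (V := box D n) (fun _ _ => Set.mem_univ _)
        (fun _ _ => Set.mem_univ _) hr hn hF hF1 hFA
    have h2 : Tendsto (fun r => ∫⁻ U, F U ∂P' + (err A m C r + err A m C r)) atTop
        (𝓝 (∫⁻ U, F U ∂P' + (0 + 0))) :=
      tendsto_const_nhds.add ((err_tendsto hm hC A).add (err_tendsto hm hC A))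
    rw [add_zero, add_zero] at h2
    exact ge_of_tendsto h2 h1
  refine ext_of_generate_finite (measurableCylinders fun _ : Link D L => G)
    generateFrom_measurableCylinders.symm isPiSystem_measurableCylinders (fun s hs => ?_)
    (by rw [measure_univ, measure_univ])
  obtain ⟨S, T, hT, rfl⟩ := (mem_measurableCylinders _).1 hs
  obtain ⟨A, hA⟩ : ∃ A : Finset (Fin D → ℤ), A = S.image fun l => l.1 := ⟨_, rfl⟩
  have hm1 : Measurable ((cylinder S T).indicator (1 : (Link D L → G) → ℝ≥0∞)) :=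
    measurable_one.indicator (MeasurableSet.cylinder S hT)
  have h1 : ∀ φ : Link D L → G, (cylinder S T).indicator (1 : (Link D L → G) → ℝ≥0∞) φ ≤ 1 :=
    fun φ => Set.indicator_le_self' (by simp) φ
  have hdep : NoDep ((cylinder S T).indicator (1 : (Link D L → G) → ℝ≥0∞)) {l | l.1 ∉ A} := by
    intro φ φ' hφ
    have h2 : (φ ∈ cylinder S T) ↔ (φ' ∈ cylinder S T) := by
      rw [mem_cylinder, mem_cylinder]
      have : S.restrict φ = S.restrict φ' := by
        funext i
        refine hφ i fun h3 => h3 ?_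
        rw [hA]
        exact Finset.mem_image_of_mem _ i.2
      rw [this]
    by_cases h3 : φ ∈ cylinder S T
    · rw [Set.indicator_of_mem h3, Set.indicator_of_mem (h2.1 h3)]; rfl
    · rw [Set.indicator_of_notMem h3, Set.indicator_of_notMem fun h4 => h3 (h2.2 h4)]
  have h4 := le_antisymm (key hP hP' hm1 h1 hdep) (key hP' hP hm1 h1 hdep)
  rwa [lintegral_indicator_one (MeasurableSet.cylinder S hT),
    lintegral_indicator_one (MeasurableSet.cylinder S hT)] at h4

omit [CompactSpace G] [T2Space G] [SecondCountableTopology G] [IsProbabilityMeasure μ]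
  [μ.IsMulLeftInvariant] [μ.IsMulRightInvariant] hI hC hm hχ hχi [TopologicalSpace G]
  [IsTopologicalGroup G] [BorelSpace G] in
/-- rescaling to the unit interval -/
lemma half {P : Measure (Link D L → G)} [IsProbabilityMeasure P] {F : (Link D L → G) → ℝ}
    (hF : Measurable F) (hF1 : ∀ U, |F U| ≤ 1) :
    ∫⁻ U, ENNReal.ofReal ((F U + 1) / 2) ∂P = ENNReal.ofReal ((∫ U, F U ∂P + 1) / 2) := by
  have hFi : Integrable F P := Integrable.of_bound (C := 1) hF.aestronglyMeasurable
    (Eventually.of_forall hF1)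
  have h0 : ∀ U, 0 ≤ (F U + 1) / 2 := fun U => by have := (abs_le.1 (hF1 U)).1; linarith
  have hi : Integrable (fun U => (F U + 1) / 2) P := (hFi.add (integrable_const 1)).div_const 2
  rw [← ofReal_integral_eq_lintegral_ofReal hi (Eventually.of_forall h0), integral_div,
    integral_add hFi (integrable_const 1)]
  simp

omit [CompactSpace G] [T2Space G] [SecondCountableTopology G] [IsProbabilityMeasure μ]
  [μ.IsMulLeftInvariant] [μ.IsMulRightInvariant] hI hC hm hχ hχi [TopologicalSpace G]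
  [IsTopologicalGroup G] [BorelSpace G] in
lemma int_abs_le {P : Measure (Link D L → G)} [IsProbabilityMeasure P] {F : (Link D L → G) → ℝ}
    (hF1 : ∀ U, |F U| ≤ 1) : |∫ U, F U ∂P| ≤ 1 := by
  have h := norm_integral_le_of_norm_le_const (μ := P) (f := F) (C := 1)
    (Eventually.of_forall fun U => hF1 U)
  simpa using h

/-- real valued comparison -/
lemma compare_real {W W' : Set (Fin D → ℤ)} {P P' : Measure (Link D L → G)}
    (hP : IsGibbs μ χ β W P) (hP' : IsGibbs μ χ β W' P') {V A : Finset (Fin D → ℤ)} {r : ℕ}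
    (hVW : ∀ x ∈ V, x ∈ W) (hVW' : ∀ x ∈ V, x ∈ W')
    (hA : ∀ a ∈ A, ∀ y ∉ V, r ≤ dd a y) {F : (Link D L → G) → ℝ} (hF : Measurable F)
    (hF1 : ∀ U, |F U| ≤ 1) (hFA : ∀ U U' : Link D L → G, (∀ l : Link D L, l.1 ∈ A → U l = U' l) → F U = F U') :
    ∫ U, F U ∂P - ∫ U, F U ∂P' ≤
      (4 * C * Real.exp m + 2 * Real.exp (2 * m)) * A.card * Real.exp (-(m * r)) := by
  have := hP.prob
  have := hP'.prob
  have e1 := abs_le.1 (int_abs_le (P := P) hF1)
  have e2 := abs_le.1 (int_abs_le (P := P') hF1)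
  rcases A.eq_empty_or_nonempty with hAe | hAe
  · have h1 : ∀ U, F U = F fun _ => 1 := fun U => hFA _ _ (by simp [hAe])
    have h2 : ∫ U, F U ∂P - ∫ U, F U ∂P' = 0 := by
      rw [integral_congr_ae (Eventually.of_forall h1),
        integral_congr_ae (μ := P') (Eventually.of_forall h1)]
      simp
    rw [h2]
    positivity
  have hcard : (1 : ℝ) ≤ A.card := by exact_mod_cast hAe.card_pos
  have hexm : 0 < Real.exp m := Real.exp_pos _
  rcases Nat.lt_or_ge r 3 with hr | hr
  · have h1 : (2 : ℝ) ≤ 2 * Real.exp (2 * m) * 1 * Real.exp (-(m * r)) := by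
      rw [mul_one, mul_assoc, ← Real.exp_add]
      have h2 : (r : ℝ) ≤ 2 := by exact_mod_cast Nat.lt_succ_iff.1 hr
      have h3 : 0 ≤ 2 * m + -(m * r) := by nlinarith
      have := Real.one_le_exp h3
      linarith
    have h4 : 2 * Real.exp (2 * m) * 1 * Real.exp (-(m * r)) ≤
        (4 * C * Real.exp m + 2 * Real.exp (2 * m)) * A.card * Real.exp (-(m * r)) := by
      gcongr
      have : 0 ≤ 4 * C * Real.exp m := by positivity
      linarith
    linarith [e1.2, e2.1]
  · obtain ⟨q, hq⟩ : ∃ q, r = q + 1 := ⟨r - 1, by omega⟩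
    have hm1 : Measurable fun U => ENNReal.ofReal ((F U + 1) / 2) :=
      ENNReal.measurable_ofReal.comp ((hF.add_const 1).div_const 2)
    have h1 := compare hI hC hm hχ hχi hP hP' hVW hVW' (r := q) (by omega)
      (fun a ha y hy => by have := hA a ha y hy; omega) hm1 (fun U => by
        rw [← ENNReal.ofReal_one]
        refine ENNReal.ofReal_le_ofReal ?_
        have := (abs_le.1 (hF1 U)).2
        linarith) (fun U U' h => by
        show ENNReal.ofReal ((F U + 1) / 2) = ENNReal.ofReal ((F U' + 1) / 2)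
        rw [hFA U U' fun l hl => h l fun h2 => h2 hl])
    rw [half hF hF1, half hF hF1, err_eq hC, ← ENNReal.ofReal_add (by positivity) (by positivity),
      ← ENNReal.ofReal_add (by linarith [e2.1]) (by positivity)] at h1
    have h2 := (ENNReal.ofReal_le_ofReal_iff (by
      have : 0 ≤ (A.card : ℝ) * (C * Real.exp (-(m * q))) := by positivity
      linarith [e2.1])).1 h1
    have h3 : Real.exp (-(m * q)) = Real.exp m * Real.exp (-(m * r)) := by
      rw [← Real.exp_add, hq]
      congr 1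
      push_cast
      ring
    rw [h3] at h2
    have h4 : 0 ≤ 2 * Real.exp (2 * m) * A.card * Real.exp (-(m * r)) := by positivity
    nlinarith

/-- **Clustering**, real valued observables. -/
lemma cluster_real {P : Measure (Link D L → G)} (hP : IsGibbs μ χ β Set.univ P)
    {A B : Finset (Fin D → ℤ)} {r : ℕ}
    (hAB : ∀ a ∈ A, ∀ y ∈ B, r ≤ dd a y) {F F' : (Link D L → G) → ℝ} (hF : Measurable F)
    (hF' : Measurable F') (hF1 : ∀ U, |F U| ≤ 1) (hF1' : ∀ U, |F' U| ≤ 1)
    (hFA : ∀ U U' : Link D L → G, (∀ l : Link D L, l.1 ∈ A → U l = U' l) → F U = F U')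
    (hFB : ∀ U U' : Link D L → G, (∀ l : Link D L, l.1 ∈ B → U l = U' l) → F' U = F' U') :
    |∫ U, F' U * F U ∂P - (∫ U, F' U ∂P) * ∫ U, F U ∂P| ≤
      (8 * C * Real.exp m + 2 * Real.exp (2 * m)) * A.card * Real.exp (-(m * r)) := by
  have := hP.prob
  have e1 := abs_le.1 (int_abs_le (P := P) hF1)
  have e2 := abs_le.1 (int_abs_le (P := P) hF1')
  have hFF : ∀ U, |F' U * F U| ≤ 1 := fun U => by
    rw [abs_mul]
    calc |F' U| * |F U| ≤ 1 * 1 := mul_le_mul (hF1' U) (hF1 U) (abs_nonneg _) zero_le_one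
      _ = 1 := one_mul _
  have e3 := abs_le.1 (int_abs_le (P := P) hFF)
  have hFi : Integrable F P := Integrable.of_bound (C := 1) hF.aestronglyMeasurable
    (Eventually.of_forall hF1)
  have hFi' : Integrable F' P := Integrable.of_bound (C := 1) hF'.aestronglyMeasurable
    (Eventually.of_forall hF1')
  have hFFi : Integrable (fun U => F' U * F U) P := Integrable.of_bound (C := 1)
    (hF'.mul hF).aestronglyMeasurable (Eventually.of_forall hFF)
  rcases A.eq_empty_or_nonempty with hAe | hAe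
  · have h1 : ∀ U, F U = F fun _ => 1 := fun U => hFA _ _ (by simp [hAe])
    have h2 : ∫ U, F' U * F U ∂P - (∫ U, F' U ∂P) * ∫ U, F U ∂P = 0 := by
      rw [integral_congr_ae (Eventually.of_forall h1), integral_congr_ae
        (Eventually.of_forall fun U => show F' U * F U = F' U * F fun _ => 1 by rw [h1 U]),
        integral_mul_const]
      simp
    rw [h2, abs_zero]
    positivity
  have hcard : (1 : ℝ) ≤ A.card := by exact_mod_cast hAe.card_pos
  have hexm : 0 < Real.exp m := Real.exp_pos _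
  rcases Nat.lt_or_ge r 3 with hr | hr
  · have h1 : (2 : ℝ) ≤ 2 * Real.exp (2 * m) * 1 * Real.exp (-(m * r)) := by
      rw [mul_one, mul_assoc, ← Real.exp_add]
      have h2 : (r : ℝ) ≤ 2 := by exact_mod_cast Nat.lt_succ_iff.1 hr
      have h3 : 0 ≤ 2 * m + -(m * r) := by nlinarith
      have := Real.one_le_exp h3
      linarith
    have h4 : 2 * Real.exp (2 * m) * 1 * Real.exp (-(m * r)) ≤
        (8 * C * Real.exp m + 2 * Real.exp (2 * m)) * A.card * Real.exp (-(m * r)) := by
      gcongr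
      have : 0 ≤ 8 * C * Real.exp m := by positivity
      linarith
    have h5 : |(∫ U, F' U ∂P) * ∫ U, F U ∂P| ≤ 1 := by
      rw [abs_mul]
      calc |∫ U, F' U ∂P| * |∫ U, F U ∂P| ≤ 1 * 1 :=
            mul_le_mul (int_abs_le hF1') (int_abs_le hF1) (abs_nonneg _) zero_le_one
        _ = 1 := one_mul _
    have h6 := int_abs_le (P := P) hFF
    have h7 := abs_sub (∫ U, F' U * F U ∂P) ((∫ U, F' U ∂P) * ∫ U, F U ∂P)
    linarith
  · obtain ⟨q, hq⟩ : ∃ q, r = q + 1 := ⟨r - 1, by omega⟩
    obtain ⟨n, hn, hn'⟩ := exists_box A q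
    obtain ⟨V, hV⟩ : ∃ V, V = box D n \ B := ⟨_, rfl⟩
    have hAV : ∀ a ∈ A, ∀ y ∉ V, q < dd a y := by
      intro a ha y hy
      by_cases hyB : y ∈ B
      · have := hAB a ha y hyB
        omega
      · exact hn' a ha y fun h => hy (by rw [hV]; exact Finset.mem_sdiff.2 ⟨h, hyB⟩)
    have hm1 : Measurable fun U => ENNReal.ofReal ((F U + 1) / 2) :=
      ENNReal.measurable_ofReal.comp ((hF.add_const 1).div_const 2)
    have hm2 : Measurable fun U => ENNReal.ofReal ((F' U + 1) / 2) :=
      ENNReal.measurable_ofReal.comp ((hF'.add_const 1).div_const 2)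
    obtain ⟨b, hb⟩ := bdd_cont hχ
    have hle : ∀ {x : ℝ}, |x| ≤ 1 → ENNReal.ofReal ((x + 1) / 2) ≤ 1 := by
      intro x hx
      rw [← ENNReal.ofReal_one]
      refine ENNReal.ofReal_le_ofReal ?_
      have := (abs_le.1 hx).2
      linarith
    have h1 := hP.cluster hI hχi hχ.measurable hAV hm1 (fun U => hle (hF1 U)) (fun U U' h => by
        show ENNReal.ofReal ((F U + 1) / 2) = ENNReal.ofReal ((F U' + 1) / 2)
        rw [hFA U U' fun l hl => h l fun h2 => h2 hl]) (fun _ _ => Set.mem_univ _)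
        (by omega : 2 ≤ q) hb (B := B)
        (fun x hx hxV => by rw [hV] at hxV; exact (Finset.mem_sdiff.1 hxV).2 hx) hm2
        (fun U => hle (hF1' U)) (fun U U' h => by
        show ENNReal.ofReal ((F' U + 1) / 2) = ENNReal.ofReal ((F' U' + 1) / 2)
        rw [hFB U U' fun l hl => h l fun h2 => h2 hl])
    have h0 : ∀ {x : ℝ}, |x| ≤ 1 → 0 ≤ (x + 1) / 2 := by
      intro x hx
      have := (abs_le.1 hx).1
      linarith
    obtain ⟨I, hI'⟩ : ∃ I, I = ∫ U, F U ∂P := ⟨_, rfl⟩
    obtain ⟨I', hI''⟩ : ∃ I', I' = ∫ U, F' U ∂P := ⟨_, rfl⟩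
    obtain ⟨J, hJ⟩ : ∃ J, J = ∫ U, F' U * F U ∂P := ⟨_, rfl⟩
    have hS2 : Integrable (fun U => F' U * F U + F' U) P := hFFi.add hFi'
    have hS3 : Integrable (fun U => F' U * F U + F' U + F U) P := hS2.add hFi
    have hS4 : Integrable (fun U => F' U * F U + F' U + F U + 1) P :=
      hS3.add (integrable_const 1)
    have hint : ∫ U, (F' U * F U + F' U + F U + 1) ∂P = J + I' + I + 1 := by
      rw [integral_add hS3 (integrable_const 1), integral_add hS2 hFi, integral_add hFFi hFi', hJ,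
        hI', hI'']
      simp
    have h2 : ∫⁻ U, ENNReal.ofReal ((F' U + 1) / 2) * ENNReal.ofReal ((F U + 1) / 2) ∂P =
        ENNReal.ofReal ((J + I' + I + 1) / 4) := by
      have h3 : ∀ U, ENNReal.ofReal ((F' U + 1) / 2) * ENNReal.ofReal ((F U + 1) / 2) =
          ENNReal.ofReal ((F' U * F U + F' U + F U + 1) / 4) := by
        intro U
        rw [← ENNReal.ofReal_mul (h0 (hF1' U))]
        congr 1
        ring
      simp only [h3]
      rw [← ofReal_integral_eq_lintegral_ofReal]
      · rw [integral_div, hint]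
      · exact hS4.div_const 4
      · refine Eventually.of_forall fun U => ?_
        have h4 := h0 (hF1' U)
        have h5 := h0 (hF1 U)
        have h6 : (F' U * F U + F' U + F U + 1) / 4 = (F' U + 1) / 2 * ((F U + 1) / 2) := by ring
        show 0 ≤ (F' U * F U + F' U + F U + 1) / 4
        rw [h6]
        exact mul_nonneg h4 h5
    obtain ⟨e, he⟩ : ∃ e, e = (A.card : ℝ) * (C * Real.exp (-(m * q))) := ⟨_, rfl⟩
    have he0 : 0 ≤ e := by rw [he]; positivity
    rw [h2, half hF hF1, half hF' hF1', ← hI', ← hI'', err_eq hC, ← he,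
      ← ENNReal.ofReal_add he0 he0] at h1
    have hIb : |I| ≤ 1 := hI' ▸ int_abs_le hF1
    have hIb' : |I'| ≤ 1 := hI'' ▸ int_abs_le hF1'
    have hJ0 : 0 ≤ (J + I' + I + 1) / 4 := by
      have h7 : (J + I' + I + 1) / 4 = ∫ U, (F' U + 1) / 2 * ((F U + 1) / 2) ∂P := by
        have h8 : ∀ U, (F' U + 1) / 2 * ((F U + 1) / 2) = (F' U * F U + F' U + F U + 1) / 4 :=
          fun U => by ring
        simp only [h8]
        rw [integral_div, hint]
      rw [h7]
      exact integral_nonneg fun U => mul_nonneg (h0 (hF1' U)) (h0 (hF1 U))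
    have hp0 : 0 ≤ (I' + 1) / 2 * ((I + 1) / 2) := mul_nonneg (h0 hIb') (h0 hIb)
    rw [← ENNReal.ofReal_mul (h0 hIb'), ← ENNReal.ofReal_add hp0 (by linarith),
      ← ENNReal.ofReal_add hJ0 (by linarith)] at h1
    have h8 := (ENNReal.ofReal_le_ofReal_iff (by linarith)).1 h1.1
    have h9 := (ENNReal.ofReal_le_ofReal_iff (by linarith)).1 h1.2
    have h10 : Real.exp (-(m * q)) = Real.exp m * Real.exp (-(m * r)) := by
      rw [← Real.exp_add, hq]
      congr 1
      push_cast
      ring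
    have h11 : e = C * Real.exp m * A.card * Real.exp (-(m * r)) := by rw [he, h10]; ring
    have h12 : 0 ≤ 2 * Real.exp (2 * m) * A.card * Real.exp (-(m * r)) := by positivity
    rw [← hJ, ← hI', ← hI'', abs_le]
    constructor
    · nlinarith
    · nlinarith

/-- **The main theorem**, given the decay of the influence of the boundary condition in the axial
gauge. -/
theorem main : ∃ P : Measure (Link D L → G), Dlr μ χ β P ∧
    (∀ P' : Measure (Link D L → G), Dlr μ χ β P' → P' = P) ∧
    (∀ (V A : Finset (Fin D → ℤ)) (r : ℕ), (∀ a ∈ A, ∀ y ∉ V, r ≤ dd a y) →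
      ∀ F : (Link D L → G) → ℝ, Measurable F → (∀ U, |F U| ≤ 1) →
      (∀ U U' : Link D L → G, (∀ l : Link D L, l.1 ∈ A → U l = U' l) → F U = F U') →
      ∀ U : Link D L → G, |expect μ χ β (cols L V) U F - ∫ U, F U ∂P| ≤
        (8 * C * Real.exp m + 2 * Real.exp (2 * m)) * A.card * Real.exp (-(m * r))) ∧
    ∀ (A B : Finset (Fin D → ℤ)) (r : ℕ), (∀ a ∈ A, ∀ y ∈ B, r ≤ dd a y) →
      ∀ F F' : (Link D L → G) → ℝ, Measurable F → Measurable F' → (∀ U, |F U| ≤ 1) →
      (∀ U, |F' U| ≤ 1) →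
      (∀ U U' : Link D L → G, (∀ l : Link D L, l.1 ∈ A → U l = U' l) → F U = F U') →
      (∀ U U' : Link D L → G, (∀ l : Link D L, l.1 ∈ B → U l = U' l) → F' U = F' U') →
      |∫ U, F' U * F U ∂P - (∫ U, F' U ∂P) * ∫ U, F U ∂P| ≤
        (8 * C * Real.exp m + 2 * Real.exp (2 * m)) * A.card * Real.exp (-(m * r)) := by
  obtain ⟨P, hP⟩ := exists_full (D := D) (L := L) μ hχ β
  refine ⟨P, hP.dlr' hχ, fun P' hP' => uniq hI hC hm hχ hχi (hP'.gibbs hχ) hP,
    fun V A r hA F hF hF1 hFA U => ?_, fun A B r hAB F F' hF hF' hF1 hF1' hFA hFB =>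
    cluster_real hI hC hm hχ hχi hP hAB hF hF' hF1 hF1' hFA hFB⟩
  have := hP.prob
  have hK : IsGibbs μ χ β (V : Set (Fin D → ℤ)) (ker μ (EM χ β) (cols L V) U) :=
    fin_gibbs hχ β (cols L V) U fun l hl => mem_cols.2 hl
  have := hK.prob
  have h1 : expect μ χ β (cols L V) U F = ∫ U', F U' ∂(ker μ (EM χ β) (cols L V) U) := by
    have h2 := half (P := ker μ (EM χ β) (cols L V) U) hF hF1
    have h0 : ∀ V, 0 ≤ (F V + 1) / 2 := fun V => by have := (abs_le.1 (hF1 V)).1; linarith
    have hF2 : Measurable fun V => F V / 2 := hF.div_const 2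
    have hF2b : ∀ V, |F V / 2| ≤ 1 := fun V => by
      rw [abs_div, abs_of_pos (by norm_num : (0 : ℝ) < 2)]
      have := hF1 V
      linarith
    rw [(EM_cons (D := D) (L := L) hχ β).lintegral_ker (cols L V) U
      (F := fun V => ENNReal.ofReal ((F V + 1) / 2))
      (ENNReal.measurable_ofReal.comp ((hF.add_const 1).div_const 2)), ← wt_eq,
      ← ofReal_expect hχ β (cols L V) U ((hF.add_const 1).div_const 2) h0 (c := 1) (fun V => by
        rw [abs_of_nonneg (h0 V)]
        have := (abs_le.1 (hF1 V)).2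
        linarith)] at h2
    have h3 : expect μ χ β (cols L V) U (fun V => (F V + 1) / 2) =
        (expect μ χ β (cols L V) U F + 1) / 2 := by
      have h4 : (fun V => (F V + 1) / 2) = fun V => F V / 2 + 1 / 2 := by
        funext V; ring
      rw [h4, expect_add hχ β _ U hF2 hF2b]
      have h5 : expect μ χ β (cols L V) U (fun V => F V / 2) =
          expect μ χ β (cols L V) U F / 2 := by
        unfold expect
        rw [div_right_comm]
        congr 1
        rw [← integral_div]
        refine integral_congr_ae (Eventually.of_forall fun y => ?_)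
        show F (patch (cols L V) y U) / 2 * _ = _
        ring
      rw [h5]
      ring
    rw [h3] at h2
    have h6 := expect_bdd (μ := μ) hχ β (cols L V) U hF hF1
    have h7 := int_abs_le (P := ker μ (EM χ β) (cols L V) U) hF1
    have h8 := (ENNReal.ofReal_eq_ofReal_iff (by have := (abs_le.1 h6).1; linarith)
      (by have := (abs_le.1 h7).1; linarith)).1 h2
    linarith
  rw [h1, abs_le]
  have hVV : ∀ x ∈ V, x ∈ (V : Set (Fin D → ℤ)) := fun x hx => hx
  have h2 := compare_real hI hC hm hχ hχi hP hK (V := V) (fun _ _ => Set.mem_univ _) hVV hA hF hF1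
    hFA
  have h3 := compare_real hI hC hm hχ hχi hK hP (V := V) hVV (fun _ _ => Set.mem_univ _) hA hF hF1
    hFA
  have h4 : (4 * C * Real.exp m + 2 * Real.exp (2 * m)) * A.card * Real.exp (-(m * r)) ≤
      (8 * C * Real.exp m + 2 * Real.exp (2 * m)) * A.card * Real.exp (-(m * r)) := by
    have : 0 ≤ C * Real.exp m := by positivity
    gcongr
    norm_num
  constructor
  · linarith
  · linarith

end abs

end

end Pool.Agent.N986.SL
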