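import Pool.Agent.N986.SL.Lm

/-!
# Lattice gauge theory in a slab: the model, gauge transformations, gauge fixing
-/

set_option autoImplicit false
set_option linter.unusedSectionVars false
set_option linter.unusedVariables false

open MeasureTheory Finset Function
open scoped ENNReal

namespace Pool.Agent.N986.SL

open Pool.Agent.N986.PB

noncomputable section

/-- Links of the slab `ℤ^D × {0, ..., L}` which are not in the wall: `(x, some i, s)` is the
horizontal link from `(x, s + 1)` to `(x + e_i, s + 1)`, and `(x, none, s)` is the vertical link from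
`(x, s)` to `(x, s + 1)`. -/
abbrev Link (D L : ℕ) := (Fin D → ℤ) × Option (Fin D) × Fin L

/-- unit vector -/
def e {D : ℕ} (i : Fin D) : Fin D → ℤ := Pi.single i 1

lemma e_ne {D : ℕ} (i : Fin D) : e i ≠ 0 := fun h => by
  have := congrFun h i
  simp [e] at this

lemma add_e_ne {D : ℕ} (x : Fin D → ℤ) (i : Fin D) : x + e i ≠ x := fun h => e_ne i (by simpa using h)

variable {D L : ℕ} {G : Type*} [Group G]

/-- The link variable of the horizontal link in the direction `i` at `x` at height `s`; it is `1` in
the wall `s = 0`. -/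
def low (U : Link D L → G) (x : Fin D → ℤ) (i : Fin D) (s : Fin L) : G :=
  if (s : ℕ) = 0 then 1 else U (x, some i, ⟨(s : ℕ) - 1, by omega⟩)

/-- The product of the link variables around the vertical plaquette based at `(x, s)`. -/
def plaqV (U : Link D L → G) (x : Fin D → ℤ) (i : Fin D) (s : Fin L) : G :=
  low U x i s * U (x + e i, none, s) * (U (x, some i, s))⁻¹ * (U (x, none, s))⁻¹

/-- The product of the link variables around the horizontal plaquette based at `(x, s + 1)`. -/
def plaqH (U : Link D L → G) (x : Fin D → ℤ) (i j : Fin D) (s : Fin L) : G :=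
  U (x, some i, s) * U (x + e i, some j, s) * (U (x + e j, some i, s))⁻¹ * (U (x, some j, s))⁻¹

/-- The energy of the plaquettes based in the column of `x`. -/
def dens (χ : G → ℝ) (U : Link D L → G) (x : Fin D → ℤ) : ℝ :=
  ∑ s : Fin L, ∑ i : Fin D, (χ (plaqV U x i s) +
    ∑ j : Fin D, if i < j then χ (plaqH U x i j s) else 0)

/-- The columns with a plaquette which contains a link of `M`. -/
def base (M : Finset (Link D L)) : Finset (Fin D → ℤ) :=
  M.image (fun l => l.1) ∪ Finset.univ.biUnion fun i : Fin D => M.image fun l => l.1 - e i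

lemma mem_base {M : Finset (Link D L)} {x : Fin D → ℤ} :
    x ∈ base M ↔ (∃ l ∈ M, l.1 = x) ∨ ∃ i : Fin D, ∃ l ∈ M, l.1 = x + e i := by
  unfold base
  simp only [Finset.mem_union, Finset.mem_image, Finset.mem_biUnion, Finset.mem_univ, true_and,
    sub_eq_iff_eq_add]

/-- The weight of the links `M` given the other links. -/
def wt (χ : G → ℝ) (β : ℝ) (M : Finset (Link D L)) (U : Link D L → G) : ℝ≥0∞ :=
  ENNReal.ofReal (Real.exp (-(β * ∑ x ∈ base M, dens χ U x)))

/-- Gauge transformation. -/
def gt (g : (Fin D → ℤ) → ℕ → G) (U : Link D L → G) : Link D L → G := fun l =>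
  match l with
  | (x, none, s) => g x s * U (x, none, s) * (g x (s + 1))⁻¹
  | (x, some i, s) => g x (s + 1) * U (x, some i, s) * (g (x + e i) (s + 1))⁻¹

section gauge

variable (g : (Fin D → ℤ) → ℕ → G) (hg : ∀ x, g x 0 = 1) (U : Link D L → G)

lemma low_gt (hg : ∀ x, g x 0 = 1) (x : Fin D → ℤ) (i : Fin D) (s : Fin L) :
    low (gt g U) x i s = g x s * low U x i s * (g (x + e i) s)⁻¹ := by
  unfold low
  by_cases h : (s : ℕ) = 0
  · rw [if_pos h, if_pos h, h, hg, hg]; simp
  · rw [if_neg h, if_neg h]
    show g x ((s : ℕ) - 1 + 1) * _ * (g (x + e i) ((s : ℕ) - 1 + 1))⁻¹ = _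
    rw [Nat.sub_add_cancel (Nat.one_le_iff_ne_zero.2 h)]

lemma plaqV_gt (hg : ∀ x, g x 0 = 1) (x : Fin D → ℤ) (i : Fin D) (s : Fin L) :
    plaqV (gt g U) x i s = g x s * plaqV U x i s * (g x s)⁻¹ := by
  unfold plaqV
  rw [low_gt g U hg]
  simp only [gt]
  group

lemma plaqH_gt (x : Fin D → ℤ) (i j : Fin D) (s : Fin L) :
    plaqH (gt g U) x i j s = g x (s + 1) * plaqH U x i j s * (g x (s + 1))⁻¹ := by
  unfold plaqH
  simp only [gt]
  rw [add_right_comm x (e i) (e j)]
  group

variable {χ : G → ℝ} (hχ : ∀ a p : G, χ (a * p * a⁻¹) = χ p)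

lemma dens_gt (hg : ∀ x, g x 0 = 1) (hχ : ∀ a p : G, χ (a * p * a⁻¹) = χ p) (x : Fin D → ℤ) :
    dens χ (gt g U) x = dens χ U x := by
  unfold dens
  simp only [plaqV_gt g U hg, plaqH_gt g U, hχ]

lemma wt_gt (hg : ∀ x, g x 0 = 1) (hχ : ∀ a p : G, χ (a * p * a⁻¹) = χ p) (β : ℝ)
    (M : Finset (Link D L)) : wt χ β M (gt g U) = wt χ β M U := by
  unfold wt
  simp only [dens_gt g U hg hχ]

end gauge

/-- The product of the vertical link variables of the column `x` from the wall to the height `s`. -/
def hv (U : Link D L → G) (x : Fin D → ℤ) : ℕ → G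
  | 0 => 1
  | s + 1 => hv U x s * if h : s < L then U (x, none, ⟨s, h⟩) else 1

/-- The horizontal field in the axial gauge. -/
def ax (U : Link D L → G) (x : Fin D → ℤ) (a : Fin D × Fin L) : G :=
  hv U x (a.2 + 1) * U (x, some a.1, a.2) * (hv U (x + e a.1) (a.2 + 1))⁻¹

/-- The field with the given horizontal link variables and with trivial vertical link variables. -/
def emb (φ : (Fin D → ℤ) → Fin D × Fin L → G) : Link D L → G := fun l =>
  match l with
  | (_, none, _) => 1
  | (x, some i, s) => φ x (i, s)

lemma gt_hv (U : Link D L → G) : gt (hv U) U = emb (ax U) := by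
  funext ⟨x, o, s⟩
  cases o with
  | none =>
    show hv U x s * U (x, none, s) * (hv U x (s + 1))⁻¹ = 1
    have h : hv U x (s + 1) = hv U x s * U (x, none, s) := by
      show hv U x s * (if h : (s : ℕ) < L then U (x, none, ⟨s, h⟩) else 1) = _
      rw [dif_pos s.2]
    rw [h, mul_inv_cancel]
  | some i => rfl

/-- The energy in the axial gauge. -/
lemma dens_ax {χ : G → ℝ} (hχ : ∀ a p : G, χ (a * p * a⁻¹) = χ p) (U : Link D L → G)
    (x : Fin D → ℤ) : dens χ U x = dens χ (emb (ax U)) x := by
  rw [← gt_hv, dens_gt _ _ (fun _ => rfl) hχ]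

/-- The dependence of the energy density -/
lemma dens_congr (χ : G → ℝ) {U U' : Link D L → G} {x : Fin D → ℤ}
    (h : ∀ l : Link D L, (l.1 = x ∨ ∃ i, l.1 = x + e i) → U l = U' l) :
    dens χ U x = dens χ U' x := by
  have h0 : ∀ o s, U (x, o, s) = U' (x, o, s) := fun o s => h _ (Or.inl rfl)
  have h1 : ∀ i o s, U (x + e i, o, s) = U' (x + e i, o, s) := fun i o s => h _ (Or.inr ⟨i, rfl⟩)
  unfold dens plaqV plaqH low
  simp only [h0, h1]

section meas

variable [MeasurableSpace G] [MeasurableMul₂ G] [MeasurableInv G]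

lemma low_meas (x : Fin D → ℤ) (i : Fin D) (s : Fin L) :
    Measurable fun U : Link D L → G => low U x i s := by
  unfold low
  by_cases h : (s : ℕ) = 0
  · simp only [h, if_true]; exact measurable_const
  · simp only [h, if_false]; exact measurable_pi_apply _

lemma plaqV_meas (x : Fin D → ℤ) (i : Fin D) (s : Fin L) :
    Measurable fun U : Link D L → G => plaqV U x i s := by
  unfold plaqV
  exact (((low_meas x i s).mul (measurable_pi_apply _)).mul (measurable_pi_apply _).inv).mul
    (measurable_pi_apply _).inv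

lemma plaqH_meas (x : Fin D → ℤ) (i j : Fin D) (s : Fin L) :
    Measurable fun U : Link D L → G => plaqH U x i j s := by
  have h : ∀ l : Link D L, Measurable fun U : Link D L → G => U l := fun l => measurable_pi_apply l
  unfold plaqH
  exact (((h _).mul (h _)).mul (h _).inv).mul (h _).inv

lemma dens_meas {χ : G → ℝ} (hχ : Measurable χ) (x : Fin D → ℤ) :
    Measurable fun U : Link D L → G => dens χ U x := by
  unfold dens
  refine Finset.measurable_fun_sum _ fun s _ => Finset.measurable_fun_sum _ fun i _ => ?_
  refine (hχ.comp (plaqV_meas x i s)).add (Finset.measurable_fun_sum _ fun j _ => ?_)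
  by_cases h : i < j
  · simp only [h, if_true]; exact hχ.comp (plaqH_meas x i j s)
  · simp only [h, if_false]; exact measurable_const

lemma wt_meas {χ : G → ℝ} (hχ : Measurable χ) (β : ℝ) (M : Finset (Link D L)) :
    Measurable (wt χ β M : (Link D L → G) → ℝ≥0∞) := by
  unfold wt
  exact ENNReal.measurable_ofReal.comp (Real.measurable_exp.comp
    ((Finset.measurable_fun_sum _ fun x _ => dens_meas hχ x).const_mul β).neg)

lemma hv_meas (x : Fin D → ℤ) : ∀ s : ℕ, Measurable fun U : Link D L → G => hv U x s
  | 0 => measurable_const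
  | s + 1 => by
    show Measurable fun U : Link D L → G => hv U x s * if h : s < L then U (x, none, ⟨s, h⟩) else 1
    refine (hv_meas x s).mul ?_
    by_cases h : s < L
    · simp only [h, dif_pos]; exact measurable_pi_apply _
    · simp only [h, dif_neg, not_false_eq_true]; exact measurable_const

lemma ax_meas : Measurable (ax : (Link D L → G) → (Fin D → ℤ) → Fin D × Fin L → G) := by
  refine measurable_pi_lambda _ fun x => measurable_pi_lambda _ fun a => ?_
  unfold ax
  exact ((hv_meas x _).mul (measurable_pi_apply _)).mul (hv_meas _ _).inv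

lemma emb_meas : Measurable (emb : ((Fin D → ℤ) → Fin D × Fin L → G) → Link D L → G) := by
  refine measurable_pi_lambda _ fun l => ?_
  rcases l with ⟨x, o, s⟩
  cases o with
  | none => exact measurable_const
  | some i =>
    exact (measurable_pi_apply (i, s)).comp (measurable_pi_apply x)

lemma gt_meas (g : (Fin D → ℤ) → ℕ → G) : Measurable (gt g : (Link D L → G) → Link D L → G) := by
  refine measurable_pi_lambda _ fun l => ?_
  rcases l with ⟨x, o, s⟩
  cases o with
  | none => exact ((measurable_pi_apply _).const_mul _).mul_const _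
  | some i => exact ((measurable_pi_apply _).const_mul _).mul_const _

end meas

end

end Pool.Agent.N986.SL
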