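import Pool.Agent.N986.SL.Inv

/-!
# Lattice gauge theory in a slab: reflection positivity
-/

set_option autoImplicit false
set_option linter.unusedSectionVars false
set_option linter.unusedVariables false

open MeasureTheory Finset Function Filter Topology
open scoped ENNReal NNReal

namespace Pool.Agent.N986.SL

open Pool.Agent.N986.PB

noncomputable section

variable {D L : ℕ}

lemma mem_box' {n : ℕ} {x : Fin D → ℤ} (i : Fin D) :
    x ∈ box D n ↔ (∀ j ≠ i, -(n : ℤ) ≤ x j ∧ x j ≤ n) ∧ -(n : ℤ) ≤ x i ∧ x i ≤ n := by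
  unfold box
  rw [Fintype.mem_piFinset]
  constructor
  · intro h
    exact ⟨fun j _ => Finset.mem_Icc.1 (h j), Finset.mem_Icc.1 (h i)⟩
  · rintro ⟨h1, h2⟩ j
    by_cases h : j = i
    · rw [h]; exact Finset.mem_Icc.2 h2
    · exact Finset.mem_Icc.2 (h1 j h)

/-- links in the direction `i` -/
def dir (i : Fin D) (l : Link D L) : Prop := l.2.1 = some i

instance (i : Fin D) (l : Link D L) : Decidable (dir i l) := by unfold dir; infer_instance

/-- the finite volume -/
def Mb (L : ℕ) (i : Fin D) (n : ℕ) : Finset (Link D L) :=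
  (cols L (box D n)).filter fun l => dir i l → l.1 i ≤ (n : ℤ) - 1

/-- the links in the reflection plane -/
def M0 (L : ℕ) (i : Fin D) (n : ℕ) : Finset (Link D L) :=
  (Mb L i n).filter fun l => l.1 i = 0 ∧ ¬ dir i l

/-- the links on the right of the reflection plane -/
def Mp (L : ℕ) (i : Fin D) (n : ℕ) : Finset (Link D L) :=
  (Mb L i n).filter fun l => 0 ≤ l.1 i ∧ ¬ (l.1 i = 0 ∧ ¬ dir i l)

/-- the links on the left of the reflection plane -/
def Mm (L : ℕ) (i : Fin D) (n : ℕ) : Finset (Link D L) := (Mp L i n).map ⟨sgR i, sgR_inj i⟩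

lemma mem_Mb {i : Fin D} {n : ℕ} {l : Link D L} : l ∈ Mb L i n ↔
    (∀ j ≠ i, -(n : ℤ) ≤ l.1 j ∧ l.1 j ≤ n) ∧ -(n : ℤ) ≤ l.1 i ∧ l.1 i ≤ n ∧
      (dir i l → l.1 i ≤ (n : ℤ) - 1) := by
  unfold Mb
  rw [Finset.mem_filter, mem_cols, mem_box' i]
  tauto

lemma sgR_dir (i : Fin D) (l : Link D L) : dir i (sgR i l) ↔ dir i l := by
  unfold dir
  rw [sgR_snd]

lemma sgR_ne {i : Fin D} (l : Link D L) {j : Fin D} (h : j ≠ i) : (sgR i l).1 j = l.1 j := by
  unfold sgR
  split_ifs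
  · show (th i l.1 - e i) j = l.1 j
    rw [Pi.sub_apply, th_apply_ne i _ h, e_apply, if_neg h, sub_zero]
  · exact th_apply_ne i _ h

lemma sgR_self (i : Fin D) (l : Link D L) :
    (sgR i l).1 i = if dir i l then -l.1 i - 1 else -l.1 i := by
  by_cases h : dir i l
  · rw [if_pos h]
    have h1 : sgR i l = (th i l.1 - e i, l.2) := if_pos h
    rw [h1]
    show (th i l.1 - e i) i = _
    rw [Pi.sub_apply, th_apply_self, e_apply, if_pos rfl]
  · rw [if_neg h]
    have h1 : sgR i l = (th i l.1, l.2) := if_neg h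
    rw [h1]
    exact th_apply_self i _

lemma mem_Mm {i : Fin D} {n : ℕ} {l : Link D L} : l ∈ Mm L i n ↔ sgR i l ∈ Mp L i n := by
  unfold Mm
  rw [Finset.mem_map]
  constructor
  · rintro ⟨l', h, rfl⟩
    show sgR i (sgR i l') ∈ _
    rwa [sgR_sgR]
  · intro h
    exact ⟨sgR i l, h, sgR_sgR i l⟩

lemma mem_Mp {i : Fin D} {n : ℕ} {l : Link D L} : l ∈ Mp L i n ↔
    (∀ j ≠ i, -(n : ℤ) ≤ l.1 j ∧ l.1 j ≤ n) ∧ l.1 i ≤ n ∧
      (dir i l → l.1 i ≤ (n : ℤ) - 1) ∧ 0 ≤ l.1 i ∧ ¬ (l.1 i = 0 ∧ ¬ dir i l) := by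
  unfold Mp
  rw [Finset.mem_filter, mem_Mb]
  constructor
  · rintro ⟨⟨h1, h2, h3, h4⟩, h5, h6⟩
    exact ⟨h1, h3, h4, h5, h6⟩
  · rintro ⟨h1, h3, h4, h5, h6⟩
    exact ⟨⟨h1, by omega, h3, h4⟩, h5, h6⟩

lemma mem_Mm' {i : Fin D} {n : ℕ} {l : Link D L} : l ∈ Mm L i n ↔
    (∀ j ≠ i, -(n : ℤ) ≤ l.1 j ∧ l.1 j ≤ n) ∧ -(n : ℤ) ≤ l.1 i ∧ l.1 i ≤ -1 := by
  rw [mem_Mm, mem_Mp, sgR_dir, sgR_self]
  have h1 : (∀ j ≠ i, -(n : ℤ) ≤ (sgR i l).1 j ∧ (sgR i l).1 j ≤ n) ↔
      ∀ j ≠ i, -(n : ℤ) ≤ l.1 j ∧ l.1 j ≤ n := by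
    refine forall_congr' fun j => forall_congr' fun h => ?_
    rw [sgR_ne l h]
  rw [h1]
  refine and_congr_right fun _ => ?_
  by_cases h : dir i l
  · simp only [h, if_true, not_true_eq_false, and_false, not_false_eq_true, and_true, true_implies]
    omega
  · simp only [h, if_false, not_false_eq_true, and_true, false_implies, true_and]
    omega

lemma Mb_eq (i : Fin D) (n : ℕ) : Mb L i n = M0 L i n ∪ (Mp L i n ∪ Mm L i n) := by
  ext l
  rw [Finset.mem_union, Finset.mem_union, mem_Mp, mem_Mm']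
  unfold M0
  rw [Finset.mem_filter, mem_Mb]
  by_cases h : dir i l
  · simp only [h, not_true_eq_false, and_false, not_false_eq_true, and_true, true_implies, false_or]
    constructor
    · rintro ⟨h1, h2, h3, h4⟩
      rcases le_or_gt 0 (l.1 i) with h5 | h5
      · exact Or.inl ⟨h1, h3, h4, h5⟩
      · exact Or.inr ⟨h1, h2, by omega⟩
    · rintro (⟨h1, h3, h4, h5⟩ | ⟨h1, h2, h3⟩)
      · exact ⟨h1, by omega, h3, h4⟩
      · exact ⟨h1, h2, by omega, by omega⟩
  · simp only [h, not_false_eq_true, and_true, false_implies, true_and]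
    constructor
    · rintro ⟨h1, h2, h3⟩
      rcases lt_trichotomy (l.1 i) 0 with h5 | h5 | h5
      · exact Or.inr (Or.inr ⟨h1, h2, by omega⟩)
      · exact Or.inl ⟨⟨h1, h2, h3⟩, h5⟩
      · exact Or.inr (Or.inl ⟨h1, h3, by omega, by omega⟩)
    · rintro (⟨h1, -⟩ | ⟨h1, h3, h4, h5⟩ | ⟨h1, h2, h3⟩)
      · exact h1
      · exact ⟨h1, by omega, h3⟩
      · exact ⟨h1, h2, by omega⟩

lemma disj_pm (i : Fin D) (n : ℕ) : Disjoint (Mp L i n) (Mm L i n) := by
  rw [Finset.disjoint_left]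
  intro l h1 h2
  have h3 := (mem_Mp.1 h1).2.2.2.1
  have h4 := (mem_Mm'.1 h2).2.2
  omega

lemma disj_0 (i : Fin D) (n : ℕ) : Disjoint (M0 L i n) (Mp L i n ∪ Mm L i n) := by
  rw [Finset.disjoint_left]
  intro l h1 h2
  have h3 := (Finset.mem_filter.1 h1).2
  rcases Finset.mem_union.1 h2 with h4 | h4
  · exact (mem_Mp.1 h4).2.2.2.2 h3
  · have := (mem_Mm'.1 h4).2.2
    omega

/-- the plaquettes of the finite volume -/
def Qb (L : ℕ) (i : Fin D) (n : ℕ) : Finset (Plq D L) :=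
  (box D (n + 1) ×ˢ Finset.univ).filter fun q => fl i q.2 → q.1 i ≤ (n : ℤ)

/-- plaquettes in the reflection plane -/
def Q0 (L : ℕ) (i : Fin D) (n : ℕ) : Finset (Plq D L) :=
  (Qb L i n).filter fun q => q.1 i = 0 ∧ ¬ fl i q.2

/-- plaquettes on the right of the reflection plane -/
def Qp (L : ℕ) (i : Fin D) (n : ℕ) : Finset (Plq D L) :=
  (Qb L i n).filter fun q => 0 ≤ q.1 i ∧ ¬ (q.1 i = 0 ∧ ¬ fl i q.2)

/-- the reflection of plaquettes -/
def rhR (i : Fin D) : Plq D L ≃ Plq D L :=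
  ⟨fun q => (rb i q.1 q.2, q.2), fun q => (rb i q.1 q.2, q.2),
    fun q => by simp [rb_rb], fun q => by simp [rb_rb]⟩

/-- plaquettes on the left of the reflection plane -/
def Qm (L : ℕ) (i : Fin D) (n : ℕ) : Finset (Plq D L) := (Qp L i n).map (rhR i).toEmbedding

lemma mem_Qb {i : Fin D} {n : ℕ} {q : Plq D L} : q ∈ Qb L i n ↔
    (∀ j ≠ i, -((n : ℤ) + 1) ≤ q.1 j ∧ q.1 j ≤ n + 1) ∧ -((n : ℤ) + 1) ≤ q.1 i ∧ q.1 i ≤ n + 1 ∧
      (fl i q.2 → q.1 i ≤ n) := by
  unfold Qb
  rw [Finset.mem_filter, Finset.mem_product, mem_box' i]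
  push_cast
  simp only [Finset.mem_univ, and_true]
  tauto

lemma mem_Qp {i : Fin D} {n : ℕ} {q : Plq D L} : q ∈ Qp L i n ↔
    (∀ j ≠ i, -((n : ℤ) + 1) ≤ q.1 j ∧ q.1 j ≤ n + 1) ∧ q.1 i ≤ n + 1 ∧
      (fl i q.2 → q.1 i ≤ n) ∧ 0 ≤ q.1 i ∧ ¬ (q.1 i = 0 ∧ ¬ fl i q.2) := by
  unfold Qp
  rw [Finset.mem_filter, mem_Qb]
  constructor
  · rintro ⟨⟨h1, h2, h3, h4⟩, h5, h6⟩
    exact ⟨h1, h3, h4, h5, h6⟩
  · rintro ⟨h1, h3, h4, h5, h6⟩
    exact ⟨⟨h1, by omega, h3, h4⟩, h5, h6⟩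

lemma rb_ne {i : Fin D} (x : Fin D → ℤ) (p : PL D L) {j : Fin D} (h : j ≠ i) :
    rb i x p j = x j := by
  unfold rb
  split_ifs
  · rw [Pi.sub_apply, th_apply_ne i _ h, e_apply, if_neg h, sub_zero]
  · exact th_apply_ne i _ h

lemma rb_self (i : Fin D) (x : Fin D → ℤ) (p : PL D L) :
    rb i x p i = if fl i p then -x i - 1 else -x i := by
  unfold rb
  split_ifs
  · rw [Pi.sub_apply, th_apply_self, e_apply, if_pos rfl]
  · exact th_apply_self i _

lemma mem_Qm {i : Fin D} {n : ℕ} {q : Plq D L} : q ∈ Qm L i n ↔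
    (∀ j ≠ i, -((n : ℤ) + 1) ≤ q.1 j ∧ q.1 j ≤ n + 1) ∧ -((n : ℤ) + 1) ≤ q.1 i ∧ q.1 i ≤ -1 := by
  have h0 : q ∈ Qm L i n ↔ (rb i q.1 q.2, q.2) ∈ Qp L i n := by
    unfold Qm
    rw [Finset.mem_map]
    constructor
    · rintro ⟨q', h, rfl⟩
      show (rb i (rb i q'.1 q'.2) q'.2, q'.2) ∈ _
      rwa [rb_rb]
    · intro h
      exact ⟨_, h, by simp [rhR, rb_rb]⟩
  rw [h0, mem_Qp]
  simp only [rb_self]
  have h1 : (∀ j ≠ i, -((n : ℤ) + 1) ≤ rb i q.1 q.2 j ∧ rb i q.1 q.2 j ≤ n + 1) ↔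
      ∀ j ≠ i, -((n : ℤ) + 1) ≤ q.1 j ∧ q.1 j ≤ n + 1 := by
    refine forall_congr' fun j => forall_congr' fun h => ?_
    rw [rb_ne _ _ h]
  rw [h1]
  refine and_congr_right fun _ => ?_
  by_cases h : fl i q.2
  · simp only [h, if_true, not_true_eq_false, and_false, not_false_eq_true, and_true, true_implies]
    omega
  · simp only [h, if_false, not_false_eq_true, and_true, false_implies, true_and]
    omega

lemma Qb_eq (i : Fin D) (n : ℕ) : Qb L i n = Q0 L i n ∪ (Qp L i n ∪ Qm L i n) := by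
  ext q
  rw [Finset.mem_union, Finset.mem_union, mem_Qp, mem_Qm]
  unfold Q0
  rw [Finset.mem_filter, mem_Qb]
  by_cases h : fl i q.2
  · simp only [h, not_true_eq_false, and_false, not_false_eq_true, and_true, true_implies, false_or]
    constructor
    · rintro ⟨h1, h2, h3, h4⟩
      rcases le_or_gt 0 (q.1 i) with h5 | h5
      · exact Or.inl ⟨h1, h3, h4, h5⟩
      · exact Or.inr ⟨h1, h2, by omega⟩
    · rintro (⟨h1, h3, h4, h5⟩ | ⟨h1, h2, h3⟩)
      · exact ⟨h1, by omega, h3, h4⟩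
      · exact ⟨h1, h2, by omega, by omega⟩
  · simp only [h, not_false_eq_true, and_true, false_implies, true_and]
    constructor
    · rintro ⟨h1, h2, h3⟩
      rcases lt_trichotomy (q.1 i) 0 with h5 | h5 | h5
      · exact Or.inr (Or.inr ⟨h1, h2, by omega⟩)
      · exact Or.inl ⟨⟨h1, h2, h3⟩, h5⟩
      · exact Or.inr (Or.inl ⟨h1, h3, by omega, by omega⟩)
    · rintro (⟨h1, -⟩ | ⟨h1, h3, h4, h5⟩ | ⟨h1, h2, h3⟩)
      · exact h1
      · exact ⟨h1, by omega, h3⟩
      · exact ⟨h1, h2, by omega⟩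

lemma disjQ_pm (i : Fin D) (n : ℕ) : Disjoint (Qp L i n) (Qm L i n) := by
  rw [Finset.disjoint_left]
  intro l h1 h2
  have h3 := (mem_Qp.1 h1).2.2.2.1
  have h4 := (mem_Qm.1 h2).2.2
  omega

lemma disjQ_0 (i : Fin D) (n : ℕ) : Disjoint (Q0 L i n) (Qp L i n ∪ Qm L i n) := by
  rw [Finset.disjoint_left]
  intro l h1 h2
  have h3 := (Finset.mem_filter.1 h1).2
  rcases Finset.mem_union.1 h2 with h4 | h4
  · exact (mem_Qp.1 h4).2.2.2.2 h3
  · have := (mem_Qm.1 h4).2.2
    omega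

/-- all plaquettes which contain links of the finite volume -/
lemma mem_Qb_of_base {i : Fin D} {n : ℕ} {q : Plq D L} (h : q.1 ∈ base (Mb L i n)) :
    q ∈ Qb L i n := by
  rw [mem_Qb]
  rcases mem_base.1 h with ⟨l, hl, h1⟩ | ⟨k, l, hl, h1⟩
  · obtain ⟨h2, h3, h4, h5⟩ := mem_Mb.1 hl
    rw [h1] at h2 h3 h4
    exact ⟨fun j hj => by have := h2 j hj; omega, by omega, by omega, fun _ => h4⟩
  · obtain ⟨h2, h3, h4, h5⟩ := mem_Mb.1 hl
    have h6 : ∀ j, l.1 j = q.1 j + if j = k then 1 else 0 := by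
      intro j
      rw [h1, Pi.add_apply, e_apply]
    have h7 : ∀ j, q.1 j ≤ l.1 j ∧ l.1 j ≤ q.1 j + 1 := by
      intro j
      rw [h6 j]
      split_ifs <;> omega
    refine ⟨fun j hj => ?_, ?_, ?_, fun _ => ?_⟩
    · have := h2 j hj
      have := h7 j
      omega
    · have := h7 i
      omega
    · have := h7 i
      omega
    · have := h7 i
      omega

variable {G : Type*} [Group G]

/-- the plaquettes on the right contain only links on the right -/
lemma pe_right (χ : G → ℝ) {i : Fin D} {x : Fin D → ℤ} (hx : 0 ≤ x i) (p : PL D L)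
    {U U' : Link D L → G} (h : ∀ l : Link D L, 0 ≤ l.1 i → U l = U' l) :
    pe χ U x p = pe χ U' x p := by
  refine pe_congr χ fun l hl => h l ?_
  rcases hl with h1 | ⟨j, h1⟩
  · rw [h1]; exact hx
  · rw [h1, Pi.add_apply, e_apply]
    split_ifs <;> omega

/-- the plaquettes in the plane contain only links in the plane -/
lemma pe_plane (χ : G → ℝ) {i : Fin D} {x : Fin D → ℤ} (hx : x i = 0) {p : PL D L}
    (hp : ¬ fl i p) {U U' : Link D L → G}
    (h : ∀ l : Link D L, l.1 i = 0 → ¬ dir i l → U l = U' l) : pe χ U x p = pe χ U' x p := by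
  have he : ∀ {j : Fin D}, j ≠ i → (x + e j) i = 0 := by
    intro j hj
    rw [Pi.add_apply, e_apply, if_neg (Ne.symm hj), hx, add_zero]
  have hn : ∀ y s, y i = 0 → U (y, none, s) = U' (y, none, s) := fun y s hy =>
    h _ hy (by simp [dir])
  have hd : ∀ y j s, y i = 0 → j ≠ i → U (y, some j, s) = U' (y, some j, s) := fun y j s hy hj =>
    h _ hy (by simp [dir, hj])
  rcases p with ⟨s, j, o⟩
  cases o with
  | none =>
    have hj : j ≠ i := fun hj => hp (Or.inl hj)
    show χ (plaqV U x j s) = χ (plaqV U' x j s)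
    unfold plaqV low
    rw [hn _ _ (he hj), hd _ _ _ hx hj, hn _ _ hx, hd _ _ _ hx hj]
  | some k =>
    have hj : j ≠ i := fun hj => hp (Or.inl hj)
    have hk : k ≠ i := fun hk => hp (Or.inr (by rw [hk]))
    show (if j < k then χ (plaqH U x j k s) else 0) = if j < k then χ (plaqH U' x j k s) else 0
    unfold plaqH
    rw [hd _ _ _ hx hj, hd _ _ _ (he hj) hk, hd _ _ _ (he hk) hj, hd _ _ _ hx hk]

/-- `f` depends only on the links in the half space -/
def DepR (i : Fin D) {Z : Type*} (f : (Link D L → G) → Z) : Prop :=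
  ∀ U U' : Link D L → G, (∀ l : Link D L, 0 ≤ l.1 i → U l = U' l) → f U = f U'

section rp

variable [MeasurableSpace G] [MeasurableMul₂ G] [MeasurableInv G] {χ : G → ℝ}
  {μ : Measure G} [IsProbabilityMeasure μ] [μ.IsInvInvariant]

/-- the integral over the links on the right -/
def XX (μ : Measure G) (χ : G → ℝ) (β : ℝ) (i : Fin D) (n : ℕ) (f : (Link D L → G) → ℝ≥0∞) :
    (Link D L → G) → ℝ≥0∞ := In μ (Mp L i n) fun U => wQ χ β (Qp L i n) U * f U

lemma bf_dep {β : ℝ} {i : Fin D} {n : ℕ} {f : (Link D L → G) → ℝ≥0∞} (hf : DepR i f) :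
    DepR i fun U => wQ χ β (Qp L i n) U * f U := by
  intro U U' h
  show wQ χ β (Qp L i n) U * f U = wQ χ β (Qp L i n) U' * f U'
  rw [hf U U' h]
  congr 1
  unfold wQ
  congr 4
  exact Finset.sum_congr rfl fun q hq => pe_right χ (mem_Qp.1 hq).2.2.2.1 q.2 h

/-- **Factorisation.** -/
lemma factor (hχ : ∀ a p : G, χ (a * p * a⁻¹) = χ p) (hχ' : ∀ p : G, χ p⁻¹ = χ p)
    (hχm : Measurable χ) (β : ℝ) (i : Fin D) (n : ℕ) {f g : (Link D L → G) → ℝ≥0∞}
    (hf : Measurable f) (hg : Measurable g) (hfd : DepR i f) (hgd : DepR i g) :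
    In μ (Mb L i n) (fun U => wQ χ β (Qb L i n) U * (f U * g (refl i U))) (fun _ => 1) =
      In μ (M0 L i n) (fun U => wQ χ β (Q0 L i n) U * (XX μ χ β i n f U * XX μ χ β i n g U))
        fun _ => 1 := by
  have mb := wQ_meas (D := D) (L := L) hχm β (Qp L i n)
  have ma := wQ_meas (D := D) (L := L) hχm β (Q0 L i n)
  have mQ := wQ_meas (D := D) (L := L) hχm β (Qb L i n)
  have mr : Measurable (refl i : (Link D L → G) → Link D L → G) := refl_meas i
  have hsplit : ∀ U : Link D L → G, wQ χ β (Qb L i n) U =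
      wQ χ β (Q0 L i n) U * (wQ χ β (Qp L i n) U * wQ χ β (Qp L i n) (refl i U)) := by
    intro U
    rw [Qb_eq, wQ_union χ β (disjQ_0 i n), wQ_union χ β (disjQ_pm i n),
      (symRefl μ χ hχ hχ' i).wQ_eq β (Qp L i n) U]
    rfl
  have mbf : Measurable fun U : Link D L → G => wQ χ β (Qp L i n) U * f U := mb.mul hf
  have mbg : Measurable fun U : Link D L → G => wQ χ β (Qp L i n) U * g U := mb.mul hg
  have m1 : Measurable fun U : Link D L → G => wQ χ β (Qb L i n) U * (f U * g (refl i U)) :=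
    mQ.mul (hf.mul (hg.comp mr))
  -- the integral over the left
  have s1 : ∀ η : Link D L → G,
      In μ (Mm L i n) (fun U => wQ χ β (Qb L i n) U * (f U * g (refl i U))) η =
        wQ χ β (Q0 L i n) η * (wQ χ β (Qp L i n) η * f η) * XX μ χ β i n g (refl i η) := by
    intro η
    have e1 : In μ (Mm L i n) (fun U => wQ χ β (Qb L i n) U * (f U * g (refl i U))) η =
        In μ (Mm L i n) (fun U => (wQ χ β (Q0 L i n) U * (wQ χ β (Qp L i n) U * f U)) *
          (wQ χ β (Qp L i n) (refl i U) * g (refl i U))) η := by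
      congr 1
      funext U
      rw [hsplit]
      ring
    rw [e1, In_mul_left (f := fun U => wQ χ β (Qp L i n) (refl i U) * g (refl i U))
      (g := fun U => wQ χ β (Q0 L i n) U * (wQ χ β (Qp L i n) U * f U))
      (c := wQ χ β (Q0 L i n) η * (wQ χ β (Qp L i n) η * f η)) (mbg.comp mr)]
    · congr 1
      exact In_map (ν := μ) (sgR i) (sgR_inj i) (refl i) mr mbg (Mp L i n)
        (fun l _ ξ => (symRefl μ χ hχ hχ' i).upd l ξ) η
    · intro φ hφ
      have hR : ∀ l : Link D L, 0 ≤ l.1 i → φ l = η l := fun l hl => hφ l fun h => by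
        have := (mem_Mm'.1 h).2.2
        omega
      have h1 := bf_dep (χ := χ) (β := β) (n := n) hfd φ η hR
      have h2 : wQ χ β (Q0 L i n) φ = wQ χ β (Q0 L i n) η := by
        unfold wQ
        congr 4
        refine Finset.sum_congr rfl fun q hq => ?_
        have h3 := (Finset.mem_filter.1 hq).2
        exact pe_plane χ h3.1 h3.2 fun l hl _ => hR l (by omega)
      show wQ χ β (Q0 L i n) φ * (wQ χ β (Qp L i n) φ * f φ) = _
      rw [h2]
      congr 1
  -- the integral over the right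
  have s2 : ∀ η : Link D L → G,
      In μ (Mp L i n) (fun U => wQ χ β (Q0 L i n) U * (wQ χ β (Qp L i n) U * f U) *
        XX μ χ β i n g (refl i U)) η =
        wQ χ β (Q0 L i n) η * XX μ χ β i n g (refl i η) * XX μ χ β i n f η := by
    intro η
    have e1 : In μ (Mp L i n) (fun U => wQ χ β (Q0 L i n) U * (wQ χ β (Qp L i n) U * f U) *
        XX μ χ β i n g (refl i U)) η =
        In μ (Mp L i n) (fun U => (wQ χ β (Q0 L i n) U * XX μ χ β i n g (refl i U)) *
          (wQ χ β (Qp L i n) U * f U)) η := by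
      congr 1
      funext U
      ring
    rw [e1, In_mul_left (f := fun U => wQ χ β (Qp L i n) U * f U)
      (g := fun U => wQ χ β (Q0 L i n) U * XX μ χ β i n g (refl i U))
      (c := wQ χ β (Q0 L i n) η * XX μ χ β i n g (refl i η)) mbf]
    · rfl
    · intro φ hφ
      have h2 : wQ χ β (Q0 L i n) φ = wQ χ β (Q0 L i n) η := by
        unfold wQ
        congr 4
        refine Finset.sum_congr rfl fun q hq => ?_
        have h3 := (Finset.mem_filter.1 hq).2
        refine pe_plane χ h3.1 h3.2 fun l hl hd => hφ l fun h => ?_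
        exact (mem_Mp.1 h).2.2.2.2 ⟨hl, hd⟩
      show wQ χ β (Q0 L i n) φ * XX μ χ β i n g (refl i φ) = _
      rw [h2]
      congr 1
      unfold XX
      refine In_dep' (A := {l : Link D L | 0 ≤ l.1 i}) (fun U U' h => bf_dep hgd U U' h) fun l hl hlM => ?_
      rw [refl_apply, refl_apply]
      have h4 : φ (sgR i l) = η (sgR i l) := by
        refine hφ _ fun h => ?_
        obtain ⟨-, -, -, h5, h6⟩ := mem_Mp.1 h
        rw [sgR_self] at h5 h6
        rw [sgR_dir] at h6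
        have hl' : 0 ≤ l.1 i := hl
        by_cases hd : dir i l
        · rw [if_pos hd] at h5
          omega
        · rw [if_neg hd] at h5 h6
          exact h6 ⟨by omega, hd⟩
      rw [h4]
  rw [Mb_eq, In_union (disj_0 i n) m1]
  refine In_congr' fun η hη => ?_
  rw [In_union (disj_pm i n) m1]
  have e2 : In μ (Mm L i n) (fun U => wQ χ β (Qb L i n) U * (f U * g (refl i U))) =
      fun η => wQ χ β (Q0 L i n) η * (wQ χ β (Qp L i n) η * f η) *
        XX μ χ β i n g (refl i η) := funext s1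
  rw [e2, s2]
  have e3 : XX μ χ β i n g (refl i η) = XX μ χ β i n g η := by
    unfold XX
    refine In_dep' (A := {l : Link D L | 0 ≤ l.1 i}) (fun U U' h => bf_dep hgd U U' h) fun l hl hlM => ?_
    have hl' : 0 ≤ l.1 i := hl
    by_cases h0 : l.1 i = 0 ∧ ¬ dir i l
    · have h1 : sgR i l = l := by
        unfold sgR
        rw [if_neg (show ¬ l.2.1 = some i from h0.2)]
        refine Prod.ext ?_ rfl
        funext j
        show th i l.1 j = l.1 j
        by_cases hj : j = i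
        · rw [hj, th_apply_self, h0.1, neg_zero]
        · exact th_apply_ne i _ hj
      rw [refl_apply, if_neg (show ¬ l.2.1 = some i from h0.2), h1]
    · have h1 : η l = 1 := hη l fun h => h0 (Finset.mem_filter.1 h).2
      have h2 : η (sgR i l) = 1 := by
        refine hη _ fun h => ?_
        have h3 := (Finset.mem_filter.1 h).2
        rw [sgR_self, sgR_dir] at h3
        rw [if_neg h3.2] at h3
        exact h0 ⟨by omega, h3.2⟩
      rw [refl_apply, h1, h2, inv_one, ite_self]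
  rw [e3]
  ring

lemma two_mul_le' (x y : ℝ≥0∞) : 2 * (x * y) ≤ x * x + y * y := by
  have key : ∀ {x y : ℝ≥0∞}, x ≤ y → 2 * (x * y) ≤ x * x + y * y := by
    intro x y h
    obtain ⟨d, rfl⟩ := le_iff_exists_add.1 h
    calc 2 * (x * (x + d)) ≤ 2 * (x * (x + d)) + d * d := le_self_add
      _ = _ := by ring
  rcases le_total x y with h | h
  · exact key h
  · rw [mul_comm x y, add_comm]
    exact key h

/-- **Reflection positivity in finite volume.** -/
lemma rp_fin (hχ : ∀ a p : G, χ (a * p * a⁻¹) = χ p) (hχ' : ∀ p : G, χ p⁻¹ = χ p)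
    (hχm : Measurable χ) (β : ℝ) (i : Fin D) (n : ℕ) {f g : (Link D L → G) → ℝ≥0∞}
    (hf : Measurable f) (hg : Measurable g) (hfd : DepR i f) (hgd : DepR i g) :
    2 * ev μ (wt χ β (Mb L i n)) (Mb L i n) (fun U => f U * g (refl i U)) (fun _ => 1) ≤
      ev μ (wt χ β (Mb L i n)) (Mb L i n) (fun U => f U * f (refl i U)) (fun _ => 1) +
        ev μ (wt χ β (Mb L i n)) (Mb L i n) (fun U => g U * g (refl i U)) (fun _ => 1) := by
  have mr : Measurable (refl i : (Link D L → G) → Link D L → G) := refl_meas i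
  have hev : ∀ {F : (Link D L → G) → ℝ≥0∞}, Measurable F → ∀ ξ,
      ev μ (wt χ β (Mb L i n)) (Mb L i n) F ξ = ev μ (wQ χ β (Qb L i n)) (Mb L i n) F ξ := by
    intro F hF ξ
    rw [wt_eq_wQ]
    refine ev_wQ hχm β (fun q hq => ins_of_base χ fun h => hq (mem_Qb_of_base h))
      (fun q hq => ins_of_base χ fun h3 => hq ?_) hF ξ
    exact Finset.mem_product.2 ⟨h3, Finset.mem_univ _⟩
  have mfg : Measurable fun U : Link D L → G => f U * g (refl i U) := hf.mul (hg.comp mr)
  have mff : Measurable fun U : Link D L → G => f U * f (refl i U) := hf.mul (hf.comp mr)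
  have mgg : Measurable fun U : Link D L → G => g U * g (refl i U) := hg.mul (hg.comp mr)
  rw [hev mfg, hev mff, hev mgg]
  unfold ev
  rw [factor hχ hχ' hχm β i n hf hg hfd hgd, factor hχ hχ' hχm β i n hf hf hfd hfd,
    factor hχ hχ' hχm β i n hg hg hgd hgd, ← ENNReal.add_div, ← mul_div_assoc]
  refine ENNReal.div_le_div_right ?_ _
  have mb := wQ_meas (D := D) (L := L) hχm β (Qp L i n)
  have ma := wQ_meas (D := D) (L := L) hχm β (Q0 L i n)
  have mX : ∀ {f : (Link D L → G) → ℝ≥0∞}, Measurable f → Measurable (XX μ χ β i n f) :=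
    fun hf => In_meas (mb.mul hf)
  have m2 : Measurable fun U : Link D L → G =>
      wQ χ β (Q0 L i n) U * (XX μ χ β i n f U * XX μ χ β i n g U) := ma.mul ((mX hf).mul (mX hg))
  have m3 : Measurable fun U : Link D L → G =>
      wQ χ β (Q0 L i n) U * (XX μ χ β i n f U * XX μ χ β i n f U) := ma.mul ((mX hf).mul (mX hf))
  have m4 : Measurable fun U : Link D L → G =>
      wQ χ β (Q0 L i n) U * (XX μ χ β i n g U * XX μ χ β i n g U) := ma.mul ((mX hg).mul (mX hg))
  unfold In lmarginal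
  rw [← lintegral_const_mul, ← lintegral_add_left]
  · refine lintegral_mono fun y => ?_
    rw [← mul_add, mul_left_comm]
    exact mul_le_mul_right (two_mul_le' _ _) _
  · exact m3.comp measurable_updateFinset
  · exact m2.comp measurable_updateFinset

end rp

end

end Pool.Agent.N986.SL
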