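import Pool.Agent.N986.SL.RP

/-!
# Lattice gauge theory in a slab: reflection positivity of the infinite volume measure
-/

set_option autoImplicit false
set_option linter.unusedSectionVars false
set_option linter.unusedVariables false

open MeasureTheory Finset Function Filter Topology
open scoped ENNReal NNReal

namespace Pool.Agent.N986.SL

open Pool.Agent.N986.PB

noncomputable section

variable {D L : ℕ} {G : Type*} [Group G]

section half

variable [MeasurableSpace G]

lemma Loc.mono {A A' : Finset (Fin D → ℤ)} (h : A ⊆ A') {F : (Link D L → G) → ℝ} (hF : Loc A F) :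
    Loc A' F := fun U U' h' => hF U U' fun l hl => h' l (h hl)

lemma Half.const (i : Fin D) (c : ℝ) : Half i (fun _ : Link D L → G => c) :=
  ⟨measurable_const, ⟨|c|, fun _ => le_rfl⟩, ∅, by simp, fun _ _ _ => rfl⟩

lemma Half.add {i : Fin D} {F F' : (Link D L → G) → ℝ} (h : Half i F) (h' : Half i F') :
    Half i (fun U => F U + F' U) := by
  obtain ⟨c, hc⟩ := h.bdd
  obtain ⟨c', hc'⟩ := h'.bdd
  obtain ⟨A, hA, hL⟩ := h.loc
  obtain ⟨A', hA', hL'⟩ := h'.loc
  refine ⟨h.meas.add h'.meas, ⟨c + c', fun U => (abs_add_le _ _).trans (add_le_add (hc U) (hc' U))⟩,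
    A ∪ A', fun x hx => ?_, fun U U' hU => ?_⟩
  · rcases Finset.mem_union.1 hx with hx | hx
    · exact hA x hx
    · exact hA' x hx
  · show F U + F' U = F U' + F' U'
    rw [hL U U' fun l hl => hU l (Finset.mem_union_left _ hl),
      hL' U U' fun l hl => hU l (Finset.mem_union_right _ hl)]

lemma Half.smul {i : Fin D} {F : (Link D L → G) → ℝ} (h : Half i F) (a : ℝ) :
    Half i (fun U => a * F U) := by
  obtain ⟨c, hc⟩ := h.bdd
  obtain ⟨A, hA, hL⟩ := h.loc
  refine ⟨h.meas.const_mul a, ⟨|a| * c, fun U => ?_⟩, A, hA, fun U U' hU => ?_⟩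
  · rw [abs_mul]
    exact mul_le_mul_of_nonneg_left (hc U) (abs_nonneg _)
  · show a * F U = a * F U'
    rw [hL U U' hU]

lemma Half.mul {i : Fin D} {F F' : (Link D L → G) → ℝ} (h : Half i F) (h' : Half i F') :
    Half i (fun U => F U * F' U) := by
  obtain ⟨c, hc⟩ := h.bdd
  obtain ⟨c', hc'⟩ := h'.bdd
  obtain ⟨A, hA, hL⟩ := h.loc
  obtain ⟨A', hA', hL'⟩ := h'.loc
  refine ⟨h.meas.mul h'.meas, ⟨|c| * |c'|, fun U => ?_⟩, A ∪ A', fun x hx => ?_, fun U U' hU => ?_⟩
  · rw [abs_mul]
    exact mul_le_mul ((hc U).trans (le_abs_self _)) ((hc' U).trans (le_abs_self _)) (abs_nonneg _)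
      (abs_nonneg _)
  · rcases Finset.mem_union.1 hx with hx | hx
    · exact hA x hx
    · exact hA' x hx
  · show F U * F' U = F U' * F' U'
    rw [hL U U' fun l hl => hU l (Finset.mem_union_left _ hl),
      hL' U U' fun l hl => hU l (Finset.mem_union_right _ hl)]

lemma loc_shift {A : Finset (Fin D → ℤ)} {F : (Link D L → G) → ℝ} (h : Loc A F)
    (v : Fin D → ℤ) : Loc (A.image fun x => x + v) fun U => F (shift v U) := by
  intro U U' hU
  refine h _ _ fun l hl => hU _ ?_
  exact Finset.mem_image.2 ⟨l.1, hl, rfl⟩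

lemma Half.shift {i : Fin D} {F : (Link D L → G) → ℝ} (h : Half i F) {v : Fin D → ℤ}
    (hv : 0 ≤ v i) : Half i (fun U => F (SL.shift v U)) := by
  obtain ⟨c, hc⟩ := h.bdd
  obtain ⟨A, hA, hL⟩ := h.loc
  refine ⟨h.meas.comp (shift_meas v), ⟨c, fun U => hc _⟩, _, fun x hx => ?_, loc_shift hL v⟩
  obtain ⟨y, hy, rfl⟩ := Finset.mem_image.1 hx
  have := hA y hy
  rw [Pi.add_apply]
  omega

/-- the columns of the reflected observable -/
def Ar (i : Fin D) (A : Finset (Fin D → ℤ)) : Finset (Fin D → ℤ) :=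
  A.image (th i) ∪ A.image fun x => th i x - e i

lemma loc_refl [MeasurableMul₂ G] [MeasurableInv G] {A : Finset (Fin D → ℤ)} {F : (Link D L → G) → ℝ} (h : Loc A F) (i : Fin D) :
    Loc (Ar i A) fun U => F (refl i U) := by
  intro U U' hU
  refine h _ _ fun l hl => ?_
  rw [refl_apply, refl_apply]
  have h1 : U (sgR i l) = U' (sgR i l) := by
    refine hU _ ?_
    unfold Ar sgR
    split_ifs
    · exact Finset.mem_union_right _ (Finset.mem_image.2 ⟨l.1, hl, rfl⟩)
    · exact Finset.mem_union_left _ (Finset.mem_image.2 ⟨l.1, hl, rfl⟩)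
  rw [h1]

end half

section rp

variable [TopologicalSpace G] [IsTopologicalGroup G]
  [CompactSpace G] [T2Space G] [SecondCountableTopology G] [MeasurableSpace G] [BorelSpace G]
  {μ : Measure G} [IsProbabilityMeasure μ] [μ.IsMulLeftInvariant] [μ.IsMulRightInvariant]
  [μ.IsInvInvariant] {χ : G → ℝ} {β m C : ℝ}
  (hI : AxInfl D L μ χ β m C) (hC : 0 ≤ C) (hm : 0 < m) (hχ : Continuous χ)
  (hχi : ∀ a p : G, χ (a * p * a⁻¹) = χ p) (hχ' : ∀ p : G, χ p⁻¹ = χ p)
  {P : Measure (Link D L → G)} (hP : IsGibbs μ χ β Set.univ P)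
include hI hC hm hχ hχi hχ' hP

/-- comparison with the symmetric finite volumes -/
lemma cmp_fin (i : Fin D) (A : Finset (Fin D → ℤ)) {r : ℕ} (hr : 2 ≤ r) : ∃ n : ℕ,
    ∀ {F : (Link D L → G) → ℝ≥0∞}, Measurable F → (∀ ξ, F ξ ≤ 1) → NoDep F {l | l.1 ∉ A} →
      ∫⁻ U, F U ∂P ≤ ev μ (wt χ β (Mb L i n)) (Mb L i n) F (fun _ => 1) +
        (err A m C r + err A m C r) ∧
      ev μ (wt χ β (Mb L i n)) (Mb L i n) F (fun _ => 1) ≤ ∫⁻ U, F U ∂P +
        (err A m C r + err A m C r) := by
  obtain ⟨n, -, hn⟩ := exists_box A r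
  refine ⟨n + 1, fun {F} hF hF1 hFA => ?_⟩
  have hK : IsGibbs μ χ β (box D n : Set (Fin D → ℤ)) (ker μ (EM χ β) (Mb L i (n + 1))
      fun _ => 1) := by
    refine fin_gibbs hχ β (Mb L i (n + 1)) (fun _ => 1) fun l hl => ?_
    have h1 := (mem_box' i).1 (Finset.mem_coe.1 hl)
    rw [mem_Mb]
    push_cast
    exact ⟨fun j hj => by have := h1.1 j hj; omega, by omega, by omega, fun _ => by omega⟩
  have hc := EM_cons (D := D) (L := L) hχ β
  have h1 := compare hI hC hm hχ hχi hP hK (V := box D n) (fun _ _ => Set.mem_univ _)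
    (fun x hx => hx) hr hn hF hF1 hFA
  have h2 := compare hI hC hm hχ hχi hK hP (V := box D n) (fun x hx => hx)
    (fun _ _ => Set.mem_univ _) hr hn hF hF1 hFA
  rw [hc.lintegral_ker _ _ hF] at h1 h2
  exact ⟨h1, h2⟩

/-- **Reflection positivity**, nonnegative observables. -/
lemma rp_nn (i : Fin D) {A : Finset (Fin D → ℤ)} (hA : ∀ x ∈ A, 0 ≤ x i)
    {f g : (Link D L → G) → ℝ≥0∞} (hf : Measurable f) (hg : Measurable g) (hf1 : ∀ U, f U ≤ 1)
    (hg1 : ∀ U, g U ≤ 1) (hfA : NoDep f {l | l.1 ∉ A}) (hgA : NoDep g {l | l.1 ∉ A}) :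
    2 * ∫⁻ U, f U * g (refl i U) ∂P ≤ ∫⁻ U, f U * f (refl i U) ∂P +
      ∫⁻ U, g U * g (refl i U) ∂P := by
  obtain ⟨A', hA'⟩ : ∃ A', A' = A ∪ Ar i A := ⟨_, rfl⟩
  have mr : Measurable (refl i : (Link D L → G) → Link D L → G) := refl_meas i
  have hdep : ∀ {f g : (Link D L → G) → ℝ≥0∞}, NoDep f {l | l.1 ∉ A} → NoDep g {l | l.1 ∉ A} →
      NoDep (fun U => f U * g (refl i U)) {l | l.1 ∉ A'} := by
    intro f g hf hg U U' hU
    have h1 : ∀ l : Link D L, l.1 ∈ A' → U l = U' l := fun l hl => hU l fun h => h hl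
    show f U * g (refl i U) = f U' * g (refl i U')
    rw [hf U U' fun l hl => h1 l ?_, hg (refl i U) (refl i U') fun l hl => ?_]
    · have hlA : l.1 ∈ A := by
        by_contra h; exact hl h
      rw [refl_apply, refl_apply]
      have h2 : U (sgR i l) = U' (sgR i l) := by
        refine h1 _ ?_
        rw [hA']
        refine Finset.mem_union_right _ ?_
        unfold Ar sgR
        split_ifs
        · exact Finset.mem_union_right _ (Finset.mem_image.2 ⟨l.1, hlA, rfl⟩)
        · exact Finset.mem_union_left _ (Finset.mem_image.2 ⟨l.1, hlA, rfl⟩)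
      rw [h2]
    · rw [hA']
      refine Finset.mem_union_left _ ?_
      by_contra h; exact hl h
  have hdR : ∀ {f : (Link D L → G) → ℝ≥0∞}, NoDep f {l | l.1 ∉ A} → DepR i f := by
    intro f hf U U' hU
    refine hf U U' fun l hl => hU l (hA _ ?_)
    by_contra h; exact hl h
  have hle : ∀ {f g : (Link D L → G) → ℝ≥0∞}, (∀ U, f U ≤ 1) → (∀ U, g U ≤ 1) →
      ∀ U, f U * g (refl i U) ≤ 1 := fun hf hg U => by
    calc _ ≤ (1 : ℝ≥0∞) * 1 := mul_le_mul' (hf U) (hg _)
      _ = 1 := one_mul _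
  have key : ∀ᶠ r : ℕ in atTop, 2 * ∫⁻ U, f U * g (refl i U) ∂P ≤
      ∫⁻ U, f U * f (refl i U) ∂P + ∫⁻ U, g U * g (refl i U) ∂P +
        4 * (err A' m C r + err A' m C r) := by
    filter_upwards [eventually_ge_atTop 2] with r hr
    obtain ⟨n, hn⟩ := cmp_fin hI hC hm hχ hχi hχ' hP i A' hr
    have h1 := (hn (hf.mul (hg.comp mr)) (hle hf1 hg1) (hdep hfA hgA)).1
    have h2 := (hn (hf.mul (hf.comp mr)) (hle hf1 hf1) (hdep hfA hfA)).2
    have h3 := (hn (hg.mul (hg.comp mr)) (hle hg1 hg1) (hdep hgA hgA)).2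
    have h4 := rp_fin (μ := μ) hχi hχ' hχ.measurable β i n hf hg (hdR hfA) (hdR hgA)
    calc 2 * ∫⁻ U, f U * g (refl i U) ∂P ≤
        2 * (ev μ (wt χ β (Mb L i n)) (Mb L i n) (fun U => f U * g (refl i U)) (fun _ => 1) +
          (err A' m C r + err A' m C r)) := mul_le_mul_right h1 _
      _ = 2 * ev μ (wt χ β (Mb L i n)) (Mb L i n) (fun U => f U * g (refl i U)) (fun _ => 1) +
          2 * (err A' m C r + err A' m C r) := mul_add _ _ _
      _ ≤ (ev μ (wt χ β (Mb L i n)) (Mb L i n) (fun U => f U * f (refl i U)) (fun _ => 1) +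
        ev μ (wt χ β (Mb L i n)) (Mb L i n) (fun U => g U * g (refl i U)) (fun _ => 1)) +
          2 * (err A' m C r + err A' m C r) := add_le_add h4 le_rfl
      _ ≤ ((∫⁻ U, f U * f (refl i U) ∂P + (err A' m C r + err A' m C r)) +
        (∫⁻ U, g U * g (refl i U) ∂P + (err A' m C r + err A' m C r))) +
          2 * (err A' m C r + err A' m C r) := add_le_add (add_le_add h2 h3) le_rfl
      _ = _ := by ring
  have hlim : Tendsto (fun r => ∫⁻ U, f U * f (refl i U) ∂P + ∫⁻ U, g U * g (refl i U) ∂P +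
      4 * (err A' m C r + err A' m C r)) atTop
      (𝓝 (∫⁻ U, f U * f (refl i U) ∂P + ∫⁻ U, g U * g (refl i U) ∂P + 4 * (0 + 0))) := by
    refine tendsto_const_nhds.add (ENNReal.Tendsto.const_mul ?_ (Or.inr ENNReal.ofNat_ne_top))
    exact (err_tendsto hm hC A').add (err_tendsto hm hC A')
  rw [add_zero, mul_zero, add_zero] at hlim
  exact ge_of_tendsto hlim key

/-- the invariance under the reflection -/
lemma mp_refl (i : Fin D) : MeasurePreserving (refl i) P P :=
  (symRefl μ χ hχi hχ' i).mp hI hC hm hχ hχi hP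

/-- the invariance under translations -/
lemma mp_shift (v : Fin D → ℤ) : MeasurePreserving (shift v) P P :=
  (symShift μ χ v).mp hI hC hm hχ hχi hP

lemma int_refl (i : Fin D) (F : (Link D L → G) → ℝ) :
    ∫ U, F (refl i U) ∂P = ∫ U, F U ∂P := by
  have h := mp_refl hI hC hm hχ hχi hχ' hP i
  have he : MeasurableEmbedding (refl i : (Link D L → G) → Link D L → G) :=
    (MeasurableEquiv.mk ⟨refl i, refl i, refl_refl i, refl_refl i⟩ (refl_meas i)
      (refl_meas i)).measurableEmbedding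
  exact h.integral_comp he F

lemma shift_neg (v : Fin D → ℤ) (U : Link D L → G) : shift (-v) (shift v U) = U := by
  funext l
  show U (l.1 + -v + v, l.2) = U l
  rw [neg_add_cancel_right]

lemma int_shift (v : Fin D → ℤ) (F : (Link D L → G) → ℝ) :
    ∫ U, F (shift v U) ∂P = ∫ U, F U ∂P := by
  have h := mp_shift hI hC hm hχ hχi hχ' hP v
  have he : MeasurableEmbedding (shift v : (Link D L → G) → Link D L → G) :=
    (MeasurableEquiv.mk ⟨shift v, shift (-v), fun U => by
        funext l; show U (l.1 + -v + v, l.2) = U l; rw [neg_add_cancel_right],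
      fun U => by funext l; show U (l.1 + v + -v, l.2) = U l; rw [add_neg_cancel_right]⟩
      (shift_meas v) (shift_meas (-v))).measurableEmbedding
  exact h.integral_comp he F

/-- **Reflection positivity of the infinite volume measure.** -/
theorem rp (i : Fin D) {F : (Link D L → G) → ℝ} (hF : Half i F) :
    0 ≤ ∫ U, F (refl i U) * F U ∂P := by
  have := hP.prob
  obtain ⟨c', hc'⟩ := hF.bdd
  obtain ⟨A, hA, hL⟩ := hF.loc
  obtain ⟨c, hc⟩ : ∃ c, c = |c'| + 1 := ⟨_, rfl⟩
  have hc0 : 0 < c := by rw [hc]; positivity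
  have hcF : ∀ U, |F U| ≤ c := fun U => by
    have := hc' U
    have := le_abs_self c'
    rw [hc]; linarith
  obtain ⟨f, hf⟩ : ∃ f : (Link D L → G) → ℝ, f = fun U => (F U / c + 1) / 2 := ⟨_, rfl⟩
  have hf0 : ∀ U, 0 ≤ f U := fun U => by
    have h1 := (abs_le.1 (hcF U)).1
    have h2 : -1 ≤ F U / c := by rw [le_div_iff₀ hc0]; linarith
    rw [hf]
    show 0 ≤ (F U / c + 1) / 2
    linarith
  have hf1 : ∀ U, f U ≤ 1 := fun U => by
    have h1 := (abs_le.1 (hcF U)).2
    have h2 : F U / c ≤ 1 := by rw [div_le_one hc0]; linarith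
    rw [hf]
    show (F U / c + 1) / 2 ≤ 1
    linarith
  have hfm : Measurable f := by
    rw [hf]
    exact ((hF.meas.div_const c).add_const 1).div_const 2
  have hfb : ∀ U, |f U| ≤ 1 := fun U => by rw [abs_of_nonneg (hf0 U)]; exact hf1 U
  have mr : Measurable (refl i : (Link D L → G) → Link D L → G) := refl_meas i
  have i1 : Integrable f P := Integrable.of_bound (C := 1) hfm.aestronglyMeasurable
    (Eventually.of_forall hfb)
  have i2 : Integrable (fun U => f (refl i U)) P :=
    Integrable.of_bound (C := 1) (hfm.comp mr).aestronglyMeasurable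
      (Eventually.of_forall fun U => hfb _)
  have hffb : ∀ U, |f U * f (refl i U)| ≤ 1 := fun U => by
    rw [abs_mul]
    calc _ ≤ (1 : ℝ) * 1 := mul_le_mul (hfb U) (hfb _) (abs_nonneg _) zero_le_one
      _ = 1 := one_mul _
  have i3 : Integrable (fun U => f U * f (refl i U)) P :=
    Integrable.of_bound (C := 1) (hfm.mul (hfm.comp mr)).aestronglyMeasurable
      (Eventually.of_forall hffb)
  have hone : ∀ {x : ℝ}, x ≤ 1 → ENNReal.ofReal x ≤ 1 := fun hx => by
    rw [← ENNReal.ofReal_one]; exact ENNReal.ofReal_le_ofReal hx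
  have key := rp_nn hI hC hm hχ hχi hχ' hP i hA (f := fun U => ENNReal.ofReal (f U))
    (g := fun _ => ENNReal.ofReal (1 / 2)) (ENNReal.measurable_ofReal.comp hfm) measurable_const
    (fun U => hone (hf1 U)) (fun U => hone (by norm_num)) (fun U U' hU => by
      show ENNReal.ofReal (f U) = ENNReal.ofReal (f U')
      rw [hf]
      show ENNReal.ofReal ((F U / c + 1) / 2) = ENNReal.ofReal ((F U' / c + 1) / 2)
      rw [hL U U' fun l hl => hU l fun h => h hl]) (fun _ _ _ => rfl)
  have e1 : ∫⁻ U, ENNReal.ofReal (f U) * ENNReal.ofReal (1 / 2) ∂P =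
      ENNReal.ofReal ((∫ U, f U ∂P) * (1 / 2)) := by
    have m1 : Measurable fun U => ENNReal.ofReal (f U) := ENNReal.measurable_ofReal.comp hfm
    rw [lintegral_mul_const _ m1,
      ← ofReal_integral_eq_lintegral_ofReal i1 (Eventually.of_forall hf0),
      ENNReal.ofReal_mul (integral_nonneg hf0)]
  have e2 : ∫⁻ U, ENNReal.ofReal (f U) * ENNReal.ofReal (f (refl i U)) ∂P =
      ENNReal.ofReal (∫ U, f U * f (refl i U) ∂P) := by
    rw [ofReal_integral_eq_lintegral_ofReal i3
      (Eventually.of_forall fun U => mul_nonneg (hf0 U) (hf0 _))]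
    refine lintegral_congr fun U => ?_
    rw [ENNReal.ofReal_mul (hf0 U)]
  have e3 : ∫⁻ _ : Link D L → G, ENNReal.ofReal (1 / 2) * ENNReal.ofReal (1 / 2) ∂P =
      ENNReal.ofReal (1 / 4) := by
    rw [lintegral_const, measure_univ, mul_one, ← ENNReal.ofReal_mul (by norm_num)]
    norm_num
  rw [e1, e2, e3, ← ENNReal.ofReal_add (integral_nonneg fun U => mul_nonneg (hf0 U) (hf0 _))
    (by norm_num), show (2 : ℝ≥0∞) = ENNReal.ofReal 2 by simp,
    ← ENNReal.ofReal_mul (by norm_num)] at key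
  have hff0 : 0 ≤ ∫ U, f U * f (refl i U) ∂P := integral_nonneg fun U => mul_nonneg (hf0 U) (hf0 _)
  have key2 := (ENNReal.ofReal_le_ofReal_iff (by linarith)).1 key
  have e4 : ∀ U, F U = 2 * c * (f U - 1 / 2) := fun U => by
    rw [hf]
    field_simp
    ring
  have e5 : ∫ U, F (refl i U) * F U ∂P =
      4 * c ^ 2 * (∫ U, f U * f (refl i U) ∂P - ∫ U, f U ∂P + 1 / 4) := by
    have h1 : ∀ U, F (refl i U) * F U =
        4 * c ^ 2 * (f U * f (refl i U) - (1 / 2) * f U - (1 / 2) * f (refl i U) + 1 / 4) := by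
      intro U
      rw [e4 U, e4 (refl i U)]
      ring
    simp only [h1]
    rw [integral_const_mul]
    congr 1
    have i4 : Integrable (fun U => f U * f (refl i U) - (1 / 2) * f U) P :=
      i3.sub (i1.const_mul _)
    have i5 : Integrable (fun U => f U * f (refl i U) - (1 / 2) * f U -
        (1 / 2) * f (refl i U)) P := i4.sub (i2.const_mul _)
    rw [integral_add i5 (integrable_const _), integral_sub i4 (i2.const_mul _),
      integral_sub i3 (i1.const_mul _), integral_const_mul, integral_const_mul,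
      int_refl hI hC hm hχ hχi hχ' hP i f, integral_const, probReal_univ, one_smul]
    ring
  rw [e5]
  have : 0 ≤ ∫ U, f U * f (refl i U) ∂P - ∫ U, f U ∂P + 1 / 4 := by linarith
  positivity

/-- symmetry of the form -/
lemma form_symm (i : Fin D) (F F' : (Link D L → G) → ℝ) :
    ∫ U, F (refl i U) * F' U ∂P = ∫ U, F' (refl i U) * F U ∂P := by
  rw [← int_refl hI hC hm hχ hχi hχ' hP i fun U => F' (refl i U) * F U]
  refine integral_congr_ae (Eventually.of_forall fun U => ?_)
  show F (refl i U) * F' U = F' (refl i (refl i U)) * F (refl i U)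
  rw [refl_refl, mul_comm]

omit [TopologicalSpace G] [IsTopologicalGroup G] [CompactSpace G] [T2Space G]
  [SecondCountableTopology G] [MeasurableSpace G] [BorelSpace G] hI hC hm hχ hχi hχ' hP in
lemma shift_refl (i : Fin D) (n : ℕ) (U : Link D L → G) :
    shift (n • e i) (refl i U) = refl i (shift (-(n • e i)) U) := by
  have h1 : ∀ x : Fin D → ℤ, th i (x + n • e i) = th i x + -(n • e i) := by
    intro x
    funext j
    by_cases h : j = i
    · subst h
      rw [th_apply_self, Pi.add_apply, Pi.add_apply, th_apply_self, Pi.neg_apply]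
      ring
    · rw [th_apply_ne i _ h, Pi.add_apply, Pi.add_apply, th_apply_ne i _ h, Pi.neg_apply,
        Pi.smul_apply, e_apply, if_neg h]
      simp
  funext l
  show refl i U (l.1 + n • e i, l.2) = refl i (shift (-(n • e i)) U) l
  unfold refl
  by_cases h : l.2.1 = some i
  · simp only [h, if_true]
    show (U (th i (l.1 + n • e i) - e i, l.2))⁻¹ = (U (th i l.1 - e i + -(n • e i), l.2))⁻¹
    rw [h1]
    congr 3
    abel
  · simp only [h, if_false]
    show U (th i (l.1 + n • e i), l.2) = U (th i l.1 + -(n • e i), l.2)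
    rw [h1]

/-- translations are symmetric for the form -/
lemma form_shift (i : Fin D) (n : ℕ) (F F' : (Link D L → G) → ℝ) :
    ∫ U, F (shift (n • e i) (refl i U)) * F' U ∂P =
      ∫ U, F (refl i U) * F' (shift (n • e i) U) ∂P := by
  rw [← int_shift hI hC hm hχ hχi hχ' hP (n • e i)
    fun U => F (shift (n • e i) (refl i U)) * F' U]
  refine integral_congr_ae (Eventually.of_forall fun U => ?_)
  show F (shift (n • e i) (refl i (shift (n • e i) U))) * F' (shift (n • e i) U) = _
  rw [shift_refl, shift_neg hI hC hm hχ hχi hχ' hP]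

end rp

end

end Pool.Agent.N986.SL
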