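import Pool.Agent.N986.SL.Uniq
import Pool.Agent.N986.PB.Exist

/-!
# Lattice gauge theory in a slab: real valued observables, existence
-/

set_option autoImplicit false
set_option linter.unusedSectionVars false
set_option linter.unusedVariables false

open MeasureTheory Finset Function Filter Topology
open scoped ENNReal NNReal

namespace Pool.Agent.N986.SL

open Pool.Agent.N986.PB

noncomputable section

variable {D L : ℕ} {G : Type*} [Group G] [TopologicalSpace G] [IsTopologicalGroup G]
  [CompactSpace G] [T2Space G] [SecondCountableTopology G] [MeasurableSpace G] [BorelSpace G]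

section cont

variable {χ : G → ℝ}

lemma low_cont (x : Fin D → ℤ) (i : Fin D) (s : Fin L) :
    Continuous fun U : Link D L → G => low U x i s := by
  unfold low
  by_cases h : (s : ℕ) = 0
  · simp only [h, if_true]; exact continuous_const
  · simp only [h, if_false]; exact continuous_apply _

lemma dens_cont (hχ : Continuous χ) (x : Fin D → ℤ) :
    Continuous fun U : Link D L → G => dens χ U x := by
  have h0 : ∀ l : Link D L, Continuous fun U : Link D L → G => U l := fun l => continuous_apply l
  unfold dens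
  refine continuous_finsetSum _ fun s _ => continuous_finsetSum _ fun i _ => ?_
  refine (hχ.comp ?_).add (continuous_finsetSum _ fun j _ => ?_)
  · unfold plaqV
    exact (((low_cont x i s).mul (h0 _)).mul (h0 _).inv).mul (h0 _).inv
  · by_cases h : i < j
    · simp only [h, if_true]
      refine hχ.comp ?_
      unfold plaqH
      exact (((h0 _).mul (h0 _)).mul (h0 _).inv).mul (h0 _).inv
    · simp only [h, if_false]; exact continuous_const

/-- the energy of the links in `M` -/
def EM (χ : G → ℝ) (β : ℝ) (M : Finset (Link D L)) (U : Link D L → G) : ℝ :=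
  β * ∑ x ∈ base M, dens χ U x

lemma base_mono {M M' : Finset (Link D L)} (h : M ⊆ M') : base M ⊆ base M' := by
  intro x hx
  rw [mem_base] at hx ⊢
  rcases hx with ⟨l, hl, h1⟩ | ⟨i, l, hl, h1⟩
  · exact Or.inl ⟨l, h hl, h1⟩
  · exact Or.inr ⟨i, l, h hl, h1⟩

lemma EM_cons (hχ : Continuous χ) (β : ℝ) : Cons (EM (D := D) (L := L) χ β) := by
  refine ⟨fun M => ?_, fun M M' h φ φ' hφ => ?_⟩
  · unfold EM
    exact continuous_const.mul (continuous_finsetSum _ fun x _ => dens_cont hχ x)
  · unfold EM
    rw [← mul_sub, ← mul_sub, ← Finset.sum_sdiff (base_mono h), add_sub_cancel_right,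
      ← Finset.sum_sdiff (base_mono h), add_sub_cancel_right]
    congr 1
    refine Finset.sum_congr rfl fun x hx => dens_congr χ fun l hl => hφ l fun hlM => ?_
    refine (Finset.mem_sdiff.1 hx).2 (mem_base.2 ?_)
    rcases hl with h1 | ⟨i, h1⟩
    · exact Or.inl ⟨l, hlM, h1⟩
    · exact Or.inr ⟨i, l, hlM, h1⟩

end cont

variable {μ : Measure G} [IsProbabilityMeasure μ] {χ : G → ℝ} {β : ℝ}

lemma wt_eq (χ : G → ℝ) (β : ℝ) (M : Finset (Link D L)) : wt χ β M = gw (EM χ β) M := rfl

/-- **Existence.** -/
theorem exists_full (μ : Measure G) [IsProbabilityMeasure μ] (hχ : Continuous χ) (β : ℝ) :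
    ∃ P : Measure (Link D L → G), IsGibbs μ χ β Set.univ P := by
  obtain ⟨P, hP, h⟩ := (EM_cons (D := D) (L := L) hχ β).exists_gibbs (ν := μ)
  exact ⟨P, hP, fun M _ F hF => h M F hF⟩

/-- the finite volume Gibbs measures -/
lemma fin_gibbs (hχ : Continuous χ) (β : ℝ) (M : Finset (Link D L)) (ξ : Link D L → G)
    {W : Set (Fin D → ℤ)} (hW : ∀ l : Link D L, l.1 ∈ W → l ∈ M) :
    IsGibbs μ χ β W (ker μ (EM χ β) M ξ) := by
  have hc := EM_cons (D := D) (L := L) hχ β
  refine ⟨hc.ker_prob M ξ, fun M' hM' F hF => ?_⟩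
  have hsub : M' ⊆ M := fun l hl => hW l (hM' l hl)
  rw [hc.lintegral_ker M ξ hF, wt_eq, ← ev_ev (hc.good M) hsub hF,
    hc.lintegral_ker M ξ (ev_meas (hc.good M') hF)]
  congr 1
  funext φ
  exact hc.ev_eq hsub hF φ

/-- The configuration which is `y` on the links in `M` and `U` on the other links. -/
def patch (M : Finset (Link D L)) (y : M → G) (U : Link D L → G) : Link D L → G := fun l =>
  if h : l ∈ M then y ⟨l, h⟩ else U l

lemma patch_eq (M : Finset (Link D L)) (y : M → G) (U : Link D L → G) :
    patch M y U = updateFinset U M y := rfl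

/-- The expectation of `F` in the finite set `M` of links with the boundary condition `U`. -/
def expect (μ : Measure G) (χ : G → ℝ) (β : ℝ) (M : Finset (Link D L)) (U : Link D L → G)
    (F : (Link D L → G) → ℝ) : ℝ :=
  (∫ y : M → G, F (patch M y U) * Real.exp (-(β * ∑ x ∈ base M, dens χ (patch M y U) x))
    ∂(Measure.pi fun _ => μ)) /
    ∫ y : M → G, Real.exp (-(β * ∑ x ∈ base M, dens χ (patch M y U) x)) ∂(Measure.pi fun _ => μ)

lemma In_real {M : Finset (Link D L)} {g : (Link D L → G) → ℝ} (hg : Measurable g)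
    (hg0 : ∀ φ, 0 ≤ g φ) {C : ℝ} (hC : ∀ φ, |g φ| ≤ C) (ξ : Link D L → G) :
    In μ M (fun φ => ENNReal.ofReal (g φ)) ξ =
      ENNReal.ofReal (∫ y : M → G, g (patch M y ξ) ∂(Measure.pi fun _ => μ)) := by
  unfold In lmarginal
  rw [ofReal_integral_eq_lintegral_ofReal]
  · rfl
  · refine Integrable.of_bound (C := C) (hg.comp measurable_updateFinset).aestronglyMeasurable ?_
    exact Eventually.of_forall fun y => hC _
  · exact Eventually.of_forall fun y => hg0 _

lemma exp_bdd (hχ : Continuous χ) (β : ℝ) (M : Finset (Link D L)) : ∃ C : ℝ, 0 < C ∧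
    ∀ U : Link D L → G, Real.exp (-(β * ∑ x ∈ base M, dens χ U x)) ≤ C ∧
      C⁻¹ ≤ Real.exp (-(β * ∑ x ∈ base M, dens χ U x)) := by
  obtain ⟨C, hC⟩ := bdd_cont ((EM_cons (D := D) (L := L) hχ β).cont M)
  refine ⟨Real.exp C, Real.exp_pos _, fun U => ⟨Real.exp_le_exp.2 ?_, ?_⟩⟩
  · have := (abs_le.1 (hC U)).1
    unfold EM at this
    linarith
  · rw [← Real.exp_neg]
    refine Real.exp_le_exp.2 ?_
    have := (abs_le.1 (hC U)).2
    unfold EM at this
    linarith

lemma exp_meas (hχ : Continuous χ) (β : ℝ) (M : Finset (Link D L)) :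
    Measurable fun U : Link D L → G => Real.exp (-(β * ∑ x ∈ base M, dens χ U x)) :=
  Real.measurable_exp.comp ((Finset.measurable_fun_sum _
    fun x _ => dens_meas hχ.measurable x).const_mul β).neg

lemma Z_pos (hχ : Continuous χ) (β : ℝ) (M : Finset (Link D L)) (U : Link D L → G) :
    0 < ∫ y : M → G, Real.exp (-(β * ∑ x ∈ base M, dens χ (patch M y U) x))
      ∂(Measure.pi fun _ => μ) := by
  obtain ⟨C, hC0, hC⟩ := exp_bdd (D := D) (L := L) hχ β M
  have h1 : Integrable (fun y : M → G => Real.exp (-(β * ∑ x ∈ base M, dens χ (patch M y U) x)))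
      (Measure.pi fun _ => μ) := by
    refine Integrable.of_bound (C := C) ?_ ?_
    · exact ((exp_meas hχ β M).comp measurable_updateFinset).aestronglyMeasurable
    · refine Eventually.of_forall fun y => ?_
      rw [Real.norm_eq_abs, abs_of_pos (Real.exp_pos _)]
      exact (hC _).1
  have h2 : ∫ y : M → G, C⁻¹ ∂(Measure.pi fun _ => μ) ≤
      ∫ y : M → G, Real.exp (-(β * ∑ x ∈ base M, dens χ (patch M y U) x))
        ∂(Measure.pi fun _ => μ) := integral_mono (integrable_const _) h1 fun y => (hC _).2
  rw [integral_const, probReal_univ, one_smul] at h2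
  exact lt_of_lt_of_le (inv_pos.2 hC0) h2

lemma ofReal_expect (hχ : Continuous χ) (β : ℝ) (M : Finset (Link D L)) (U : Link D L → G)
    {F : (Link D L → G) → ℝ} (hF : Measurable F) (hF0 : ∀ U, 0 ≤ F U) {c : ℝ}
    (hc : ∀ U, |F U| ≤ c) :
    ENNReal.ofReal (expect μ χ β M U F) =
      ev μ (wt χ β M) M (fun V => ENNReal.ofReal (F V)) U := by
  obtain ⟨C, hC0, hC⟩ := exp_bdd (D := D) (L := L) hχ β M
  have hc0 : 0 ≤ c := (abs_nonneg _).trans (hc U)
  unfold expect ev
  rw [ENNReal.ofReal_div_of_pos (Z_pos hχ β M U)]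
  congr 1
  · rw [← In_real (g := fun V => F V * Real.exp (-(β * ∑ x ∈ base M, dens χ V x)))
      (hF.mul (exp_meas hχ β M)) (fun φ => mul_nonneg (hF0 _) (Real.exp_pos _).le)
      (C := c * C) fun φ => ?_]
    · congr 1
      funext V
      rw [ENNReal.ofReal_mul (hF0 V), mul_comm]
      rfl
    · rw [abs_mul, abs_of_pos (Real.exp_pos _)]
      exact mul_le_mul (hc _) (hC _).1 (Real.exp_pos _).le hc0
  · rw [← In_real (g := fun V => Real.exp (-(β * ∑ x ∈ base M, dens χ V x)))
      (exp_meas hχ β M) (fun φ => (Real.exp_pos _).le) (C := C) fun φ => ?_]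
    · rfl
    · rw [abs_of_pos (Real.exp_pos _)]
      exact (hC _).1

lemma expect_nonneg (β : ℝ) (M : Finset (Link D L)) (U : Link D L → G)
    {F : (Link D L → G) → ℝ} (hF0 : ∀ U, 0 ≤ F U) : 0 ≤ expect μ χ β M U F := by
  unfold expect
  refine div_nonneg (integral_nonneg fun y => ?_) (integral_nonneg fun y => (Real.exp_pos _).le)
  exact mul_nonneg (hF0 _) (Real.exp_pos _).le

lemma expect_add (hχ : Continuous χ) (β : ℝ) (M : Finset (Link D L)) (U : Link D L → G)
    {F : (Link D L → G) → ℝ} (hF : Measurable F) {c : ℝ} (hc : ∀ U, |F U| ≤ c) (a : ℝ) :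
    expect μ χ β M U (fun V => F V + a) = expect μ χ β M U F + a := by
  obtain ⟨C, hC0, hC⟩ := exp_bdd (D := D) (L := L) hχ β M
  have hc0 : 0 ≤ c := (abs_nonneg _).trans (hc U)
  have hZ := Z_pos (μ := μ) hχ β M U
  have h1 : Integrable (fun y : M → G => Real.exp (-(β * ∑ x ∈ base M, dens χ (patch M y U) x)))
      (Measure.pi fun _ => μ) := by
    refine Integrable.of_bound (C := C) ?_ ?_
    · exact ((exp_meas hχ β M).comp measurable_updateFinset).aestronglyMeasurable
    · refine Eventually.of_forall fun y => ?_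
      rw [Real.norm_eq_abs, abs_of_pos (Real.exp_pos _)]
      exact (hC _).1
  have h2 : Integrable (fun y : M → G => F (patch M y U) *
      Real.exp (-(β * ∑ x ∈ base M, dens χ (patch M y U) x))) (Measure.pi fun _ => μ) := by
    refine Integrable.of_bound (C := c * C) ?_ ?_
    · exact ((hF.mul (exp_meas hχ β M)).comp measurable_updateFinset).aestronglyMeasurable
    · refine Eventually.of_forall fun y => ?_
      rw [Real.norm_eq_abs, abs_mul, abs_of_pos (Real.exp_pos _)]
      exact mul_le_mul (hc _) (hC _).1 (Real.exp_pos _).le hc0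
  unfold expect
  simp only [add_mul]
  rw [integral_add h2 (h1.const_mul a), integral_const_mul, add_div, mul_div_assoc, div_self hZ.ne',
    mul_one]

/-- The DLR equations for bounded measurable functions. -/
structure Dlr (μ : Measure G) (χ : G → ℝ) (β : ℝ) (P : Measure (Link D L → G)) : Prop where
  prob : IsProbabilityMeasure P
  dlr : ∀ (M : Finset (Link D L)) (F : (Link D L → G) → ℝ), Measurable F →
    (∃ c, ∀ U, |F U| ≤ c) → ∫ U, F U ∂P = ∫ U, expect μ χ β M U F ∂P

lemma expect_meas (hχ : Continuous χ) (β : ℝ) (M : Finset (Link D L))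
    {F : (Link D L → G) → ℝ} (hF : Measurable F) {c : ℝ} (hc : ∀ U, |F U| ≤ c) :
    Measurable fun U => expect μ χ β M U F := by
  have h1 : ∀ U, expect μ χ β M U F =
      (ev μ (wt χ β M) M (fun V => ENNReal.ofReal (F V + c)) U).toReal - c := by
    intro U
    have h2 : ∀ V, 0 ≤ F V + c := fun V => by have := (abs_le.1 (hc V)).1; linarith
    rw [← ofReal_expect hχ β M U (hF.add_const c) h2 (c := c + |c|)
      (fun V => (abs_add_le _ _).trans (add_le_add (hc V) le_rfl)), ENNReal.toReal_ofReal
      (expect_nonneg β M U h2), expect_add hχ β M U hF hc]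
    ring
  simp only [h1]
  exact ((ev_meas ((EM_cons hχ β).good M)
    (ENNReal.measurable_ofReal.comp (hF.add_const c))).ennreal_toReal).sub_const c

lemma expect_bdd (hχ : Continuous χ) (β : ℝ) (M : Finset (Link D L)) (U : Link D L → G)
    {F : (Link D L → G) → ℝ} (hF : Measurable F) {c : ℝ} (hc : ∀ U, |F U| ≤ c) :
    |expect μ χ β M U F| ≤ c := by
  have hm : Measurable fun V => -F V := hF.neg
  have h1 : 0 ≤ expect μ χ β M U (fun V => F V + c) :=
    expect_nonneg β M U fun V => by have := (abs_le.1 (hc V)).1; linarith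
  have h2 : 0 ≤ expect μ χ β M U (fun V => -F V + c) :=
    expect_nonneg β M U fun V => by have := (abs_le.1 (hc V)).2; linarith
  rw [expect_add hχ β M U hF hc] at h1
  rw [expect_add hχ β M U hm (fun V => by rw [abs_neg]; exact hc V)] at h2
  have h3 : expect μ χ β M U (fun V => -F V) = -expect μ χ β M U F := by
    unfold expect
    simp only [neg_mul]
    rw [integral_neg, neg_div]
  rw [h3] at h2
  exact abs_le.2 ⟨by linarith, by linarith⟩

lemma Dlr.gibbs (hχ : Continuous χ) {P : Measure (Link D L → G)} (hP : Dlr μ χ β P) :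
    IsGibbs μ χ β Set.univ P := by
  have := hP.prob
  have hc := EM_cons (D := D) (L := L) hχ β
  refine ⟨hP.prob, fun M _ F hF => ?_⟩
  have h1 : P = P.bind (ker μ (EM χ β) M) := by
    ext s hs
    rw [Measure.bind_apply hs (hc.ker_meas M).aemeasurable]
    have h2 := hP.dlr M (s.indicator 1) (measurable_one.indicator hs)
      ⟨1, fun U => by by_cases h : U ∈ s <;> simp [h]⟩
    rw [integral_indicator_one hs] at h2
    have h0 : ∀ U, 0 ≤ s.indicator (1 : (Link D L → G) → ℝ) U := fun U =>
      Set.indicator_nonneg (fun _ _ => zero_le_one) U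
    have h1' : ∀ U, |s.indicator (1 : (Link D L → G) → ℝ) U| ≤ 1 := fun U => by
      by_cases h : U ∈ s <;> simp [h]
    have h3 : ∀ U, ker μ (EM χ β) M U s =
        ENNReal.ofReal (expect μ χ β M U (s.indicator 1)) := by
      intro U
      rw [ofReal_expect hχ β M U (measurable_one.indicator hs) h0 h1', wt_eq,
        ← hc.lintegral_ker M U (F := fun V => ENNReal.ofReal (s.indicator 1 V))
          (ENNReal.measurable_ofReal.comp (measurable_one.indicator hs)),
        ← lintegral_indicator_one hs]
      refine lintegral_congr fun φ => ?_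
      by_cases h : φ ∈ s <;> simp [h]
    simp only [h3]
    rw [← ofReal_integral_eq_lintegral_ofReal, ← h2, Measure.real, ENNReal.ofReal_toReal
      (measure_ne_top P s)]
    · refine Integrable.of_bound (C := 1)
        (expect_meas hχ β M (measurable_one.indicator hs) h1').aestronglyMeasurable ?_
      exact Eventually.of_forall fun U => expect_bdd hχ β M U (measurable_one.indicator hs) h1'
    · exact Eventually.of_forall fun U => expect_nonneg β M U h0
  calc ∫⁻ φ, F φ ∂P = ∫⁻ φ, F φ ∂(P.bind (ker μ (EM χ β) M)) := by rw [← h1]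
    _ = ∫⁻ φ, ∫⁻ η, F η ∂(ker μ (EM χ β) M φ) ∂P :=
        Measure.lintegral_bind (hc.ker_meas M).aemeasurable hF.aemeasurable
    _ = _ := lintegral_congr fun φ => hc.lintegral_ker M φ hF

lemma IsGibbs.dlr' (hχ : Continuous χ) {P : Measure (Link D L → G)}
    (hP : IsGibbs μ χ β Set.univ P) : Dlr μ χ β P := by
  have := hP.prob
  refine ⟨hP.prob, fun M F hF => ?_⟩
  rintro ⟨c, hc⟩
  have h0 : ∀ V, 0 ≤ F V + c := fun V => by have := (abs_le.1 (hc V)).1; linarith
  have hc' : ∀ V, |F V + c| ≤ c + |c| := fun V =>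
    (abs_add_le _ _).trans (add_le_add (hc V) le_rfl)
  have hFi : Integrable F P := Integrable.of_bound (C := c) hF.aestronglyMeasurable
    (Eventually.of_forall hc)
  have hEi : Integrable (fun U => expect μ χ β M U F) P :=
    Integrable.of_bound (C := c) (expect_meas hχ β M hF hc).aestronglyMeasurable
      (Eventually.of_forall fun U => expect_bdd hχ β M U hF hc)
  have h1 := hP.dlr M (fun _ _ => Set.mem_univ _) (fun V => ENNReal.ofReal (F V + c))
    (ENNReal.measurable_ofReal.comp (hF.add_const c))
  simp only [← ofReal_expect hχ β M _ (hF.add_const c) h0 hc'] at h1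
  have hFi' : Integrable (fun U => F U + c) P := hFi.add (integrable_const c)
  have hEi' : Integrable (fun U => expect μ χ β M U F + c) P := hEi.add (integrable_const c)
  rw [← ofReal_integral_eq_lintegral_ofReal hFi' (Eventually.of_forall h0)] at h1
  have h2 : ∀ U, expect μ χ β M U (fun V => F V + c) = expect μ χ β M U F + c := fun U =>
    expect_add hχ β M U hF hc c
  have h3 : ∀ U, 0 ≤ expect μ χ β M U F + c := fun U => by
    rw [← h2 U]; exact expect_nonneg β M U h0
  simp only [h2] at h1
  rw [← ofReal_integral_eq_lintegral_ofReal hEi' (Eventually.of_forall h3)] at h1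
  have h4 := (ENNReal.ofReal_eq_ofReal_iff (integral_nonneg h0) (integral_nonneg h3)).1 h1
  rw [integral_add hFi (integrable_const c), integral_add hEi (integrable_const c)] at h4
  exact add_right_cancel h4

end

end Pool.Agent.N986.SL
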