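import Pool.Agent.N986.SL.Cplx
import Pool.Agent.N453.OS2

/-!
# Lattice gauge theory in a slab: the transfer operator
-/

set_option autoImplicit false
set_option linter.unusedSectionVars false
set_option linter.unusedVariables false

open MeasureTheory Finset Function Filter Topology
open scoped ENNReal NNReal ComplexConjugate

namespace Pool.Agent.N986.SL

open Pool.Agent.N986.PB

noncomputable section

variable {D L : ℕ} {G : Type} [Group G]

/-- A reconstruction of the Hilbert space and of the transfer operator in the direction `i` from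
the observables in `S`. -/
structure Rec [MeasurableSpace G] (i : Fin D) (S : Set ((Link D L → G) → ℂ))
    (P : Measure (Link D L → G)) {H : Type} [NormedAddCommGroup H] [InnerProductSpace ℂ H]
    (T : H →L[ℂ] H) (J : ((Link D L → G) → ℂ) → H) : Prop where
  ip : ∀ F ∈ S, ∀ F' ∈ S, inner ℂ (J F) (J F') = ∫ U, conj (F (refl i U)) * F' U ∂P
  dense : Dense (J '' S)
  step : ∀ F ∈ S, T (J F) = J fun U => F (shift (e i) U)

/-- A space of observables of the half space which is stable under the translation and contains the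
constants. -/
structure Alg [MeasurableSpace G] (i : Fin D) (S : Submodule ℂ ((Link D L → G) → ℂ)) : Prop where
  obs : ∀ F ∈ S, IsObs i F
  one : (fun _ => 1) ∈ S
  step : ∀ F ∈ S, (fun U => F (shift (e i) U)) ∈ S

section alg

variable [MeasurableSpace G] {i : Fin D} {S : Submodule ℂ ((Link D L → G) → ℂ)} (hS : Alg i S)

/-- the inclusion -/
def Alg.inc : S →ₗ[ℂ] ObsSpace G D L i where
  toFun := fun F => ⟨F.1, hS.obs _ F.2⟩
  map_add' := fun _ _ => rfl
  map_smul' := fun _ _ => rfl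

/-- the translation -/
def Alg.tau : S →ₗ[ℂ] S where
  toFun := fun F => ⟨fun U => F.1 (shift (e i) U), hS.step _ F.2⟩
  map_add' := fun _ _ => rfl
  map_smul' := fun _ _ => rfl

/-- the form -/
def Alg.form (P : Measure (Link D L → G)) (F F' : S) : ℂ := SL.form i P (hS.inc F) (hS.inc F')

lemma Alg.inc_tau (F : S) : hS.inc (hS.tau F) = SL.tau G D L i (hS.inc F) := rfl

lemma Alg.inc_iter (F : S) (n : ℕ) : hS.inc (hS.tau^[n] F) = (SL.tau G D L i)^[n] (hS.inc F) := by
  induction n with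
  | zero => rfl
  | succ n ih => rw [Function.iterate_succ_apply', Function.iterate_succ_apply', inc_tau, ih]

/-- all observables -/
lemma alg_all (i : Fin D) : Alg i (ObsSpace G D L i) where
  obs := fun _ h => h
  one := IsObs.const i 1
  step := fun F h => (SL.tau G D L i ⟨F, h⟩).2

/-- `F` is gauge invariant. -/
def GInv (F : (Link D L → G) → ℂ) : Prop :=
  ∀ g : (Fin D → ℤ) → ℕ → G, (∀ x, g x 0 = 1) → ∀ U, F (gt g U) = F U

lemma shift_gt (v : Fin D → ℤ) (g : (Fin D → ℤ) → ℕ → G) (U : Link D L → G) :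
    shift v (gt g U) = gt (fun x s => g (x + v) s) (shift v U) := by
  funext ⟨x, o, s⟩
  cases o with
  | none => rfl
  | some j =>
    show g (x + v) (s + 1) * U (x + v, some j, s) * (g (x + v + e j) (s + 1))⁻¹ =
      g (x + v) (s + 1) * U (x + v, some j, s) * (g (x + e j + v) (s + 1))⁻¹
    rw [add_right_comm]

/-- the gauge invariant observables -/
def GObs (G : Type) [Group G] [MeasurableSpace G] (D L : ℕ) (i : Fin D) :
    Submodule ℂ ((Link D L → G) → ℂ) where
  carrier := {F | IsObs i F ∧ GInv F}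
  zero_mem' := ⟨IsObs.const i 0, fun _ _ _ => rfl⟩
  add_mem' := fun {F F'} h h' => ⟨h.1.add h'.1, fun g hg U => by
    show F _ + F' _ = F _ + F' _
    rw [h.2 g hg, h'.2 g hg]⟩
  smul_mem' := fun c F h => ⟨h.1.smul c, fun g hg U => by
    show c * F _ = c * F _
    rw [h.2 g hg]⟩

lemma alg_inv (i : Fin D) : Alg i (GObs G D L i) where
  obs := fun _ h => h.1
  one := ⟨IsObs.const i 1, fun _ _ _ => rfl⟩
  step := fun F h => ⟨(SL.tau G D L i ⟨F, h.1⟩).2, fun g hg U => by
    show F (shift (e i) (gt g U)) = F (shift (e i) U)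
    rw [shift_gt, h.2 _ fun x => hg _]⟩

end alg

section lin

variable [TopologicalSpace G] [IsTopologicalGroup G]
  [CompactSpace G] [T2Space G] [SecondCountableTopology G] [MeasurableSpace G] [BorelSpace G]
  {μ : Measure G} [IsProbabilityMeasure μ] [μ.IsMulLeftInvariant] [μ.IsMulRightInvariant]
  [μ.IsInvInvariant] {χ : G → ℝ} {β m C : ℝ}
  {P : Measure (Link D L → G)} (hP : IsGibbs μ χ β Set.univ P) {i : Fin D}
  {S : Submodule ℂ ((Link D L → G) → ℂ)} (hS : Alg i S)
  {H : Type} [NormedAddCommGroup H] [InnerProductSpace ℂ H] {T : H →L[ℂ] H}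
  {J : ((Link D L → G) → ℂ) → H}

include hP hS in
lemma Rec.lin (h : Rec i (S : Set ((Link D L → G) → ℂ)) P T J) :
    ∃ J' : S →ₗ[ℂ] H, ∀ F, J' F = J F.1 := by
  have hB : ∀ F F' : S, inner ℂ (J F.1) (J F'.1) = form i P (hS.inc F) (hS.inc F') :=
    fun F F' => h.ip F.1 F.2 F'.1 F'.2
  have hadd : ∀ F F' : S, J (F + F').1 = J F.1 + J F'.1 := by
    intro F F'
    have key : ∀ F'' : S, inner ℂ (J F''.1) (J (F + F').1 - (J F.1 + J F'.1)) = 0 := by
      intro F''
      rw [inner_sub_right, inner_add_right, hB, hB, hB, map_add, form_add hP]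
      ring
    rw [← sub_eq_zero, ← inner_self_eq_zero (𝕜 := ℂ)]
    rw [inner_sub_left, inner_add_left, key, key, key]
    ring
  have hsmul : ∀ (a : ℂ) (F : S), J (a • F).1 = a • J F.1 := by
    intro a F
    have key : ∀ F'' : S, inner ℂ (J F''.1) (J (a • F).1 - a • J F.1) = 0 := by
      intro F''
      rw [inner_sub_right, inner_smul_right, hB, hB, map_smul, form_smul]
      ring
    rw [← sub_eq_zero, ← inner_self_eq_zero (𝕜 := ℂ)]
    rw [inner_sub_left, inner_smul_left, key, key]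
    ring
  exact ⟨{ toFun := fun F => J F.1, map_add' := hadd, map_smul' := hsmul }, fun F => rfl⟩

end lin

section ctx

variable [TopologicalSpace G] [IsTopologicalGroup G]
  [CompactSpace G] [T2Space G] [SecondCountableTopology G] [MeasurableSpace G] [BorelSpace G]
  {μ : Measure G} [IsProbabilityMeasure μ] [μ.IsMulLeftInvariant] [μ.IsMulRightInvariant]
  [μ.IsInvInvariant] {χ : G → ℝ} {β m C : ℝ}
  (hI : AxInfl D L μ χ β m C) (hC : 0 ≤ C) (hm : 0 < m) (hχ : Continuous χ)
  (hχi : ∀ a p : G, χ (a * p * a⁻¹) = χ p) (hχ' : ∀ p : G, χ p⁻¹ = χ p)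
  {P : Measure (Link D L → G)} (hP : IsGibbs μ χ β Set.univ P)
  {i : Fin D} {S : Submodule ℂ ((Link D L → G) → ℂ)} (hS : Alg i S)
include hI hC hm hχ hχi hχ' hP

lemma osForm : OSForm (hS.form P) hS.tau where
  add := fun F F' F'' => by
    unfold Alg.form
    rw [map_add, form_add hP i]
  smul := fun a F F' => by
    unfold Alg.form
    rw [map_smul, form_smul i]
  symm := fun F F' => form_conj hI hC hm hχ hχi hχ' hP i (hS.inc F) (hS.inc F')
  pos := fun F => form_nonneg hI hC hm hχ hχi hχ' hP i (hS.inc F)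
  tau := fun F F' => form_tau hI hC hm hχ hχi hχ' hP i (hS.inc F) (hS.inc F')

/-- the constant observable -/
def Alg.one' : S := ⟨fun _ => 1, hS.one⟩

omit hI hC hm hχ hχi hχ' in
lemma Alg.form_one_one : hS.form P hS.one' hS.one' = 1 := SL.form_one_one hP i

lemma Alg.cluster (F : S) : ∃ K : ℝ, ∀ n : ℕ,
    ‖hS.form P F (hS.tau^[n] F) - (‖hS.form P hS.one' F‖ ^ 2 : ℝ)‖ ≤ K * Real.exp (-(m * n)) := by
  obtain ⟨K, hK⟩ := form_cluster hI hC hm hχ hχi hχ' hP i (hS.inc F)
  refine ⟨K, fun n => ?_⟩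
  have h1 := hK n
  rw [← hS.inc_iter] at h1
  exact h1

include hS in
/-- Existence of the reconstruction. -/
theorem exists_rec : ∃ (H : Type) (_ : NormedAddCommGroup H)
    (_ : InnerProductSpace ℂ H) (_ : CompleteSpace H) (T : H →L[ℂ] H)
    (J : ((Link D L → G) → ℂ) → H), Rec i (S : Set ((Link D L → G) → ℂ)) P T J := by
  classical
  obtain ⟨H, i1, i2, i3, J, T, hJ, hin, hT⟩ := exists_os (osForm hI hC hm hχ hχi hχ' hP hS)
    (fun F => by
      obtain ⟨K, hK⟩ := form_bdd hP i (hS.inc F)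
      refine ⟨K, fun n => ?_⟩
      have h1 := hK n
      rw [← hS.inc_iter] at h1
      exact h1)
  obtain ⟨J', hJ'⟩ : ∃ J' : ((Link D L → G) → ℂ) → H, ∀ F : S, J' F.1 = J F :=
    ⟨fun F => if h : F ∈ S then J ⟨F, h⟩ else 0, fun F => dif_pos F.2⟩
  refine ⟨H, i1, i2, i3, T, J', fun F hF F' hF' => ?_, ?_, fun F hF => ?_⟩
  · have h1 := hin ⟨F, hF⟩ ⟨F', hF'⟩
    rw [← hJ', ← hJ'] at h1
    exact h1
  · refine hJ.mono ?_
    rintro x ⟨F, rfl⟩
    exact ⟨F.1, F.2, hJ' F⟩
  · have h1 := hT ⟨F, hF⟩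
    rw [← hJ', ← hJ'] at h1
    exact h1

include hS in
/-- Properties of the reconstruction. -/
theorem rec_gap {H : Type} [NormedAddCommGroup H] [InnerProductSpace ℂ H]
    [CompleteSpace H] {T : H →L[ℂ] H} {J : ((Link D L → G) → ℂ) → H}
    (h : Rec i (S : Set ((Link D L → G) → ℂ)) P T J) :
    IsSelfAdjoint T ∧ ‖T‖ ≤ 1 ∧ T (J fun _ => 1) = J (fun _ => 1) ∧ ‖J fun _ => 1‖ = 1 ∧
    (∀ x, inner ℂ (J fun _ => 1) x = 0 → ‖T x‖ ≤ Real.exp (-m) * ‖x‖) ∧
    (∀ z ∈ spectrum ℂ T, z = 1 ∨ ‖z‖ ≤ Real.exp (-m)) ∧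
    (∀ x, T x = x → ∃ c : ℂ, x = c • J fun _ => 1) := by
  obtain ⟨J', hJ'⟩ := h.lin hP hS
  have h2 := os_gap (osForm hI hC hm hχ hχi hχ' hP hS) J' T
    (h.dense.mono (by rintro x ⟨F, hF, rfl⟩; exact ⟨⟨F, hF⟩, hJ' _⟩))
    (fun F F' => by rw [hJ', hJ']; exact h.ip _ F.2 _ F'.2)
    (fun F => by rw [hJ', hJ']; exact h.step _ F.2) (one := hS.one') rfl
    (hS.form_one_one hP) hm
    (Alg.cluster hI hC hm hχ hχi hχ' hP hS)
  rw [hJ'] at h2
  exact h2

/-- the truncated correlation as a value of the form -/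
lemma form_corr {f : (Link D L → G) → ℝ} (hf : Half i f)
    (hd : (fun U => ((f U + -(∫ U, f U ∂P) : ℝ) : ℂ)) ∈ S) :
    hS.form P hS.one' ⟨_, hd⟩ = 0 ∧
    ∀ n : ℕ, hS.form P ⟨_, hd⟩ (hS.tau^[n] ⟨_, hd⟩) = ((corr i P f n : ℝ) : ℂ) := by
  have := hP.prob
  have hint : Integrable f P := by
    obtain ⟨c, hc⟩ := hf.bdd
    exact Integrable.of_bound (C := c) hf.meas.aestronglyMeasurable (Eventually.of_forall hc)
  refine ⟨?_, fun n => ?_⟩
  · have h1 := form_one hP i (hS.inc ⟨_, hd⟩)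
    refine h1.trans ?_
    show ∫ U, ((f U + -(∫ U, f U ∂P) : ℝ) : ℂ) ∂P = 0
    rw [integral_complex_ofReal, integral_add hint (integrable_const _)]
    simp
  · have h1 : hS.form P ⟨_, hd⟩ (hS.tau^[n] ⟨_, hd⟩) =
        ∫ U, (((f (refl i U) + -(∫ U, f U ∂P)) * (f (shift (n • e i) U) + -(∫ U, f U ∂P)) : ℝ) : ℂ)
          ∂P := by
      unfold Alg.form
      rw [hS.inc_iter]
      unfold form
      refine integral_congr_ae (Eventually.of_forall fun U => ?_)
      show conj ((f (refl i U) + -(∫ U, f U ∂P) : ℝ) : ℂ) *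
        ((tau G D L i)^[n] (hS.inc ⟨_, hd⟩)).1 U = _
      rw [tau_iter, Complex.conj_ofReal]
      push_cast
      rfl
    rw [h1, integral_complex_ofReal]
    congr 1
    obtain ⟨c, hc⟩ : ∃ c, c = ∫ U, f U ∂P := ⟨_, rfl⟩
    rw [← hc]
    have i1 : Integrable (fun U => f (refl i U)) P := by
      obtain ⟨c, hc⟩ := hf.bdd
      exact Integrable.of_bound (C := c) (hf.meas.comp (refl_meas i)).aestronglyMeasurable
        (Eventually.of_forall fun U => hc _)
    have i2 : Integrable (fun U => f (shift (n • e i) U)) P := by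
      obtain ⟨c, hc⟩ := hf.bdd
      exact Integrable.of_bound (C := c) (hf.meas.comp (shift_meas _)).aestronglyMeasurable
        (Eventually.of_forall fun U => hc _)
    have i3 : Integrable (fun U => f (refl i U) * f (shift (n • e i) U)) P := by
      obtain ⟨c, hc⟩ := hf.bdd
      refine Integrable.of_bound (C := |c| * |c|)
        ((hf.meas.comp (refl_meas i)).mul (hf.meas.comp (shift_meas _))).aestronglyMeasurable
        (Eventually.of_forall fun U => ?_)
      rw [Real.norm_eq_abs, abs_mul]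
      exact mul_le_mul ((hc _).trans (le_abs_self _)) ((hc _).trans (le_abs_self _)) (abs_nonneg _)
        (abs_nonneg _)
    have e1 : ∫ U, f (refl i U) ∂P = c := by
      rw [int_refl hI hC hm hχ hχi hχ' hP i f, hc]
    have e2 : ∫ U, f (shift (n • e i) U) ∂P = c := by
      rw [int_shift hI hC hm hχ hχi hχ' hP (n • e i) f, hc]
    have e3 : ∀ U, (f (refl i U) + -c) * (f (shift (n • e i) U) + -c) =
        f (refl i U) * f (shift (n • e i) U) - c * f (refl i U) - c * f (shift (n • e i) U) +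
          c * c := fun U => by ring
    have i4 : Integrable (fun U => f (refl i U) * f (shift (n • e i) U) - c * f (refl i U)) P :=
      i3.sub (i1.const_mul c)
    have i5 : Integrable (fun U => f (refl i U) * f (shift (n • e i) U) - c * f (refl i U) -
      c * f (shift (n • e i) U)) P := i4.sub (i2.const_mul c)
    simp only [e3]
    rw [integral_add i5 (integrable_const _), integral_sub i4 (i2.const_mul c),
      integral_sub i3 (i1.const_mul c), integral_const_mul, integral_const_mul, e1, e2]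
    unfold corr
    rw [← hc]
    simp
    ring

include hS in
/-- Upper bound of the mass gap. -/
theorem rec_upper {H : Type} [NormedAddCommGroup H] [InnerProductSpace ℂ H]
    [CompleteSpace H] {T : H →L[ℂ] H} {J : ((Link D L → G) → ℂ) → H}
    (h : Rec i (S : Set ((Link D L → G) → ℂ)) P T J)
    {f : (Link D L → G) → ℝ} (hf : Half i f)
    (hd : (fun U => ((f U + -(∫ U, f U ∂P) : ℝ) : ℂ)) ∈ S) (h0 : 0 < corr i P f 0) {M : ℝ}
    (h2 : Real.exp (-(2 * M)) * corr i P f 0 ≤ corr i P f 2) :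
    ∃ z ∈ spectrum ℂ T, z ≠ 1 ∧ Real.exp (-M) ≤ ‖z‖ := by
  obtain ⟨J', hJ'⟩ := h.lin hP hS
  obtain ⟨hF1, hF⟩ := form_corr hI hC hm hχ hχi hχ' hP hS hf hd
  have e0 : hS.form P ⟨_, hd⟩ ⟨_, hd⟩ = ((corr i P f 0 : ℝ) : ℂ) := hF 0
  have e2 : hS.form P (hS.tau ⟨_, hd⟩) (hS.tau ⟨_, hd⟩) = ((corr i P f 2 : ℝ) : ℂ) := by
    rw [(osForm hI hC hm hχ hχi hχ' hP hS).tau]
    exact hF 2
  refine os_upper (osForm hI hC hm hχ hχi hχ' hP hS) J' T
    (h.dense.mono (by rintro x ⟨F, hF, rfl⟩; exact ⟨⟨F, hF⟩, hJ' _⟩))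
    (fun F F' => by rw [hJ', hJ']; exact h.ip _ F.2 _ F'.2)
    (fun F => by rw [hJ', hJ']; exact h.step _ F.2) (one := hS.one') rfl
    (hS.form_one_one hP) hm
    (Alg.cluster hI hC hm hχ hχi hχ' hP hS) hF1 ?_ (Real.exp_pos _).le ?_
  · rw [e0, Complex.ofReal_re]
    exact h0
  · rw [e0, e2, Complex.ofReal_re, Complex.ofReal_re, ← Real.exp_nat_mul]
    refine le_trans (le_of_eq ?_) h2
    congr 2
    push_cast
    ring

end ctx

end

end Pool.Agent.N986.SL
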