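import Pool.Agent.N986.SL.Fix

/-!
# Lattice gauge theory in a slab: uniqueness and clustering
-/

set_option autoImplicit false
set_option linter.unusedSectionVars false
set_option linter.unusedVariables false

open MeasureTheory Finset Function Filter Topology
open scoped ENNReal

namespace Pool.Agent.N986.SL

open Pool.Agent.N986.PB

noncomputable section

/-- The sup distance. -/
def dd {D : ℕ} (x y : Fin D → ℤ) : ℕ := Finset.univ.sup fun i => (x i - y i).natAbs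

lemma dd_le {D : ℕ} {x y : Fin D → ℤ} {r : ℕ} : dd x y ≤ r ↔ ∀ i, (x i - y i).natAbs ≤ r := by
  unfold dd
  simp [Finset.sup_le_iff]

lemma dd_self {D : ℕ} (x : Fin D → ℤ) : dd x x = 0 := by
  rw [← Nat.le_zero, dd_le]
  simp

lemma dd_symm {D : ℕ} (x y : Fin D → ℤ) : dd x y = dd y x := by
  unfold dd
  congr 1
  funext i
  rw [← Int.natAbs_neg, neg_sub]

lemma dd_tri {D : ℕ} (x y z : Fin D → ℤ) : dd x z ≤ dd x y + dd y z := by
  rw [dd_le]
  intro i
  have h1 := (dd_le.1 (le_refl (dd x y))) i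
  have h2 := (dd_le.1 (le_refl (dd y z))) i
  omega

lemma dd_e {D : ℕ} (x : Fin D → ℤ) (i : Fin D) : dd x (x + e i) ≤ 1 := by
  rw [dd_le]
  intro j
  unfold e
  by_cases h : j = i
  · subst h; simp
  · simp [h]

/-- The box of radius `n`. -/
def box (D n : ℕ) : Finset (Fin D → ℤ) := Fintype.piFinset fun _ => Finset.Icc (-(n : ℤ)) n

lemma mem_box {D n : ℕ} {x : Fin D → ℤ} : x ∈ box D n ↔ dd x 0 ≤ n := by
  unfold box
  rw [Fintype.mem_piFinset, dd_le]
  refine forall_congr' fun i => ?_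
  rw [Finset.mem_Icc]
  simp only [Pi.zero_apply, sub_zero]
  omega

/-- finite sets are far from the complement of large boxes -/
lemma exists_box {D : ℕ} (A : Finset (Fin D → ℤ)) (r : ℕ) :
    ∃ n, A ⊆ box D n ∧ ∀ a ∈ A, ∀ y ∉ box D n, r < dd a y := by
  obtain ⟨k, hk⟩ : ∃ k, ∀ a ∈ A, dd a 0 ≤ k :=
    ⟨A.sup fun a => dd a 0, fun a ha => Finset.le_sup (f := fun a => dd a 0) ha⟩
  refine ⟨k + r, fun a ha => mem_box.2 ((hk a ha).trans (by omega)), fun a ha y hy => ?_⟩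
  rw [mem_box, not_le] at hy
  have h1 := dd_tri y a 0
  have h2 := hk a ha
  rw [dd_symm y a] at h1
  omega

variable {D L : ℕ} {G : Type*} [Group G] [MeasurableSpace G]

/-- The influence of the boundary condition in the axial gauge decays with the rate `m`. -/
def AxInfl (D L : ℕ) (μ : Measure G) (χ : G → ℝ) (β m C : ℝ) : Prop :=
  ∀ (V A : Finset (Fin D → ℤ)) (r : ℕ), (∀ a ∈ A, ∀ y ∉ V, r < dd a y) →
    ∀ f : ((Fin D → ℤ) → Fin D × Fin L → G) → ℝ≥0∞, Measurable f → (∀ φ, f φ ≤ 1) →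
    (∀ φ φ' : (Fin D → ℤ) → Fin D × Fin L → G, (∀ a ∈ A, φ a = φ' a) → f φ = f φ') →
    ∀ ψ ψ' : (Fin D → ℤ) → Fin D × Fin L → G,
      ev (Measure.pi fun _ : Fin D × Fin L => μ) (axw χ β V) V f ψ ≤
        ev (Measure.pi fun _ : Fin D × Fin L => μ) (axw χ β V) V f ψ' +
          A.card * ENNReal.ofReal (C * Real.exp (-(m * r)))

/-- the columns which influence the columns `A` through the gauge fixing -/
def Ap (A : Finset (Fin D → ℤ)) : Finset (Fin D → ℤ) :=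
  A ∪ Finset.univ.biUnion fun i : Fin D => A.image fun x => x + e i

lemma mem_Ap {A : Finset (Fin D → ℤ)} {x : Fin D → ℤ} :
    x ∈ Ap A ↔ x ∈ A ∨ ∃ i, ∃ a ∈ A, a + e i = x := by
  unfold Ap
  simp only [Finset.mem_union, Finset.mem_biUnion, Finset.mem_univ, true_and, Finset.mem_image]

/-- the expectation of `F` given the vertical links, boundary condition `1` -/
def cV (μ : Measure G) (χ : G → ℝ) (β : ℝ) (V : Finset (Fin D → ℤ)) (F : (Link D L → G) → ℝ≥0∞)
    (ξ : Link D L → G) : ℝ≥0∞ :=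
  ev (Measure.pi fun _ : Fin D × Fin L => μ) (axw χ β V) V (fun φ => F (back ξ φ)) fun _ _ => 1

variable {μ : Measure G} [IsProbabilityMeasure μ] [μ.IsMulLeftInvariant] [μ.IsMulRightInvariant]
  [MeasurableMul₂ G] [MeasurableInv G]

lemma cV_meas {χ : G → ℝ} (hχm : Measurable χ) (β : ℝ) (V : Finset (Fin D → ℤ))
    {F : (Link D L → G) → ℝ≥0∞} (hF : Measurable F) : Measurable (cV μ χ β V F) := by
  unfold cV ev
  refine Measurable.div ?_ measurable_const
  unfold In lmarginal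
  refine Measurable.lintegral_prod_right' (f := fun p : (Link D L → G) × (V → Fin D × Fin L → G) =>
    axw χ β V (updateFinset (fun _ _ => 1) V p.2) *
      F (back p.1 (updateFinset (fun _ _ => 1) V p.2))) ?_
  have h1 : Measurable fun p : (Link D L → G) × (V → Fin D × Fin L → G) =>
      (updateFinset (fun _ _ => 1) V p.2 : (Fin D → ℤ) → Fin D × Fin L → G) :=
    measurable_updateFinset.comp measurable_snd
  refine ((axw_meas hχm β V).comp h1).mul (hF.comp ?_)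
  exact back_meas₂.comp (measurable_fst.prodMk h1)

lemma back_congr_on {A : Finset (Fin D → ℤ)} {ξ ξ' : Link D L → G}
    (h : ∀ l ∈ Ver L (Ap A), ξ l = ξ' l) (φ : (Fin D → ℤ) → Fin D × Fin L → G) (l : Link D L)
    (hl : l.1 ∈ A) : back ξ φ l = back ξ' φ l := by
  rcases l with ⟨x, o, s⟩
  have hx : ∀ s, ξ (x, none, s) = ξ' (x, none, s) := fun s =>
    h _ (mem_Ver.2 ⟨mem_Ap.2 (Or.inl hl), rfl⟩)
  cases o with
  | none => exact hx s
  | some i =>
    have hx' : ∀ s, ξ (x + e i, none, s) = ξ' (x + e i, none, s) := fun s =>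
      h _ (mem_Ver.2 ⟨mem_Ap.2 (Or.inr ⟨i, x, hl, rfl⟩), rfl⟩)
    show (hv ξ x (s + 1))⁻¹ * φ x (i, s) * hv ξ (x + e i) (s + 1) = 
      (hv ξ' x (s + 1))⁻¹ * φ x (i, s) * hv ξ' (x + e i) (s + 1)
    rw [hv_congr hx, hv_congr hx']

lemma back_dep (ξ : Link D L → G) {A : Finset (Fin D → ℤ)}
    {φ φ' : (Fin D → ℤ) → Fin D × Fin L → G} (h : ∀ a ∈ A, φ a = φ' a) (l : Link D L)
    (hl : l.1 ∈ A) : back ξ φ l = back ξ φ' l := by
  rcases l with ⟨x, o, s⟩
  cases o with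
  | none => rfl
  | some i =>
    show (hv ξ x (s + 1))⁻¹ * φ x (i, s) * hv ξ (x + e i) (s + 1) = 
      (hv ξ x (s + 1))⁻¹ * φ' x (i, s) * hv ξ (x + e i) (s + 1)
    rw [h x hl]

lemma cV_dep (χ : G → ℝ) (β : ℝ) (V : Finset (Fin D → ℤ)) {F : (Link D L → G) → ℝ≥0∞}
    {A : Finset (Fin D → ℤ)} (hFA : NoDep F {l | l.1 ∉ A}) :
    NoDep (cV μ χ β V F) {l | l ∉ Ver L (Ap A)} := by
  intro ξ ξ' h
  unfold cV
  congr 1
  funext φ
  refine hFA _ _ fun l hl => back_congr_on (A := A) (fun l' hl' => h l' ?_) φ l ?_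
  · exact fun h2 => h2 hl'
  · by_contra h2
    exact hl h2

lemma hx_not_ver (x : Fin D → ℤ) (X : Finset (Fin D → ℤ)) : Hx D L x ⊆ {l | l ∉ Ver L X} := by
  rintro l ⟨i, h1, -⟩ h2
  have := (mem_Ver.1 h2).2
  rw [h1] at this
  simp at this

lemma Ap_mem {A V : Finset (Fin D → ℤ)} {r : ℕ} (hA : ∀ a ∈ A, ∀ y ∉ V, r < dd a y) (hr : 2 ≤ r)
    {x : Fin D → ℤ} (hx : x ∈ Ap A) : x ∈ V ∧ ∀ i, x - e i ∈ V := by
  have h1 : ∃ a ∈ A, dd a x ≤ 1 := by
    rcases mem_Ap.1 hx with h | ⟨i, a, ha, rfl⟩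
    · exact ⟨x, h, by rw [dd_self]; omega⟩
    · exact ⟨a, ha, dd_e a i⟩
  obtain ⟨a, ha, h2⟩ := h1
  constructor
  · by_contra h3
    have := hA a ha x h3
    omega
  · intro i
    by_contra h3
    have h4 := hA a ha _ h3
    have h5 := dd_e (x - e i) i
    rw [sub_add_cancel, dd_symm] at h5
    have h6 := dd_tri a x (x - e i)
    omega

variable {χ : G → ℝ} {β m C : ℝ} {W : Set (Fin D → ℤ)} {P : Measure (Link D L → G)}

/-- functions of the vertical links of some columns -/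
lemma In_ver_const {c : (Link D L → G) → ℝ≥0∞} {X : Finset (Fin D → ℤ)}
    (hd : NoDep c {l | l ∉ Ver L X}) (ξ ξ' : Link D L → G) :
    In μ (Ver L X) c ξ = In μ (Ver L X) c ξ' := by
  refine hd.In (Ver L X) ξ ξ' fun l hl => absurd ?_ hl
  by_cases h : l ∈ Ver L X
  · exact Or.inr h
  · exact Or.inl h

lemma IsGibbs.const (hP : IsGibbs μ χ β W P) (hχ : ∀ a p : G, χ (a * p * a⁻¹) = χ p)
    (hχm : Measurable χ) {c : (Link D L → G) → ℝ≥0∞} (hc : Measurable c)
    {X : Finset (Fin D → ℤ)} (hX : ∀ x ∈ X, x ∈ W ∧ ∀ i, x - e i ∈ W)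
    (hd : NoDep c {l | l ∉ Ver L X}) :
    ∫⁻ U, c U ∂P = In μ (Ver L X) c fun _ => 1 := by
  have := hP.prob
  rw [hP.ver hχ hχm hc X hX fun x _ => hd.mono (hx_not_ver x X)]
  rw [lintegral_congr fun U => In_ver_const (μ := μ) hd U fun _ => 1, lintegral_const, measure_univ,
    mul_one]

/-- the error -/
def err (A : Finset (Fin D → ℤ)) (m C : ℝ) (r : ℕ) : ℝ≥0∞ :=
  A.card * ENNReal.ofReal (C * Real.exp (-(m * r)))

section main

variable (hI : AxInfl D L μ χ β m C) (hχ : ∀ a p : G, χ (a * p * a⁻¹) = χ p)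
  (hχm : Measurable χ) {V A : Finset (Fin D → ℤ)} {r : ℕ} (hA : ∀ a ∈ A, ∀ y ∉ V, r < dd a y)
  {F : (Link D L → G) → ℝ≥0∞} (hF : Measurable F) (hF1 : ∀ ξ, F ξ ≤ 1)
  (hFA : NoDep F {l | l.1 ∉ A})
include hI hχ hχm hA hF hF1 hFA

lemma le_cV (ξ : Link D L → G) :
    ev μ (wt χ β (Hor L V)) (Hor L V) F ξ ≤ cV μ χ β V F ξ + err A m C r := by
  rw [ev_hor hχ hχm β V hF ξ]
  refine hI V A r hA (fun φ => F (back ξ φ)) (hF.comp (back_meas ξ)) (fun φ => hF1 _)
    (fun φ φ' h => hFA _ _ fun l hl => back_dep ξ h l (by by_contra h2; exact hl h2)) _ _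

lemma cV_le (ξ : Link D L → G) :
    cV μ χ β V F ξ ≤ ev μ (wt χ β (Hor L V)) (Hor L V) F ξ + err A m C r := by
  rw [ev_hor hχ hχm β V hF ξ]
  refine hI V A r hA (fun φ => F (back ξ φ)) (hF.comp (back_meas ξ)) (fun φ => hF1 _)
    (fun φ φ' h => hFA _ _ fun l hl => back_dep ξ h l (by by_contra h2; exact hl h2)) _ _

/-- the expectation in terms of finite volume quantities -/
lemma IsGibbs.le_bar (hP : IsGibbs μ χ β W P) (hVW : ∀ x ∈ V, x ∈ W) (hr : 2 ≤ r) :
    ∫⁻ U, F U ∂P ≤ In μ (Ver L (Ap A)) (cV μ χ β V F) (fun _ => 1) + err A m C r := by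
  have := hP.prob
  rw [← hP.const hχ hχm (cV_meas hχm β V hF)
    (fun x hx => ⟨hVW _ (Ap_mem hA hr hx).1, fun i => hVW _ ((Ap_mem hA hr hx).2 i)⟩)
    (cV_dep χ β V hFA), hP.dlr (Hor L V) (fun l hl => hVW _ (mem_Hor.1 hl).1) F hF]
  calc _ ≤ ∫⁻ U, (cV μ χ β V F U + err A m C r) ∂P :=
        lintegral_mono fun U => le_cV hI hχ hχm hA hF hF1 hFA U
    _ = _ := by
        rw [lintegral_add_right _ measurable_const, lintegral_const, measure_univ, mul_one]

lemma IsGibbs.bar_le (hP : IsGibbs μ χ β W P) (hVW : ∀ x ∈ V, x ∈ W) (hr : 2 ≤ r) :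
    In μ (Ver L (Ap A)) (cV μ χ β V F) (fun _ => 1) ≤ ∫⁻ U, F U ∂P + err A m C r := by
  have := hP.prob
  rw [← hP.const hχ hχm (cV_meas hχm β V hF)
    (fun x hx => ⟨hVW _ (Ap_mem hA hr hx).1, fun i => hVW _ ((Ap_mem hA hr hx).2 i)⟩)
    (cV_dep χ β V hFA), hP.dlr (Hor L V) (fun l hl => hVW _ (mem_Hor.1 hl).1) F hF]
  calc _ ≤ ∫⁻ U, (ev μ (wt χ β (Hor L V)) (Hor L V) F U + err A m C r) ∂P :=
        lintegral_mono fun U => cV_le hI hχ hχm hA hF hF1 hFA U
    _ = _ := by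
        rw [lintegral_add_right _ measurable_const, lintegral_const, measure_univ, mul_one]

/-- **Clustering.** -/
lemma IsGibbs.cluster (hP : IsGibbs μ χ β W P) (hVW : ∀ x ∈ V, x ∈ W) (hr : 2 ≤ r)
    {b : ℝ} (hb : ∀ p, |χ p| ≤ b) {B : Finset (Fin D → ℤ)} (hVB : ∀ x ∈ B, x ∉ V)
    {F' : (Link D L → G) → ℝ≥0∞} (hF' : Measurable F') (hF'1 : ∀ ξ, F' ξ ≤ 1)
    (hFB : NoDep F' {l | l.1 ∉ B}) :
    ∫⁻ U, F' U * F U ∂P ≤ (∫⁻ U, F' U ∂P) * (∫⁻ U, F U ∂P) + (err A m C r + err A m C r) ∧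
    (∫⁻ U, F' U ∂P) * (∫⁻ U, F U ∂P) ≤ ∫⁻ U, F' U * F U ∂P + (err A m C r + err A m C r) := by
  have := hP.prob
  have hAB : ∀ a ∈ A, ∀ y ∈ B, 2 < dd a y := fun a ha y hy =>
    lt_of_le_of_lt hr (hA a ha y (hVB y hy))
  obtain ⟨cb, hcb⟩ : ∃ cb, cb = In μ (Ver L (Ap A)) (cV μ χ β V F) (fun _ => 1) := ⟨_, rfl⟩
  have hw : Good μ (wt χ β (Hor L V) : (Link D L → G) → ℝ≥0∞) := wt_good hχm hb μ β _
  have e1 : ∫⁻ U, F' U * F U ∂P =
      ∫⁻ U, F' U * ev μ (wt χ β (Hor L V)) (Hor L V) F U ∂P := by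
    rw [hP.dlr (Hor L V) (fun l hl => hVW _ (mem_Hor.1 hl).1) (fun U => F' U * F U) (hF'.mul hF)]
    refine lintegral_congr fun U => ev_const_mul hw hF fun φ hφ => hFB _ _ fun l hl => hφ l ?_
    intro h2
    refine hVB l.1 ?_ (mem_Hor.1 h2).1
    by_contra h3
    exact hl h3
  have hcm := cV_meas (μ := μ) hχm β V hF
  have hcd := cV_dep (μ := μ) χ β V hFA
  have e2 : ∫⁻ U, F' U * cV μ χ β V F U ∂P = (∫⁻ U, F' U ∂P) * cb := by
    have hfar : ∀ x ∈ Ap A, x ∉ B ∧ ∀ y ∈ B, ∀ i, y + e i ≠ x := by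
      intro x hx
      constructor
      · intro hxB
        rcases mem_Ap.1 hx with h | ⟨i, a, ha, rfl⟩
        · have := hAB x h x hxB
          rw [dd_self] at this
          omega
        · have h1 := hAB a ha _ hxB
          have h2 := dd_e a i
          omega
      · rintro y hy i rfl
        rcases mem_Ap.1 hx with h | ⟨j, a, ha, h3⟩
        · have h1 := hAB _ h y hy
          have h2 := dd_e y i
          rw [dd_symm] at h2
          omega
        · have h1 := hAB a ha y hy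
          have h2 := dd_e y i
          rw [dd_symm] at h2
          have h4 := dd_e a j
          rw [h3] at h4
          have h5 := dd_tri a (y + e i) y
          omega
    rw [hP.ver hχ hχm (Ψ := fun U => F' U * cV μ χ β V F U) (hF'.mul hcm) (Ap A)
      (fun x hx => ⟨hVW _ (Ap_mem hA hr hx).1, fun i => hVW _ ((Ap_mem hA hr hx).2 i)⟩) ?_]
    · have h1 : ∀ U, In μ (Ver L (Ap A)) (fun U => F' U * cV μ χ β V F U) U = F' U * cb := by
        intro U
        rw [In_mul_left hcm (c := F' U), hcb, In_ver_const hcd U fun _ => 1]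
        intro φ hφ
        refine hFB _ _ fun l hl => hφ l fun h2 => ?_
        refine (hfar l.1 (mem_Ver.1 h2).1).1 ?_
        by_contra h3
        exact hl h3
      simp only [h1]
      rw [lintegral_mul_const _ hF']
    · intro x hx ξ ξ' h
      have h2 : F' ξ = F' ξ' := by
        refine hFB _ _ fun l hl => h l ?_
        rintro ⟨i, h3, h4⟩
        have hlB : l.1 ∈ B := by
          by_contra h5
          exact hl h5
        rcases h4 with h4 | h4
        · exact (hfar x hx).1 (h4 ▸ hlB)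
        · exact (hfar x hx).2 l.1 hlB i h4
      show F' ξ * _ = F' ξ' * _
      rw [h2, (hcd.mono (hx_not_ver x _)) ξ ξ' h]
  have hF1' : ∫⁻ U, F' U ∂P ≤ 1 := by
    calc ∫⁻ U, F' U ∂P ≤ ∫⁻ _, 1 ∂P := lintegral_mono hF'1
      _ = 1 := by rw [lintegral_one, measure_univ]
  have hev : Measurable (ev μ (wt χ β (Hor L V)) (Hor L V) F) := ev_meas hw hF
  have mer : ∫⁻ U, F' U * err A m C r ∂P ≤ err A m C r := by
    rw [lintegral_mul_const _ hF']
    calc (∫⁻ U, F' U ∂P) * err A m C r ≤ 1 * err A m C r := mul_le_mul_left hF1' _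
      _ = _ := one_mul _
  constructor
  · rw [e1]
    calc ∫⁻ U, F' U * ev μ (wt χ β (Hor L V)) (Hor L V) F U ∂P
        ≤ ∫⁻ U, (F' U * cV μ χ β V F U + F' U * err A m C r) ∂P := by
          refine lintegral_mono fun U => ?_
          show F' U * ev μ (wt χ β (Hor L V)) (Hor L V) F U ≤ _
          rw [← mul_add]
          exact mul_le_mul_right (le_cV hI hχ hχm hA hF hF1 hFA U) _
      _ = (∫⁻ U, F' U ∂P) * cb + ∫⁻ U, F' U * err A m C r ∂P := by
          rw [lintegral_add_left (mm hF' hcm), e2]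
      _ ≤ (∫⁻ U, F' U ∂P) * (∫⁻ U, F U ∂P + err A m C r) + err A m C r :=
          add_le_add (mul_le_mul_right (hcb ▸ hP.bar_le hI hχ hχm hA hF hF1 hFA hVW hr) _) mer
      _ = (∫⁻ U, F' U ∂P) * (∫⁻ U, F U ∂P) + (∫⁻ U, F' U ∂P) * err A m C r + err A m C r := by
          rw [mul_add]
      _ ≤ (∫⁻ U, F' U ∂P) * (∫⁻ U, F U ∂P) + 1 * err A m C r + err A m C r := by gcongr
      _ = _ := by rw [one_mul, add_assoc]
  · rw [e1]
    calc (∫⁻ U, F' U ∂P) * (∫⁻ U, F U ∂P) ≤ (∫⁻ U, F' U ∂P) * (cb + err A m C r) :=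
          mul_le_mul_right (hcb ▸ hP.le_bar hI hχ hχm hA hF hF1 hFA hVW hr) _
      _ = ∫⁻ U, F' U * cV μ χ β V F U ∂P + (∫⁻ U, F' U ∂P) * err A m C r := by rw [mul_add, e2]
      _ ≤ ∫⁻ U, (F' U * ev μ (wt χ β (Hor L V)) (Hor L V) F U + F' U * err A m C r) ∂P +
            1 * err A m C r := by
          refine add_le_add (lintegral_mono fun U => ?_) (mul_le_mul_left hF1' _)
          show F' U * cV μ χ β V F U ≤ _
          rw [← mul_add]
          exact mul_le_mul_right (cV_le hI hχ hχm hA hF hF1 hFA U) _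
      _ = ∫⁻ U, F' U * ev μ (wt χ β (Hor L V)) (Hor L V) F U ∂P +
            ∫⁻ U, F' U * err A m C r ∂P + err A m C r := by
          rw [lintegral_add_left (mm hF' hev), one_mul]
      _ ≤ _ := by
          rw [add_assoc]
          exact add_le_add le_rfl (add_le_add mer le_rfl)

end main

end

end Pool.Agent.N986.SL
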