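import Pool.Agent.N986.SL.Model

/-!
# Lattice gauge theory in a slab: Gibbs measures, the vertical links
-/

set_option autoImplicit false
set_option linter.unusedSectionVars false
set_option linter.unusedVariables false

open MeasureTheory Finset Function
open scoped ENNReal

namespace Pool.Agent.N986.SL

open Pool.Agent.N986.PB

noncomputable section

/-- a bounded positive weight is good -/
lemma good_of_bdd {ι E : Type*} [DecidableEq ι] [MeasurableSpace E] {ν : Measure E}
    [IsProbabilityMeasure ν] {w : (ι → E) → ℝ≥0∞} (hw : Measurable w) {lo hi : ℝ≥0∞}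
    (h0 : lo ≠ 0) (h1 : hi ≠ ∞) (hlo : ∀ φ, lo ≤ w φ) (hhi : ∀ φ, w φ ≤ hi) : Good ν w := by
  have hc : ∀ (V : Finset ι) (ψ : ι → E) (c : ℝ≥0∞), In ν V (fun _ : ι → E => c) ψ = c := by
    intro V ψ c
    unfold In lmarginal
    rw [lintegral_const, measure_univ, mul_one]
  refine ⟨hw, fun V ψ => ?_, fun V ψ => ?_⟩
  · have h2 := In_mono (ν := ν) (V := V) hlo ψ
    rw [hc] at h2
    exact ne_of_gt (lt_of_lt_of_le (pos_iff_ne_zero.2 h0) h2)
  · have h2 := In_mono (ν := ν) (V := V) hhi ψ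
    rw [hc] at h2
    exact ne_top_of_le_ne_top h1 h2

lemma In_dep' {ι E : Type*} [DecidableEq ι] [MeasurableSpace E] {ν : Measure E} {V : Finset ι}
    {f : (ι → E) → ℝ≥0∞} {A : Set ι}
    (hf : ∀ φ φ' : ι → E, (∀ a ∈ A, φ a = φ' a) → f φ = f φ') {ψ ψ' : ι → E}
    (h : ∀ a ∈ A, a ∉ V → ψ a = ψ' a) : In ν V f ψ = In ν V f ψ' := by
  unfold In lmarginal
  refine lintegral_congr fun y => hf _ _ fun a ha => ?_
  by_cases hV : a ∈ V
  · simp [Function.updateFinset_def, hV]
  · simp [Function.updateFinset_def, hV, h a ha hV]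

variable {D L : ℕ} {G : Type*} [Group G] [MeasurableSpace G]

/-- Gibbs measures of the columns in `W`. -/
structure IsGibbs (μ : Measure G) (χ : G → ℝ) (β : ℝ) (W : Set (Fin D → ℤ))
    (P : Measure (Link D L → G)) : Prop where
  prob : IsProbabilityMeasure P
  dlr : ∀ M : Finset (Link D L), (∀ l ∈ M, l.1 ∈ W) →
    ∀ F : (Link D L → G) → ℝ≥0∞, Measurable F →
    ∫⁻ U, F U ∂P = ∫⁻ U, ev μ (wt χ β M) M F U ∂P

lemma dens_bdd {χ : G → ℝ} {b : ℝ} (hb : ∀ p, |χ p| ≤ b) (U : Link D L → G) (x : Fin D → ℤ) :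
    |dens χ U x| ≤ L * (D * (b + D * b)) := by
  have hb0 : 0 ≤ b := (abs_nonneg _).trans (hb 1)
  unfold dens
  refine (Finset.abs_sum_le_sum_abs _ _).trans ?_
  refine (Finset.sum_le_sum (g := fun _ => (D * (b + D * b) : ℝ)) fun s _ => ?_).trans ?_
  · refine (Finset.abs_sum_le_sum_abs _ _).trans ?_
    refine (Finset.sum_le_sum (g := fun _ => (b + D * b : ℝ)) fun i _ => ?_).trans ?_
    · refine (abs_add_le _ _).trans (add_le_add (hb _) ?_)
      refine (Finset.abs_sum_le_sum_abs _ _).trans ?_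
      refine (Finset.sum_le_sum (g := fun _ => (b : ℝ)) fun j _ => ?_).trans ?_
      · by_cases h : i < j
        · rw [if_pos h]; exact hb _
        · rw [if_neg h, abs_zero]; exact hb0
      · rw [Finset.sum_const, Finset.card_univ, Fintype.card_fin, nsmul_eq_mul]
    · rw [Finset.sum_const, Finset.card_univ, Fintype.card_fin, nsmul_eq_mul]
  · rw [Finset.sum_const, Finset.card_univ, Fintype.card_fin, nsmul_eq_mul]

lemma wt_good {χ : G → ℝ} [MeasurableMul₂ G] [MeasurableInv G] (hχm : Measurable χ) {b : ℝ}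
    (hb : ∀ p, |χ p| ≤ b) (μ : Measure G) [IsProbabilityMeasure μ] (β : ℝ)
    (M : Finset (Link D L)) : Good μ (wt χ β M : (Link D L → G) → ℝ≥0∞) := by
  obtain ⟨c, hc⟩ : ∃ c : ℝ, c = |β| * ((base M).card * (L * (D * (b + D * b)))) := ⟨_, rfl⟩
  have h1 : ∀ U : Link D L → G, |β * ∑ x ∈ base M, dens χ U x| ≤ c := by
    intro U
    rw [abs_mul, hc]
    refine mul_le_mul_of_nonneg_left ?_ (abs_nonneg _)
    refine (Finset.abs_sum_le_sum_abs _ _).trans ?_
    refine (Finset.sum_le_sum fun x _ => dens_bdd hb U x).trans ?_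
    simp
  refine good_of_bdd (wt_meas hχm β M) (lo := ENNReal.ofReal (Real.exp (-c)))
    (hi := ENNReal.ofReal (Real.exp c)) (by simp [Real.exp_pos]) ENNReal.ofReal_ne_top
    (fun U => ENNReal.ofReal_le_ofReal (Real.exp_le_exp.2 ?_))
    fun U => ENNReal.ofReal_le_ofReal (Real.exp_le_exp.2 ?_)
  · have := (abs_le.1 (h1 U)).2; linarith
  · have := (abs_le.1 (h1 U)).1; linarith

variable {μ : Measure G} [IsProbabilityMeasure μ] [μ.IsMulLeftInvariant] [μ.IsMulRightInvariant]
  [MeasurableMul₂ G] [MeasurableInv G]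

lemma mp_mul (a b : G) : MeasurePreserving (fun t => a * t * b) μ μ := by
  have h1 := measurePreserving_mul_left μ a
  have h2 := measurePreserving_mul_right μ b
  exact h2.comp h1

/-- gauge transformations act on each coordinate -/
lemma gt_update (g : (Fin D → ℤ) → ℕ → G) (l : Link D L) : ∃ a b : G,
    ∀ (U : Link D L → G) (t : G), gt g (update U l t) = update (gt g U) l (a * t * b) := by
  rcases l with ⟨x, o, s⟩
  cases o with
  | none =>
    refine ⟨g x s, (g x (s + 1))⁻¹, fun U t => ?_⟩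
    funext l
    rcases l with ⟨y, o', s'⟩
    by_cases h : (y, o', s') = (x, none, s)
    · rw [h, update_self]
      simp only [gt, update_self]
    · rw [update_of_ne h]
      cases o' with
      | none => simp only [gt, update_of_ne h]
      | some i => simp only [gt, update_of_ne h]
  | some i =>
    refine ⟨g x (s + 1), (g (x + e i) (s + 1))⁻¹, fun U t => ?_⟩
    funext l
    rcases l with ⟨y, o', s'⟩
    by_cases h : (y, o', s') = (x, some i, s)
    · rw [h, update_self]
      simp only [gt, update_self]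
    · rw [update_of_ne h]
      cases o' with
      | none => simp only [gt, update_of_ne h]
      | some i => simp only [gt, update_of_ne h]

variable {χ : G → ℝ} {β : ℝ} {W : Set (Fin D → ℤ)} {P : Measure (Link D L → G)}

/-- **Gauge invariance of the Gibbs measures.** -/
lemma IsGibbs.gauge (hP : IsGibbs μ χ β W P) (hχ : ∀ a p : G, χ (a * p * a⁻¹) = χ p)
    (hχm : Measurable χ) {g : (Fin D → ℤ) → ℕ → G} (hg : ∀ x, g x 0 = 1) {X : Finset (Fin D → ℤ)}
    (hX : ∀ x ∉ X, ∀ n, g x n = 1) (hW : ∀ x ∈ X, x ∈ W ∧ ∀ i, x - e i ∈ W)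
    {F : (Link D L → G) → ℝ≥0∞} (hF : Measurable F) :
    ∫⁻ U, F (gt g U) ∂P = ∫⁻ U, F U ∂P := by
  obtain ⟨M, hM⟩ : ∃ M : Finset (Link D L), M =
      (X ∪ Finset.univ.biUnion fun i : Fin D => X.image fun x => x - e i) ×ˢ Finset.univ :=
    ⟨_, rfl⟩
  have hM' : ∀ (U : Link D L → G), ∀ l ∉ M, gt g U l = U l := by
    intro U l hl
    rcases l with ⟨x, o, s⟩
    have h1 : x ∉ X ∧ ∀ i, x + e i ∉ X := by
      rw [hM, Finset.mem_product] at hl
      simp only [Finset.mem_union, Finset.mem_biUnion, Finset.mem_univ, true_and,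
        Finset.mem_image, and_true, not_or, not_exists, not_and] at hl
      refine ⟨hl.1, fun i hi => hl.2 i _ hi ?_⟩
      simp
    cases o with
    | none => simp only [gt, hX x h1.1, one_mul, inv_one, mul_one]
    | some i => simp only [gt, hX x h1.1, hX _ (h1.2 i), one_mul, inv_one, mul_one]
  have hco : ∀ j ∈ M, ∀ ξ : Link D L → G, ∃ m : G → G, MeasurePreserving m μ μ ∧
      ∀ t, gt g (update ξ j t) = update (gt g ξ) j (m t) := by
    intro j _ ξ
    obtain ⟨a, b, hab⟩ := gt_update g j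
    exact ⟨_, mp_mul a b, fun t => hab ξ t⟩
  have hMW : ∀ l ∈ M, l.1 ∈ W := by
    intro l hl
    rw [hM, Finset.mem_product] at hl
    rcases Finset.mem_union.1 hl.1 with h | h
    · exact (hW _ h).1
    · obtain ⟨i, -, h⟩ := Finset.mem_biUnion.1 h
      obtain ⟨x, hx, h⟩ := Finset.mem_image.1 h
      rw [← h]
      exact (hW x hx).2 i
  rw [hP.dlr M hMW F hF, hP.dlr M hMW (fun U => F (gt g U)) (hF.comp (gt_meas g))]
  refine lintegral_congr fun U => ?_
  unfold ev
  congr 1
  have h2 : (fun φ => wt χ β M φ * F (gt g φ)) =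
      fun φ : Link D L → G => (fun η => wt χ β M η * F η) (gt g φ) := by
    funext φ
    show _ = wt χ β M (gt g φ) * F (gt g φ)
    rw [wt_gt g φ hg hχ]
  rw [h2]
  exact In_gauge (gt g) (gt_meas g) ((wt_meas hχm β M).mul hF) M hco U (hM' U)

/-- `Ψ` does not depend on the coordinates in `S` -/
def NoDep (Ψ : (Link D L → G) → ℝ≥0∞) (S : Set (Link D L)) : Prop :=
  ∀ ξ ξ' : Link D L → G, (∀ l ∉ S, ξ l = ξ' l) → Ψ ξ = Ψ ξ'

lemma NoDep.mono {Ψ : (Link D L → G) → ℝ≥0∞} {S S' : Set (Link D L)} (h : NoDep Ψ S)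
    (hS : S' ⊆ S) : NoDep Ψ S' := fun ξ ξ' h' => h ξ ξ' fun l hl => h' l fun hl' => hl (hS hl')

lemma NoDep.In {Ψ : (Link D L → G) → ℝ≥0∞} {S : Set (Link D L)} (h : NoDep Ψ S)
    (T : Finset (Link D L)) : NoDep (In μ T Ψ) (S ∪ T) := by
  intro ξ ξ' h'
  refine In_dep' (A := Sᶜ) (fun φ φ' h2 => h φ φ' fun l hl => h2 l hl) fun l hl hlT => h' l ?_
  rintro (h3 | h3)
  · exact hl h3
  · exact hlT h3

/-- the horizontal links at the column `x` -/
def Hx (D L : ℕ) (x : Fin D → ℤ) : Set (Link D L) :=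
  {l | ∃ i : Fin D, l.2.1 = some i ∧ (l.1 = x ∨ l.1 + e i = x)}

/-- **The vertical link below a vertex.** -/
lemma IsGibbs.vertex (hP : IsGibbs μ χ β W P) (hχ : ∀ a p : G, χ (a * p * a⁻¹) = χ p)
    (hχm : Measurable χ) (x : Fin D → ℤ) (hx : x ∈ W ∧ ∀ i, x - e i ∈ W) (s : Fin L) {Ψ : (Link D L → G) → ℝ≥0∞}
    (hΨ : Measurable Ψ) (hd : NoDep Ψ (Hx D L x ∪ {l | ∃ s' : Fin L, l = (x, none, s') ∧ s < s'})) :
    ∫⁻ U, Ψ U ∂P = ∫⁻ U, In μ {(x, none, s)} Ψ U ∂P := by
  have := hP.prob
  obtain ⟨g, hgdef⟩ : ∃ g : G → (Fin D → ℤ) → ℕ → G,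
      g = fun t y n => if y = x ∧ n = (s : ℕ) + 1 then t else 1 := ⟨_, rfl⟩
  have hg0 : ∀ t y, g t y 0 = 1 := by
    intro t y
    rw [hgdef]
    simp
  have hgX : ∀ t, ∀ y ∉ ({x} : Finset (Fin D → ℤ)), ∀ n, g t y n = 1 := by
    intro t y hy n
    rw [hgdef]
    show (if y = x ∧ n = (s : ℕ) + 1 then t else 1) = 1
    rw [if_neg]
    rintro ⟨h1, -⟩
    exact hy (Finset.mem_singleton.2 h1)
  have hkey : ∀ t (U : Link D L → G), Ψ (gt (g t) U) =
      Ψ (update U (x, none, s) (U (x, none, s) * t⁻¹)) := by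
    intro t U
    refine hd _ _ fun l hl => ?_
    rcases l with ⟨y, o, s'⟩
    by_cases h : (y, o, s') = (x, none, s)
    · rw [h, update_self]
      simp only [gt, hgdef]
      rw [if_neg (by omega), if_pos (by simp), one_mul]
    · rw [update_of_ne h]
      cases o with
      | none =>
        by_cases hyx : y = x
        · subst hyx
          have hs' : s' < s := by
            have h1 : ¬ s < s' := fun h2 => hl (Or.inr ⟨s', rfl, h2⟩)
            have h2 : s' ≠ s := fun h3 => h (by rw [h3])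
            exact lt_of_le_of_ne (not_lt.1 h1) h2
          have hs'' : (s' : ℕ) < s := hs'
          simp only [gt, hgdef]
          rw [if_neg (by omega), if_neg (by omega)]
          simp
        · simp only [gt, hgdef]
          rw [if_neg (by tauto), if_neg (by tauto)]
          simp
      | some i =>
        have h1 : y ≠ x := fun h2 => hl (Or.inl ⟨i, rfl, Or.inl h2⟩)
        have h2 : y + e i ≠ x := fun h2 => hl (Or.inl ⟨i, rfl, Or.inr h2⟩)
        simp only [gt, hgdef]
        rw [if_neg (by tauto), if_neg (by tauto)]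
        simp
  have h1 : ∀ t, ∫⁻ U, Ψ U ∂P = ∫⁻ U, Ψ (update U (x, none, s) (U (x, none, s) * t)) ∂P := by
    intro t
    rw [← hP.gauge hχ hχm (hg0 t⁻¹) (hgX t⁻¹) (fun y hy => by
      rw [Finset.mem_singleton.1 hy]; exact hx) hΨ]
    refine lintegral_congr fun U => ?_
    rw [hkey, inv_inv]
  have hupd : Measurable fun p : (Link D L → G) × G => update p.1 (x, none, s) p.2 :=
    measurable_update'
  have hj : Measurable fun p : (Link D L → G) × G =>
      Ψ (update p.1 (x, none, s) (p.1 (x, none, s) * p.2)) := by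
    refine hΨ.comp ?_
    have h2 : Measurable fun p : (Link D L → G) × G => (p.1, p.1 (x, none, s) * p.2) :=
      measurable_fst.prodMk (((measurable_pi_apply _).comp measurable_fst).mul measurable_snd)
    exact hupd.comp h2
  calc ∫⁻ U, Ψ U ∂P = ∫⁻ t, ∫⁻ U, Ψ U ∂P ∂μ := by
        rw [lintegral_const, measure_univ, mul_one]
    _ = ∫⁻ t, ∫⁻ U, Ψ (update U (x, none, s) (U (x, none, s) * t)) ∂P ∂μ :=
        lintegral_congr fun t => h1 t
    _ = ∫⁻ U, ∫⁻ t, Ψ (update U (x, none, s) (U (x, none, s) * t)) ∂μ ∂P := by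
        refine lintegral_lintegral_swap ?_
        exact (hj.comp measurable_swap).aemeasurable
    _ = ∫⁻ U, In μ {(x, none, s)} Ψ U ∂P := by
        refine lintegral_congr fun U => ?_
        have h3 := In_insert (ν := μ) (S := (∅ : Finset (Link D L))) (j := (x, none, s))
          (Finset.notMem_empty _) hΨ U
        rw [insert_empty_eq] at h3
        rw [h3]
        have h4 : ∀ t, In μ (∅ : Finset (Link D L)) Ψ (update U (x, none, s) t) =
            Ψ (update U (x, none, s) t) := fun t => by simp [In]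
        simp only [h4]
        have h5 : Measurable fun t => Ψ (update U (x, none, s) t) := hΨ.comp (measurable_update _)
        exact (measurePreserving_mul_left μ (U (x, none, s))).lintegral_comp h5

/-- the vertical links of the column `x` at height at least `L - k` -/
def Tk (L : ℕ) (x : Fin D → ℤ) (k : ℕ) : Finset (Link D L) :=
  (Finset.univ.filter fun s : Fin L => L ≤ (s : ℕ) + k).image fun s => (x, none, s)

lemma mem_Tk {x : Fin D → ℤ} {k : ℕ} {l : Link D L} :
    l ∈ Tk L x k ↔ ∃ s : Fin L, L ≤ (s : ℕ) + k ∧ l = (x, none, s) := by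
  unfold Tk
  simp [eq_comm]

lemma IsGibbs.col (hP : IsGibbs μ χ β W P) (hχ : ∀ a p : G, χ (a * p * a⁻¹) = χ p)
    (hχm : Measurable χ) (x : Fin D → ℤ) (hx : x ∈ W ∧ ∀ i, x - e i ∈ W) {Ψ : (Link D L → G) → ℝ≥0∞}
    (hΨ : Measurable Ψ) (hd : NoDep Ψ (Hx D L x)) (k : ℕ) (hk : k ≤ L) :
    ∫⁻ U, Ψ U ∂P = ∫⁻ U, In μ (Tk L x k) Ψ U ∂P := by
  induction k with
  | zero =>
    have h1 : Tk L x 0 = ∅ := by
      refine Finset.eq_empty_of_forall_notMem fun l hl => ?_
      obtain ⟨s, hs, -⟩ := mem_Tk.1 hl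
      have := s.2
      omega
    rw [h1]
    simp [In]
  | succ k ih =>
    obtain ⟨s, hs⟩ : ∃ s : Fin L, (s : ℕ) + (k + 1) = L := ⟨⟨L - (k + 1), by omega⟩, by
      show L - (k + 1) + (k + 1) = L
      omega⟩
    have h1 : Tk L x (k + 1) = {(x, none, s)} ∪ Tk L x k := by
      ext l
      rw [Finset.mem_union, Finset.mem_singleton, mem_Tk, mem_Tk]
      constructor
      · rintro ⟨s', h2, rfl⟩
        by_cases h3 : L ≤ (s' : ℕ) + k
        · exact Or.inr ⟨s', h3, rfl⟩
        · left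
          have h4 : s' = s := Fin.ext (by omega)
          rw [h4]
      · rintro (rfl | ⟨s', h2, rfl⟩)
        · exact ⟨s, by omega, rfl⟩
        · exact ⟨s', by omega, rfl⟩
    have h2 : Disjoint ({(x, none, s)} : Finset (Link D L)) (Tk L x k) := by
      rw [Finset.disjoint_singleton_left, mem_Tk]
      rintro ⟨s', h3, h4⟩
      have h5 : s = s' := by simpa using h4
      subst h5
      omega
    rw [ih (by omega), h1]
    simp only [In_union h2 hΨ]
    refine hP.vertex hχ hχm x hx s (In_meas hΨ) ((hd.In (Tk L x k)).mono ?_)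
    rintro l (hl | ⟨s', rfl, hs'⟩)
    · exact Or.inl hl
    · refine Or.inr ?_
      rw [Finset.mem_coe, mem_Tk]
      have h3 : (s : ℕ) < s' := hs'
      exact ⟨s', by omega, rfl⟩

/-- the vertical links of the columns `X` -/
def Ver (L : ℕ) (X : Finset (Fin D → ℤ)) : Finset (Link D L) := X ×ˢ ({none} ×ˢ Finset.univ)

lemma mem_Ver {X : Finset (Fin D → ℤ)} {l : Link D L} :
    l ∈ Ver L X ↔ l.1 ∈ X ∧ l.2.1 = none := by
  unfold Ver
  rw [Finset.mem_product, Finset.mem_product]
  simp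

/-- **The vertical links are independent Haar distributed variables.** -/
lemma IsGibbs.ver (hP : IsGibbs μ χ β W P) (hχ : ∀ a p : G, χ (a * p * a⁻¹) = χ p)
    (hχm : Measurable χ) {Ψ : (Link D L → G) → ℝ≥0∞}
    (hΨ : Measurable Ψ) (X : Finset (Fin D → ℤ)) : (∀ x ∈ X, x ∈ W ∧ ∀ i, x - e i ∈ W) →
    (∀ x ∈ X, NoDep Ψ (Hx D L x)) →
    ∫⁻ U, Ψ U ∂P = ∫⁻ U, In μ (Ver L X) Ψ U ∂P := by
  induction X using Finset.induction_on with
  | empty =>
    intro _ _
    have h1 : Ver L (∅ : Finset (Fin D → ℤ)) = ∅ := by simp [Ver]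
    rw [h1]
    simp [In]
  | insert x X hx ih =>
    intro hW hd
    have h1 : Ver L (insert x X) = Tk L x L ∪ Ver L X := by
      ext l
      rw [Finset.mem_union, mem_Ver, mem_Ver, mem_Tk, Finset.mem_insert]
      constructor
      · rintro ⟨h2 | h2, h3⟩
        · left
          exact ⟨l.2.2, by omega, by rw [← h2, ← h3]⟩
        · exact Or.inr ⟨h2, h3⟩
      · rintro (⟨s, -, rfl⟩ | ⟨h2, h3⟩)
        · exact ⟨Or.inl rfl, rfl⟩
        · exact ⟨Or.inr h2, h3⟩
    have h2 : Disjoint (Tk L x L) (Ver L X) := by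
      rw [Finset.disjoint_left]
      intro l h3 h4
      obtain ⟨s, -, rfl⟩ := mem_Tk.1 h3
      exact hx (mem_Ver.1 h4).1
    rw [ih (fun y hy => hW y (Finset.mem_insert_of_mem hy))
      fun y hy => hd y (Finset.mem_insert_of_mem hy), h1]
    simp only [In_union h2 hΨ]
    refine hP.col hχ hχm x (hW x (Finset.mem_insert_self x X)) (In_meas hΨ) ?_ L le_rfl
    exact ((hd x (Finset.mem_insert_self x X)).In (Ver L X)).mono Set.subset_union_left

end

end Pool.Agent.N986.SL
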